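import Pool.Agent.V7H67.LI.Des
import Pool.Agent.V7H67.LL.Hard

/-!
# Polynomial-time permutations given by big steps
-/

namespace Pool.Agent.V7H67.LI

open Pool.Agent.NPC Pool.Agent.NPC.PIso Pool.Agent.V7H67.LL

/-- Big steps of different lengths between pairs of a phase and a string. -/
structure Big (Φ : Type) [TEnc Φ] where
  /-- the maximal length -/
  m : ℕ
  /-- the length of a big step -/
  ln : Φ × List Bool → ℕ
  /-- the end of a big step -/
  nx : Φ × List Bool → Φ × List Bool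
  /-- the previous pair -/
  pv : Φ × List Bool → Φ × List Bool
  ln_pos : ∀ p, 0 < ln p
  ln_le : ∀ p, ln p ≤ m
  pv_nx : ∀ p, pv (nx p) = p
  nx_pv : ∀ p, nx (pv p) = p
  nx_len : ∀ p, (nx p).2.length = p.2.length
  poly_ln : NPC.Poly ln
  poly_nx : NPC.Poly nx
  poly_pv : NPC.Poly pv

section Num

variable (Φ : Type) [Finite Φ]

/-- the number of a phase -/
noncomputable def nm (φ : Φ) : ℕ := (Finite.equivFin Φ φ).val

open Classical in
/-- the phase with a given number -/
noncomputable def un (φ0 : Φ) (i : ℕ) : Φ :=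
  if h : i < Nat.card Φ then (Finite.equivFin Φ).symm ⟨i, h⟩ else φ0

theorem nm_lt (φ : Φ) : nm Φ φ < Nat.card Φ := (Finite.equivFin Φ φ).2

theorem un_nm (φ0 φ : Φ) : un Φ φ0 (nm Φ φ) = φ := by
  unfold un
  rw [dif_pos (nm_lt Φ φ)]
  simp [nm]

theorem poly_un [TEnc Φ] (φ0 : Φ) : NPC.Poly (un Φ φ0) := by
  refine (NPC.Poly.getD (l := fun _ : ℕ => (List.range (Nat.card Φ)).map (un Φ φ0))
    (n := fun i => i) (d := fun _ => φ0) (NPC.Poly.const _) NPC.Poly.id
    (NPC.Poly.const _)).congr fun i => ?_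
  by_cases h : i < Nat.card Φ
  · simp [List.getD_eq_getElem?_getD, h]
  · have h1 : ((List.range (Nat.card Φ)).map (un Φ φ0)).length ≤ i := by
      rw [List.length_map, List.length_range]; omega
    rw [List.getD_eq_getElem?_getD, List.getElem?_eq_none h1, Option.getD_none]
    unfold un
    rw [dif_neg h]

end Num

namespace Big

variable {Φ : Type} [TEnc Φ] [Finite Φ] (D : Big Φ) (φ0 : Φ)

/-- the points -/
abbrev Pt (Φ : Type) := (Φ × List Bool) × ℕ

/-- valid points -/
def Val (t : Pt Φ) : Prop := t.2 < D.ln t.1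

/-- small steps -/
def st (t : Pt Φ) : Pt Φ := bif decide (t.2 + 1 < D.ln t.1) then (t.1, t.2 + 1) else (D.nx t.1, 0)

/-- small steps backwards -/
def bk (t : Pt Φ) : Pt Φ :=
  bif decide (0 < t.2) then (t.1, t.2 - 1) else (D.pv t.1, D.ln (D.pv t.1) - 1)

variable {D}

theorem val_st {t : Pt Φ} (_ : D.Val t) : D.Val (D.st t) := by
  obtain ⟨p, j⟩ := t
  unfold st
  by_cases h : j + 1 < D.ln p
  · simp only [h, decide_true, cond_true]
    exact h
  · simp only [h, decide_false, cond_false]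
    exact D.ln_pos _

theorem val_bk {t : Pt Φ} (ht : D.Val t) : D.Val (D.bk t) := by
  obtain ⟨p, j⟩ := t
  unfold Val at ht
  simp only at ht
  unfold bk
  by_cases h : 0 < j
  · simp only [h, decide_true, cond_true]
    unfold Val
    simp only
    omega
  · simp only [h, decide_false, cond_false]
    unfold Val
    have := D.ln_pos (D.pv p)
    simp only
    omega

theorem bk_st {t : Pt Φ} (ht : D.Val t) : D.bk (D.st t) = t := by
  obtain ⟨p, j⟩ := t
  unfold Val at ht
  simp only at ht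
  unfold st
  by_cases h : j + 1 < D.ln p
  · simp only [h, decide_true, cond_true]
    simp [bk]
  · simp only [h, decide_false, cond_false]
    have h3 := D.pv_nx p
    have h4 : j = D.ln p - 1 := by omega
    simp [bk, h3, ← h4]

theorem st_bk {t : Pt Φ} (ht : D.Val t) : D.st (D.bk t) = t := by
  obtain ⟨p, j⟩ := t
  unfold Val at ht
  simp only at ht
  unfold bk
  by_cases h : 0 < j
  · simp only [h, decide_true, cond_true]
    have h3 : j - 1 + 1 = j := by omega
    simp [st, h3, ht]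
  · simp only [h, decide_false, cond_false]
    have h3 := D.nx_pv p
    have h4 := D.ln_pos (D.pv p)
    have h5 : D.ln (D.pv p) - 1 + 1 = D.ln (D.pv p) := by omega
    have h6 : j = 0 := by omega
    simp [st, h3, h5, h6]

theorem st_length (t : Pt Φ) : (D.st t).1.2.length = t.1.2.length := by
  unfold st
  by_cases h : t.2 + 1 < D.ln t.1
  · simp only [h, decide_true, cond_true]
  · simp only [h, decide_false, cond_false]
    exact D.nx_len _

variable (D)

/-- the length of the header -/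
noncomputable def K : ℕ := Nat.card Φ * D.m

/-- the code of a point -/
noncomputable def enc (t : Pt Φ) : List Bool := hd D.K (nm Φ t.1.1 * D.m + t.2) ++ t.1.2

/-- the point of a string -/
noncomputable def dc (w : List Bool) : Pt Φ :=
  ((un Φ φ0 (dk D.K w / D.m), w.drop D.K), dk D.K w % D.m)

variable {D}

theorem code_lt {t : Pt Φ} (ht : D.Val t) : nm Φ t.1.1 * D.m + t.2 < D.K := by
  have h1 := nm_lt Φ t.1.1
  have h2 := D.ln_le t.1
  unfold Val at ht
  unfold K
  nlinarith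

theorem dc_enc {t : Pt Φ} (ht : D.Val t) : D.dc φ0 (D.enc t) = t := by
  have h1 := code_lt ht
  have h2 : t.2 < D.m := lt_of_lt_of_le ht (D.ln_le _)
  unfold dc enc
  rw [dk_enc h1]
  obtain ⟨⟨φ, d⟩, j⟩ := t
  simp only at h1 h2 ⊢
  have h4 : (hd D.K (nm Φ φ * D.m + j) ++ d).drop D.K = d := by
    rw [List.drop_append_of_le_length (by rw [hd_length]), List.drop_of_length_le (by
      rw [hd_length]), List.nil_append]
  rw [h4]
  have h5 : (nm Φ φ * D.m + j) / D.m = nm Φ φ := by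
    rw [mul_comm, Nat.mul_add_div (by omega), Nat.div_eq_of_lt (by omega), add_zero]
  have h6 : (nm Φ φ * D.m + j) % D.m = j := by
    rw [mul_comm, Nat.mul_add_mod, Nat.mod_eq_of_lt (by omega)]
  rw [h5, h6, un_nm]

variable (D)

/-- the test for the domain -/
noncomputable def tst (w : List Bool) : Bool :=
  decide (D.enc (D.dc φ0 w) = w) && decide ((D.dc φ0 w).2 < D.ln (D.dc φ0 w).1)

variable {D}

theorem tst_iff (w : List Bool) : D.tst φ0 w = true ↔ ∃ t, D.Val t ∧ w = D.enc t := by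
  unfold tst
  simp only [Bool.and_eq_true, decide_eq_true_iff]
  constructor
  · rintro ⟨h1, h2⟩
    exact ⟨D.dc φ0 w, h2, h1.symm⟩
  · rintro ⟨t, ht, rfl⟩
    rw [dc_enc φ0 ht]
    exact ⟨rfl, ht⟩

section PolyLemmas

variable {α : Type} [TEnc α]

theorem poly_st : NPC.Poly D.st := by
  have h1 : NPC.Poly (fun t : Pt Φ => t.1) := NPC.Poly.fst NPC.Poly.id
  have h2 : NPC.Poly (fun t : Pt Φ => t.2) := NPC.Poly.snd NPC.Poly.id
  exact NPC.Poly.cond (NPC.Poly.decide_lt (NPC.Poly.add h2 (NPC.Poly.const 1)) (D.poly_ln.comp h1))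
    (NPC.Poly.pair h1 (NPC.Poly.add h2 (NPC.Poly.const 1)))
    (NPC.Poly.pair (D.poly_nx.comp h1) (NPC.Poly.const 0))

theorem poly_bk : NPC.Poly D.bk := by
  have h1 : NPC.Poly (fun t : Pt Φ => t.1) := NPC.Poly.fst NPC.Poly.id
  have h2 : NPC.Poly (fun t : Pt Φ => t.2) := NPC.Poly.snd NPC.Poly.id
  have h3 := D.poly_pv.comp h1
  exact NPC.Poly.cond (NPC.Poly.decide_lt (NPC.Poly.const 0) h2)
    (NPC.Poly.pair h1 (NPC.Poly.sub h2 (NPC.Poly.const 1)))
    (NPC.Poly.pair h3 (NPC.Poly.sub (D.poly_ln.comp h3) (NPC.Poly.const 1)))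

theorem poly_enc {t : α → Pt Φ} (ht : NPC.Poly t) : NPC.Poly (fun a => D.enc (t a)) := by
  have h1 : NPC.Poly (fun a => nm Φ (t a).1.1) :=
    NPC.Poly.comp (g := nm Φ) (f := fun a => (t a).1.1) (poly_finite _)
      (NPC.Poly.fst (NPC.Poly.fst ht))
  exact NPC.Poly.append (poly_hd _ (NPC.Poly.add (NPC.Poly.mul h1 (NPC.Poly.const _))
    (NPC.Poly.snd ht))) (NPC.Poly.snd (NPC.Poly.fst ht))

theorem poly_dc {w : α → List Bool} (hw : NPC.Poly w) : NPC.Poly (fun a => D.dc φ0 (w a)) :=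
  NPC.Poly.pair (NPC.Poly.pair ((poly_un Φ φ0).comp (NPC.Poly.div (poly_dk _ hw)
    (NPC.Poly.const _))) (poly_drop _ hw)) (NPC.Poly.mod (poly_dk _ hw) (NPC.Poly.const _))

theorem poly_tst : NPC.Poly (D.tst φ0) := by
  have h := poly_dc (D := D) φ0 (NPC.Poly.id (α := List Bool))
  exact NPC.Poly.and (NPC.Poly.decide_eq (poly_enc h) NPC.Poly.id)
    (NPC.Poly.decide_lt (NPC.Poly.snd h) (D.poly_ln.comp (NPC.Poly.fst h)))

end PolyLemmas

variable (D)

/-- the permutation -/
noncomputable def perm : PPerm where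
  X := {w | D.tst φ0 w = true}
  f := fun w => D.enc (D.st (D.dc φ0 w))
  g := fun w => D.enc (D.bk (D.dc φ0 w))
  inP := ⟨fun x => [D.tst φ0 x], polyTime_of_poly (poly_tst φ0), fun x => by simp⟩
  polyTime_f := poly_iff.1 (poly_enc (poly_st.comp (poly_dc φ0 NPC.Poly.id)))
  polyTime_g := poly_iff.1 (poly_enc (poly_bk.comp (poly_dc φ0 NPC.Poly.id)))
  mem_f := by
    intro x hx
    obtain ⟨t, ht, rfl⟩ := (tst_iff φ0 x).1 hx
    rw [dc_enc φ0 ht]
    exact (tst_iff φ0 _).2 ⟨_, val_st ht, rfl⟩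
  mem_g := by
    intro x hx
    obtain ⟨t, ht, rfl⟩ := (tst_iff φ0 x).1 hx
    rw [dc_enc φ0 ht]
    exact (tst_iff φ0 _).2 ⟨_, val_bk ht, rfl⟩
  g_f := by
    intro x hx
    obtain ⟨t, ht, rfl⟩ := (tst_iff φ0 x).1 hx
    rw [dc_enc φ0 ht, dc_enc φ0 (val_st ht), bk_st ht]
  f_g := by
    intro x hx
    obtain ⟨t, ht, rfl⟩ := (tst_iff φ0 x).1 hx
    rw [dc_enc φ0 ht, dc_enc φ0 (val_bk ht), st_bk ht]
  length_f := by
    intro x hx
    obtain ⟨t, ht, rfl⟩ := (tst_iff φ0 x).1 hx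
    rw [dc_enc φ0 ht]
    simp only [enc, List.length_append, hd_length, st_length]

variable {D}

theorem perm_mem {t : Pt Φ} (ht : D.Val t) : D.enc t ∈ (D.perm φ0).X :=
  (tst_iff φ0 _).2 ⟨t, ht, rfl⟩

theorem mem_iff {x : List Bool} : x ∈ (D.perm φ0).X ↔ ∃ t, D.Val t ∧ x = D.enc t := tst_iff φ0 x

theorem perm_f {t : Pt Φ} (ht : D.Val t) : (D.perm φ0).F (D.enc t) = D.enc (D.st t) := by
  rw [(D.perm φ0).F_mem (perm_mem φ0 ht)]
  change D.enc (D.st (D.dc φ0 (D.enc t))) = _
  rw [dc_enc φ0 ht]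

theorem val_zero (p : Φ × List Bool) : D.Val (p, 0) := D.ln_pos p

/-- iterating inside a big step -/
theorem iter_lt (p : Φ × List Bool) : ∀ j < D.ln p,
    (D.perm φ0).F^[j] (D.enc (p, 0)) = D.enc (p, j) := by
  intro j
  induction j with
  | zero => intro _; rfl
  | succ j ih =>
    intro hj
    have h1 : D.Val (p, j) := Nat.lt_of_succ_lt hj
    rw [Function.iterate_succ_apply', ih (by omega), perm_f φ0 h1]
    simp [st, hj]

/-- a whole big step -/
theorem iter_ln (p : Φ × List Bool) :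
    (D.perm φ0).F^[D.ln p] (D.enc (p, 0)) = D.enc (D.nx p, 0) := by
  have h0 := D.ln_pos p
  obtain ⟨j, hj⟩ : ∃ j, D.ln p = j + 1 := ⟨D.ln p - 1, by omega⟩
  have h1 : D.Val (p, j) := by unfold Val; simp only; omega
  rw [hj, Function.iterate_succ_apply', iter_lt φ0 p j (by omega), perm_f φ0 h1]
  have h2 : ¬ (j + 1 < D.ln p) := by omega
  simp [st, h2]

end Big

end Pool.Agent.V7H67.LI
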