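import Pool.Agent.V7H67.LI.Proc

/-!
# Excluding one of finitely many outcomes suffices to evaluate the tree
-/

namespace Pool.Agent.V7H67.LI

open Pool.Agent.NPC Pool.Agent.NPC.PIso Pool.Agent.V7H67.LL

/-- lists of candidates with answers -/
abbrev Cd := List (List Bool × Bool)

/-- the true entry is in the list, and every entry with the true first component has the true
answer -/
def Ok (vs : List Bool) (r : Bool) (C : Cd) : Prop := (vs, r) ∈ C ∧ ∀ p ∈ C, p.1 = vs → p.2 = r

section Red

variable (N : ℕ) (hx : List Bool → ℕ)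

/-- the positions that are kept when the outcome `e` is excluded -/
def keep (e i : ℕ) : Bool := bif decide (e = N - 1) then decide (i < N - 1) else !decide (i = e)

/-- one exclusion -/
def red (z : List Bool × List Nd × Cd) : List Bool × List Nd × Cd :=
  (z.1, z.2.1, bif decide (z.2.2.length < N) then z.2.2 else
    (z.2.2.zipIdx.filter fun p =>
      keep N (hx (bits ((z.1, z.2.1, z.2.2.map Prod.fst) : In))) p.2).map Prod.fst)

variable {N hx}

theorem poly_red (hhx : NPC.Poly hx) : NPC.Poly (red N hx) := by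
  have h1 : NPC.Poly (fun z : List Bool × List Nd × Cd => z.1) := NPC.Poly.fst NPC.Poly.id
  have h2 : NPC.Poly (fun z : List Bool × List Nd × Cd => z.2.1) :=
    NPC.Poly.fst (NPC.Poly.snd NPC.Poly.id)
  have h3 : NPC.Poly (fun z : List Bool × List Nd × Cd => z.2.2) :=
    NPC.Poly.snd (NPC.Poly.snd NPC.Poly.id)
  have h4 : NPC.Poly (fun z : List Bool × List Nd × Cd => z.2.2.map Prod.fst) :=
    NPC.Poly.map (F := fun _ p => p.1) h3 (NPC.Poly.fst (NPC.Poly.snd NPC.Poly.id))
  have h5 : NPC.Poly (fun z : List Bool × List Nd × Cd =>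
      hx (bits ((z.1, z.2.1, z.2.2.map Prod.fst) : In))) :=
    hhx.comp (poly_bits.comp (h1.pair (h2.pair h4)))
  refine h1.pair (h2.pair (NPC.Poly.cond (NPC.Poly.decide_lt (NPC.Poly.length h3)
    (NPC.Poly.const N)) h3 ?_))
  refine NPC.Poly.map (F := fun _ p => p.1) (NPC.Poly.filter
    (p := fun (z : List Bool × List Nd × Cd) p =>
      keep N (hx (bits ((z.1, z.2.1, z.2.2.map Prod.fst) : In))) p.2) (NPC.Poly.zipIdx h3) ?_)
    (NPC.Poly.fst (NPC.Poly.snd NPC.Poly.id))
  have a1 : NPC.Poly (fun q : (List Bool × List Nd × Cd) × ((List Bool × Bool) × ℕ) =>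
      hx (bits ((q.1.1, q.1.2.1, q.1.2.2.map Prod.fst) : In))) :=
    h5.comp (NPC.Poly.fst NPC.Poly.id)
  have a2 : NPC.Poly (fun q : (List Bool × List Nd × Cd) × ((List Bool × Bool) × ℕ) => q.2.2) :=
    NPC.Poly.snd (NPC.Poly.snd NPC.Poly.id)
  exact NPC.Poly.cond (NPC.Poly.decide_eq a1 (NPC.Poly.const _))
    (NPC.Poly.decide_lt a2 (NPC.Poly.const _)) (NPC.Poly.not (NPC.Poly.decide_eq a2 a1))

theorem mem_red_sub {z : List Bool × List Nd × Cd} {p : List Bool × Bool}
    (h : p ∈ (red N hx z).2.2) : p ∈ z.2.2 := by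
  unfold red at h
  simp only at h
  cases h1 : decide (z.2.2.length < N) with
  | true => rw [h1] at h; exact h
  | false =>
    rw [h1, cond_false, List.mem_map] at h
    obtain ⟨q, hq, rfl⟩ := h
    have h2 := (List.mem_filter.1 hq).1
    obtain ⟨a, i⟩ := q
    have h3 := List.mem_zipIdx' h2
    exact h3.2 ▸ List.getElem_mem _

theorem mem_red {z : List Bool × List Nd × Cd} {p : List Bool × Bool} {i : ℕ}
    (hi : i < z.2.2.length) (hp : z.2.2[i] = p)
    (hk : keep N (hx (bits ((z.1, z.2.1, z.2.2.map Prod.fst) : In))) i = true) :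
    p ∈ (red N hx z).2.2 := by
  unfold red
  simp only
  cases h1 : decide (z.2.2.length < N) with
  | true => rw [cond_true, ← hp]; exact List.getElem_mem _
  | false =>
    rw [cond_false, List.mem_map]
    refine ⟨(p, i), List.mem_filter.2 ⟨?_, hk⟩, rfl⟩
    rw [List.mem_zipIdx_iff_getElem?]
    simp [hi, hp]

theorem red_ok {h : List Bool} {S : List Nd} {C : Cd} {vs : List Bool} {r : Bool}
    (hlt : hx (bits ((h, S, C.map Prod.fst) : In)) < N)
    (hne : hx (bits ((h, S, C.map Prod.fst) : In)) ≠ ixf N (C.map Prod.fst) vs)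
    (hC : Ok vs r C) : Ok vs r (red N hx (h, S, C)).2.2 := by
  obtain ⟨h1, h2⟩ := hC
  refine ⟨?_, fun p hp => h2 p (mem_red_sub hp)⟩
  by_cases hs : C.length < N
  · unfold red
    simp only [hs, decide_true, cond_true]
    exact h1
  · have hget : ∀ i < N - 1, (C.map Prod.fst).getD i [] = vs → ∃ (hi : i < C.length),
        C[i] = (vs, r) := by
      intro i hi hv
      have hi' : i < C.length := by omega
      refine ⟨hi', ?_⟩
      have e1 : (C.map Prod.fst).getD i [] = C[i].1 := by
        simp [List.getD_eq_getElem?_getD, hi']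
      rw [e1] at hv
      exact Prod.ext hv (h2 _ (List.getElem_mem _) hv)
    by_cases he : hx (bits ((h, S, C.map Prod.fst) : In)) = N - 1
    · have h3 : ixf N (C.map Prod.fst) vs ≠ N - 1 := by rw [← he]; exact hne.symm
      obtain ⟨h4, h5⟩ := ixf_spec h3
      obtain ⟨hi, h6⟩ := hget _ h4 h5
      refine mem_red (z := (h, S, C)) hi h6 ?_
      unfold keep
      simp only
      rw [decide_eq_true he, cond_true, decide_eq_true_iff]
      exact h4
    · obtain ⟨m, hm, h3⟩ := List.getElem_of_mem h1
      by_cases hme : m = hx (bits ((h, S, C.map Prod.fst) : In))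
      · have hm1 : m < N - 1 := by omega
        have e1 : (C.map Prod.fst).getD m [] = vs := by
          simp [List.getD_eq_getElem?_getD, hm, h3]
        have h4 := ixf_le hm1 e1
        have h5 : ixf N (C.map Prod.fst) vs ≠ N - 1 := by omega
        obtain ⟨h6, h7⟩ := ixf_spec h5
        obtain ⟨hi, h8⟩ := hget _ h6 h7
        refine mem_red (z := (h, S, C)) hi h8 ?_
        unfold keep
        simp only
        rw [decide_eq_false he, cond_false, Bool.not_eq_true', decide_eq_false_iff_not]
        exact hne.symm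
      · refine mem_red (z := (h, S, C)) hm h3 ?_
        unfold keep
        simp only
        rw [decide_eq_false he, cond_false, Bool.not_eq_true', decide_eq_false_iff_not]
        exact hme

theorem red_length {z : List Bool × List Nd × Cd} (hN : 0 < N)
    (hlt : hx (bits ((z.1, z.2.1, z.2.2.map Prod.fst) : In)) < N) (hs : N ≤ z.2.2.length) :
    (red N hx z).2.2.length < z.2.2.length := by
  unfold red
  simp only
  rw [decide_eq_false (by omega), cond_false, List.length_map]
  set e := hx (bits ((z.1, z.2.1, z.2.2.map Prod.fst) : In)) with hed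
  have key : ∃ i < z.2.2.length, keep N e i = false := by
    by_cases he : e = N - 1
    · refine ⟨N - 1, by omega, ?_⟩
      unfold keep
      rw [decide_eq_true he, cond_true, decide_eq_false_iff_not]
      omega
    · refine ⟨e, by omega, ?_⟩
      unfold keep
      rw [decide_eq_false he, cond_false]
      simp
  obtain ⟨i, hi, hk⟩ := key
  have h1 : ((z.2.2[i], i) : (List Bool × Bool) × ℕ) ∈ z.2.2.zipIdx := by
    rw [List.mem_zipIdx_iff_getElem?]
    simp [hi]
  have h2 := List.length_filter_lt_length_iff_exists.2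
    (⟨_, h1, by simp [hk]⟩ : ∃ x ∈ z.2.2.zipIdx, ¬ (keep N e x.2) = true)
  rwa [List.length_zipIdx] at h2

theorem red_fst (z : List Bool × List Nd × Cd) : (red N hx z).1 = z.1 ∧ (red N hx z).2.1 = z.2.1 :=
  ⟨rfl, rfl⟩

/-- many exclusions -/
theorem red_iter {h : List Bool} {S : List Nd} {C : Cd} {vs : List Bool} {r : Bool} (hN : 0 < N)
    (hlt : ∀ y, hx y < N) (hne : ∀ C : Cd, hx (bits ((h, S, C.map Prod.fst) : In)) ≠
      ixf N (C.map Prod.fst) vs) (hC : Ok vs r C) (m : ℕ) :
    ∃ C' : Cd, (red N hx)^[m] (h, S, C) = (h, S, C') ∧ Ok vs r C' ∧ (∀ p ∈ C', p ∈ C) ∧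
      (C'.length < N ∨ C'.length + m ≤ C.length) := by
  induction m with
  | zero => exact ⟨C, rfl, hC, fun p hp => hp, Or.inr le_rfl⟩
  | succ m ih =>
    obtain ⟨C', h1, h2, h3, h4⟩ := ih
    refine ⟨(red N hx (h, S, C')).2.2, ?_, red_ok (hlt _) (hne C') h2,
      fun p hp => h3 p (mem_red_sub hp), ?_⟩
    · rw [Function.iterate_succ_apply', h1]
      rfl
    · by_cases hs : C'.length < N
      · left
        unfold red
        simp only [hs, decide_true, cond_true]
      · right
        have h5 := red_length (z := (h, S, C')) hN (hlt _) (by simp only; omega)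
        simp only at h5
        omega

end Red

section Expand

variable (δ : ℕ → ℕ)

/-- the bit strings of a given length -/
def av : ℕ → List (List Bool)
  | 0 => [[]]
  | m + 1 => (av m).flatMap fun l => [false :: l, true :: l]

theorem mem_av {m : ℕ} {l : List Bool} : l ∈ av m ↔ l.length = m := by
  induction m generalizing l with
  | zero => simp [av, List.length_eq_zero_iff]
  | succ m ih =>
    unfold av
    rw [List.mem_flatMap]
    constructor
    · rintro ⟨a, ha, h⟩
      rw [ih] at ha
      simp only [List.mem_cons, List.not_mem_nil, or_false] at h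
      rcases h with rfl | rfl <;> simp [ha]
    · intro h
      cases l with
      | nil => simp at h
      | cons b l =>
        refine ⟨l, ih.2 (by simpa using h), ?_⟩
        cases b <;> simp

/-- the children -/
def chs (n : ℕ) (S : List Nd) : List Nd := S.flatMap fun u => [c1 n u, c2 n u]

/-- the values of the parents -/
def cmb (n : ℕ) (S : List Nd) (v : List Bool) : List Bool :=
  S.zipIdx.map fun p => cb δ n p.1 (v.getD (2 * p.2) false) (v.getD (2 * p.2 + 1) false)

theorem chs_length (n : ℕ) (S : List Nd) : (chs n S).length = 2 * S.length := by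
  unfold chs
  induction S with
  | nil => rfl
  | cons u S ih =>
    rw [List.flatMap_cons, List.length_append, ih]
    simp only [List.length_cons, List.length_nil]
    ring

theorem chs_getD (n : ℕ) (S : List Nd) (f : Nd → Bool) (i : ℕ) (hi : i < S.length) :
    ((chs n S).map f).getD (2 * i) false = f (c1 n S[i]) ∧
      ((chs n S).map f).getD (2 * i + 1) false = f (c2 n S[i]) := by
  induction S generalizing i with
  | nil => simp at hi
  | cons u S ih =>
    cases i with
    | zero => simp [chs]
    | succ i =>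
      have h1 := ih i (by simpa using hi)
      have e1 : chs n (u :: S) = c1 n u :: c2 n u :: chs n S := by simp [chs]
      rw [e1]
      have e2 : 2 * (i + 1) = 2 * i + 1 + 1 := by ring
      rw [e2]
      simpa using h1

theorem cmb_true {n : ℕ} {S : List Nd} (hS : ∀ u ∈ S, Gd n u) :
    cmb δ n S ((chs n S).map (vl δ n)) = S.map (vl δ n) := by
  unfold cmb
  apply List.ext_getElem
  · simp
  · intro i h1 h2
    have hi : i < S.length := by simpa using h2
    obtain ⟨e1, e2⟩ := chs_getD n S (vl δ n) i hi
    simp only [List.getElem_map, List.getElem_zipIdx, Nat.zero_add, e1, e2]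
    exact (vl_eq δ (hS _ (List.getElem_mem _))).symm

/-- all short strings -/
def AV (M : ℕ) : List (List Bool) := (List.range (2 * M + 1)).flatMap av

theorem mem_AV {M : ℕ} {l : List Bool} : l ∈ AV M ↔ l.length ≤ 2 * M := by
  unfold AV
  rw [List.mem_flatMap]
  constructor
  · rintro ⟨a, ha, h⟩
    rw [mem_av] at h
    rw [List.mem_range] at ha
    omega
  · intro h
    exact ⟨l.length, List.mem_range.2 (by omega), mem_av.2 rfl⟩

/-- the candidates for the values of the children -/
def exC (M n : ℕ) (S : List Nd) (C : Cd) : Cd :=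
  (AV M).flatMap fun v => bif decide (v.length = 2 * S.length) then
    (C.filter fun p => decide (p.1 = cmb δ n S v)).map fun p => (v, p.2) else []

variable {δ}

theorem mem_exC {M n : ℕ} {S : List Nd} {C : Cd} {p : List Bool × Bool} :
    p ∈ exC δ M n S C ↔ p.1.length ≤ 2 * M ∧ p.1.length = 2 * S.length ∧
      (cmb δ n S p.1, p.2) ∈ C := by
  unfold exC
  rw [List.mem_flatMap]
  constructor
  · rintro ⟨v, hv, h⟩
    by_cases h1 : v.length = 2 * S.length
    · rw [decide_eq_true h1, cond_true, List.mem_map] at h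
      obtain ⟨q, hq, rfl⟩ := h
      rw [List.mem_filter, decide_eq_true_iff] at hq
      refine ⟨mem_AV.1 hv, h1, ?_⟩
      rw [← hq.2]
      exact hq.1
    · rw [decide_eq_false h1] at h
      simp at h
  · rintro ⟨h1, h2, h3⟩
    refine ⟨p.1, mem_AV.2 h1, ?_⟩
    rw [decide_eq_true h2, cond_true, List.mem_map]
    exact ⟨_, List.mem_filter.2 ⟨h3, by simp⟩, rfl⟩

theorem exC_ok {M n : ℕ} {S : List Nd} {C : Cd} {r : Bool} (hS : ∀ u ∈ S, Gd n u)
    (hM : S.length ≤ M) (hC : Ok (S.map (vl δ n)) r C) :
    Ok ((chs n S).map (vl δ n)) r (exC δ M n S C) := by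
  constructor
  · rw [mem_exC]
    simp only [List.length_map, chs_length, cmb_true δ hS]
    exact ⟨by omega, trivial, hC.1⟩
  · intro p hp h
    rw [mem_exC, h, cmb_true δ hS] at hp
    exact hC.2 (S.map (vl δ n), p.2) hp.2.2 rfl

theorem exC_length (M n : ℕ) (S : List Nd) (C : Cd) :
    (exC δ M n S C).length ≤ (AV M).length * C.length := by
  unfold exC
  induction AV M with
  | nil => simp
  | cons v l ih =>
    have e1 : (v :: l).length * C.length = C.length + l.length * C.length := by
      rw [List.length_cons]; ring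
    rw [List.flatMap_cons, List.length_append, e1]
    refine Nat.add_le_add ?_ ih
    cases decide (v.length = 2 * S.length)
    · simp
    · rw [cond_true, List.length_map]
      exact List.length_filter_le _ _

theorem poly_exC (hδ : NPC.Poly δ) (M : ℕ) {α : Type} [TEnc α] {n : α → ℕ} {S : α → List Nd}
    {C : α → Cd} (hn : UPoly n) (hS : NPC.Poly S) (hC : NPC.Poly C) :
    NPC.Poly (fun a => exC δ M (n a) (S a) (C a)) := by
  refine NPC.Poly.flatMap (F := fun a v => bif decide (v.length = 2 * (S a).length) then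
    ((C a).filter fun p => decide (p.1 = cmb δ (n a) (S a) v)).map fun p => (v, p.2) else [])
    (NPC.Poly.const (AV M)) ?_
  have a1 : NPC.Poly (fun q : α × List Bool => q.1) := NPC.Poly.fst NPC.Poly.id
  have a2 : NPC.Poly (fun q : α × List Bool => q.2) := NPC.Poly.snd NPC.Poly.id
  have hcmb : NPC.Poly (fun q : α × List Bool => cmb δ (n q.1) (S q.1) q.2) := by
    refine NPC.Poly.map (F := fun (q : α × List Bool) (p : Nd × ℕ) =>
      cb δ (n q.1) p.1 (q.2.getD (2 * p.2) false) (q.2.getD (2 * p.2 + 1) false))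
      (NPC.Poly.zipIdx (hS.comp a1)) ?_
    have b1 : NPC.Poly (fun q : (α × List Bool) × (Nd × ℕ) => q.1) := NPC.Poly.fst NPC.Poly.id
    have b2 : NPC.Poly (fun q : (α × List Bool) × (Nd × ℕ) => q.2) := NPC.Poly.snd NPC.Poly.id
    have b3 := NPC.Poly.mul (NPC.Poly.const (α := (α × List Bool) × (Nd × ℕ)) 2)
      (NPC.Poly.snd b2)
    exact poly_cb hδ (hn.comp (NPC.Poly.fst b1)) (NPC.Poly.fst b2)
      (NPC.Poly.getD (NPC.Poly.snd b1) b3 (NPC.Poly.const false))
      (NPC.Poly.getD (NPC.Poly.snd b1) (NPC.Poly.add b3 (NPC.Poly.const 1))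
        (NPC.Poly.const false))
  refine NPC.Poly.cond (NPC.Poly.decide_eq (NPC.Poly.length a2) (NPC.Poly.mul (NPC.Poly.const 2)
    (NPC.Poly.length (hS.comp a1)))) (NPC.Poly.map (F := fun (q : α × List Bool) p => (q.2, p.2))
      (NPC.Poly.filter (p := fun (q : α × List Bool) p =>
        decide (p.1 = cmb δ (n q.1) (S q.1) q.2)) (hC.comp a1) ?_) ?_) (NPC.Poly.const [])
  · exact NPC.Poly.decide_eq (NPC.Poly.fst (NPC.Poly.snd NPC.Poly.id))
      (hcmb.comp (NPC.Poly.fst NPC.Poly.id))
  · exact (a2.comp (NPC.Poly.fst NPC.Poly.id)).pair (NPC.Poly.snd (NPC.Poly.snd NPC.Poly.id))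

theorem poly_chs {α : Type} [TEnc α] {n : α → ℕ} {S : α → List Nd} (hn : UPoly n)
    (hS : NPC.Poly S) : NPC.Poly (fun a => chs (n a) (S a)) := by
  have b1 : NPC.Poly (fun q : α × Nd => q.1) := NPC.Poly.fst NPC.Poly.id
  have b2 : NPC.Poly (fun q : α × Nd => q.2) := NPC.Poly.snd NPC.Poly.id
  exact NPC.Poly.flatMap (F := fun a u => [c1 (n a) u, c2 (n a) u]) hS
    (NPC.Poly.cons (poly_c1 (hn.comp b1) b2) (NPC.Poly.cons (poly_c2 (hn.comp b1) b2)
      (NPC.Poly.const [])))

end Expand

section Select

/-- the first position where two lists differ -/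
def fd (W : ℕ) (v v' : List Bool) : ℕ := lst W fun i => !decide (v.getD i false = v'.getD i false)

/-- the positions where two candidates differ first -/
def ids (W len : ℕ) (C : Cd) : List ℕ :=
  (C.flatMap fun p => C.map fun p' => fd W p.1 p'.1).filter fun i => decide (i < len)

/-- the selected nodes -/
def selS (I : List ℕ) (S : List Nd) : List Nd := I.map fun i => S.getD i (0, 0, 0, 0, 0)

/-- the restricted candidates -/
def selC (I : List ℕ) (C : Cd) : Cd := C.map fun p => (I.map fun i => p.1.getD i false, p.2)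

theorem mem_ids {W len : ℕ} {C : Cd} {i : ℕ} :
    i ∈ ids W len C ↔ (∃ p ∈ C, ∃ p' ∈ C, fd W p.1 p'.1 = i) ∧ i < len := by
  unfold ids
  simp only [List.mem_filter, List.mem_flatMap, List.mem_map, decide_eq_true_iff]

theorem ids_length (W len : ℕ) (C : Cd) : (ids W len C).length ≤ C.length * C.length := by
  unfold ids
  refine (List.length_filter_le _ _).trans ?_
  have key : ∀ l : Cd, (l.flatMap fun p => C.map fun p' => fd W p.1 p'.1).length =
      l.length * C.length := by
    intro l
    induction l with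
    | nil => simp
    | cons p l ih =>
      rw [List.flatMap_cons, List.length_append, ih, List.length_map, List.length_cons]
      ring
  rw [key]

theorem getD_mem {S : List Nd} {i : ℕ} (hi : i < S.length) (d : Nd) : S.getD i d ∈ S := by
  simp [List.getD_eq_getElem?_getD, hi]

theorem sel_ok {W : ℕ} {S : List Nd} {C : Cd} {r : Bool} {f : Nd → Bool}
    (hl : ∀ p ∈ C, p.1.length = S.length) (hW : S.length ≤ W) (hC : Ok (S.map f) r C) :
    Ok ((selS (ids W S.length C) S).map f) r (selC (ids W S.length C) C) := by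
  set I := ids W S.length C with hI
  have e1 : (selS I S).map f = I.map fun i => (S.map f).getD i false := by
    unfold selS
    rw [List.map_map]
    apply List.map_congr_left
    intro i hi
    have h1 := (mem_ids.1 hi).2
    simp [List.getD_eq_getElem?_getD, h1]
  rw [e1]
  constructor
  · unfold selC
    rw [List.mem_map]
    exact ⟨_, hC.1, rfl⟩
  · intro p' hp' hv
    unfold selC at hp'
    rw [List.mem_map] at hp'
    obtain ⟨p, hp, rfl⟩ := hp'
    simp only at hv ⊢
    refine hC.2 p hp ?_
    by_contra hne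
    have hlen : p.1.length = (S.map f).length := by rw [hl p hp, List.length_map]
    have hex : ∃ i < W, (!decide (p.1.getD i false = (S.map f).getD i false)) = true := by
      by_contra hcon
      push Not at hcon
      apply hne
      apply List.ext_getElem hlen
      intro i h1 h2
      have h3 := hcon i (by rw [hl p hp] at h1; omega)
      simp only [List.getD_eq_getElem?_getD, List.getElem?_eq_getElem h1,
        List.getElem?_eq_getElem h2, Option.getD_some, ne_eq, Bool.not_eq_true, Bool.not_eq_false',
        decide_eq_true_iff] at h3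
      exact h3
    obtain ⟨h1, h2, h3⟩ := lst_spec hex
    have h4 : fd W p.1 (S.map f) < S.length := by
      by_contra hge
      push Not at hge
      have e2 : p.1.getD (fd W p.1 (S.map f)) false = false := by
        rw [List.getD_eq_getElem?_getD, List.getElem?_eq_none (by rw [hl p hp]; exact hge),
          Option.getD_none]
      have e3 : (S.map f).getD (fd W p.1 (S.map f)) false = false := by
        rw [List.getD_eq_getElem?_getD, List.getElem?_eq_none (by
          rw [List.length_map]; exact hge), Option.getD_none]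
      change (!decide (p.1.getD (fd W p.1 (S.map f)) false =
        (S.map f).getD (fd W p.1 (S.map f)) false)) = true at h1
      rw [e2, e3] at h1
      simp at h1
    have h5 : fd W p.1 (S.map f) ∈ I := mem_ids.2 ⟨⟨p, hp, _, hC.1, rfl⟩, h4⟩
    have h6 := List.map_inj_left.1 hv _ h5
    change (!decide (p.1.getD (fd W p.1 (S.map f)) false =
      (S.map f).getD (fd W p.1 (S.map f)) false)) = true at h1
    rw [h6] at h1
    simp at h1

section Pol

variable {α : Type} [TEnc α] {W : ℕ} {I : α → List ℕ} {S : α → List Nd} {C : α → Cd}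
  {len : α → ℕ}

theorem poly_fd {v v' : α → List Bool} (hv : NPC.Poly v) (hv' : NPC.Poly v') :
    NPC.Poly (fun a => fd W (v a) (v' a)) := by
  refine poly_lst (N := fun _ : α => W) (p := fun a i =>
    !decide ((v a).getD i false = (v' a).getD i false)) (UPoly.const W) ?_
  have b1 : NPC.Poly (fun q : α × ℕ => v q.1) := hv.comp (NPC.Poly.fst NPC.Poly.id)
  have b2 : NPC.Poly (fun q : α × ℕ => v' q.1) := hv'.comp (NPC.Poly.fst NPC.Poly.id)
  have b3 : NPC.Poly (fun q : α × ℕ => q.2) := NPC.Poly.snd NPC.Poly.id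
  exact NPC.Poly.not (NPC.Poly.decide_eq (NPC.Poly.getD b1 b3 (NPC.Poly.const false))
    (NPC.Poly.getD b2 b3 (NPC.Poly.const false)))

theorem poly_pairs0 :
  NPC.Poly (fun q : (α × (List Bool × Bool)) × (List Bool × Bool) =>
      fd W q.1.2.1 q.2.1) :=
    poly_fd (v := fun q : (α × (List Bool × Bool)) × (List Bool × Bool) => q.1.2.1)
      (v' := fun q : (α × (List Bool × Bool)) × (List Bool × Bool) => q.2.1)
      (NPC.Poly.fst (NPC.Poly.snd (NPC.Poly.fst NPC.Poly.id)))
      (NPC.Poly.fst (NPC.Poly.snd NPC.Poly.id))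

theorem poly_pairs1 (hC : NPC.Poly C) : NPC.Poly (fun q : α × (List Bool × Bool) =>
    (C q.1).map fun p' => fd W q.2.1 p'.1) :=
    NPC.Poly.map (F := fun (q : α × (List Bool × Bool)) (p' : List Bool × Bool) =>
      fd W q.2.1 p'.1) (hC.comp (NPC.Poly.fst NPC.Poly.id)) poly_pairs0

theorem poly_pairs (hC : NPC.Poly C) :
    NPC.Poly (fun a => (C a).flatMap fun p => (C a).map fun p' => fd W p.1 p'.1) := by
  have h1 := poly_pairs1 (W := W) hC
  have h := NPC.Poly.flatMap (α := α) (β := List Bool × Bool) (γ := ℕ) (l := C)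
    (F := fun a (p : List Bool × Bool) => (C a).map fun p' => fd W p.1 p'.1) hC
  exact h h1

theorem poly_ids (hlen : NPC.Poly len) (hC : NPC.Poly C) :
    NPC.Poly (fun a => ids W (len a) (C a)) := by
  have h3 : NPC.Poly (fun q : α × ℕ => decide (q.2 < len q.1)) :=
    NPC.Poly.decide_lt (NPC.Poly.snd NPC.Poly.id) (hlen.comp (NPC.Poly.fst NPC.Poly.id))
  unfold ids
  exact NPC.Poly.filter (p := fun a i => decide (i < len a)) (poly_pairs hC) h3

theorem poly_selS (hI : NPC.Poly I) (hS : NPC.Poly S) : NPC.Poly (fun a => selS (I a) (S a)) :=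
  NPC.Poly.map (F := fun a i => (S a).getD i (0, 0, 0, 0, 0)) hI
    (NPC.Poly.getD (hS.comp (NPC.Poly.fst NPC.Poly.id)) (NPC.Poly.snd NPC.Poly.id)
      (NPC.Poly.const _))

theorem poly_selC (hI : NPC.Poly I) (hC : NPC.Poly C) : NPC.Poly (fun a => selC (I a) (C a)) := by
  have h0 : NPC.Poly (fun q : (α × (List Bool × Bool)) × ℕ => q.1.2.1.getD q.2 false) :=
    NPC.Poly.getD (NPC.Poly.fst (NPC.Poly.snd (NPC.Poly.fst NPC.Poly.id)))
      (NPC.Poly.snd NPC.Poly.id) (NPC.Poly.const false)
  have h1 : NPC.Poly (fun q : α × (List Bool × Bool) => (I q.1).map fun i => q.2.1.getD i false) :=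
    NPC.Poly.map (F := fun (q : α × (List Bool × Bool)) i => q.2.1.getD i false)
      (hI.comp (NPC.Poly.fst NPC.Poly.id)) h0
  exact NPC.Poly.map (F := fun a (p : List Bool × Bool) =>
    ((I a).map fun i => p.1.getD i false, p.2)) hC
    (h1.pair (NPC.Poly.snd (NPC.Poly.snd NPC.Poly.id)))

end Pol

end Select

end Pool.Agent.V7H67.LI
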