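import Pool.Agent.V7H67.LI.Lcl

/-!
# The condition can be checked on short words
-/

namespace Pool.Agent.V7H67.LI

open Pool.Agent.NPC Pool.Agent.NPC.PIso Pool.Agent.V7H67.LL

/-- The steps that lie on a closed walk, closed by a word of length at most `n`. -/
def trimN {Γ Λ : Type} (n : ℕ) (A : Γ → Λ → Λ → Prop) (σ : Γ) (a b : Λ) : Prop :=
  A σ a b ∧ ∃ w : List Γ, w.length ≤ n ∧ Tw A w b a

/-- The condition `LocB` for words of length at most `n`. -/
def LocN {Γ Λ : Type} (n : ℕ) (B : Γ → Λ → Λ → Prop) : Prop :=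
  ∃ lam : (Λ → Λ → Prop) → Λ, ∀ u z u' : List Γ, u.length ≤ n → z.length ≤ n → u'.length ≤ n →
    u ≠ [] → u' ≠ [] → Tw B (u ++ u) = Tw B u → Tw B (u' ++ u') = Tw B u' →
    (∃ a b, Tw B (u ++ z ++ u') a b) → Tw B (u ++ z ++ u') (lam (Tw B u)) (lam (Tw B u'))

/-- The condition `Loc`, in which only words of length at most `n` are used. -/
def LocUpTo {s k t : ℕ} (n : ℕ) (W : Set (Fin (t + 2) → Fin s × Fin k)) : Prop :=
  LocN n (trimN n (step W))

section

variable {Γ Λ : Type} (B : Γ → Λ → Λ → Prop)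

theorem tw_app (u v : List Γ) (a b : Λ) : Tw B (u ++ v) a b ↔ ∃ c, Tw B u a c ∧ Tw B v c b := by
  induction u generalizing a with
  | nil => simp [Tw]
  | cons σ u ih =>
    simp only [List.cons_append, Tw, ih]
    constructor
    · rintro ⟨c, h1, d, h2, h3⟩
      exact ⟨d, ⟨c, h1, h2⟩, h3⟩
    · rintro ⟨d, ⟨c, h1, h2⟩, h3⟩
      exact ⟨c, h1, d, h2, h3⟩

variable {B} in
theorem tw_cgr {u u' v v' : List Γ} (h : Tw B u = Tw B u') (h' : Tw B v = Tw B v') :
    Tw B (u ++ v) = Tw B (u' ++ v') := by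
  funext a b
  rw [eq_iff_iff, tw_app, tw_app, h, h']

/-- every relation of a word is the relation of a short word -/
theorem exists_short [Finite Λ] (n : ℕ) (hn : Nat.card (Λ → Λ → Prop) ≤ n) (w : List Γ) :
    ∃ w', Tw B w' = Tw B w ∧ w'.length ≤ n ∧ (w ≠ [] → w' ≠ []) := by
  induction h : w.length using Nat.strong_induction_on generalizing w with
  | _ m ih =>
    rcases Nat.lt_or_ge n m with hlt | hge
    · have hnot : ¬ Function.Injective (fun i : Fin m => Tw B (w.take (i.val + 1))) := by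
        intro hinj
        have h1 := Nat.card_le_card_of_injective _ hinj
        rw [Nat.card_eq_fintype_card, Fintype.card_fin] at h1
        omega
      obtain ⟨i, j, hij, hne⟩ : ∃ i j : Fin m, Tw B (w.take (i.val + 1)) =
          Tw B (w.take (j.val + 1)) ∧ i ≠ j := by
        simpa [Function.Injective] using hnot
      wlog hlt' : i < j generalizing i j
      · exact this j i hij.symm hne.symm (lt_of_le_of_ne (not_lt.1 hlt') hne.symm)
      have hi := i.2
      have hj := j.2
      have hlt'' : i.val < j.val := hlt'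
      have h2 : Tw B (w.take (i.val + 1) ++ w.drop (j.val + 1)) = Tw B w := by
        rw [tw_cgr (v' := w.drop (j.val + 1)) hij rfl, List.take_append_drop]
      have h3 : (w.take (i.val + 1) ++ w.drop (j.val + 1)).length < m := by
        rw [List.length_append, List.length_take, List.length_drop]
        omega
      obtain ⟨w', h4, h5, h6⟩ := ih _ h3 _ rfl
      refine ⟨w', h4.trans h2, h5, fun _ => h6 ?_⟩
      intro h7
      have h8 := congrArg List.length h7
      rw [List.length_append, List.length_take, List.length_nil] at h8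
      omega
    · exact ⟨w, rfl, by omega, fun h => h⟩

theorem trimN_eq [Finite Λ] {n : ℕ} (hn : Nat.card (Λ → Λ → Prop) ≤ n) : trimN n B = trim B := by
  funext σ a b
  apply propext
  refine and_congr_right fun _ => ?_
  constructor
  · rintro ⟨w, _, h⟩
    exact ⟨w, h⟩
  · rintro ⟨w, h⟩
    obtain ⟨w', h1, h2, _⟩ := exists_short B n hn w
    exact ⟨w', h2, by rw [h1]; exact h⟩

theorem locB_iff_locN [Finite Λ] {n : ℕ} (hn : Nat.card (Λ → Λ → Prop) ≤ n) :
    LocB B ↔ LocN n B := by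
  constructor
  · rintro ⟨lam, h⟩
    exact ⟨lam, fun u z u' _ _ _ => h u z u'⟩
  · rintro ⟨lam, h⟩
    refine ⟨lam, fun u z u' hu hu' hi hi' hne => ?_⟩
    obtain ⟨u1, a1, a2, a3⟩ := exists_short B n hn u
    obtain ⟨z1, b1, b2, _⟩ := exists_short B n hn z
    obtain ⟨u2, c1, c2, c3⟩ := exists_short B n hn u'
    have e : Tw B (u1 ++ z1 ++ u2) = Tw B (u ++ z ++ u') := tw_cgr (tw_cgr a1 b1) c1
    have h1 := h u1 z1 u2 a2 b2 c2 (a3 hu) (c3 hu') (by rw [tw_cgr a1 a1, a1, hi])
      (by rw [tw_cgr c1 c1, c1, hi'])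
    rw [e, a1, c1] at h1
    exact h1 hne

end

theorem loc_iff_upTo {s k t : ℕ} (W : Set (Fin (t + 2) → Fin s × Fin k)) :
    Loc W ↔ LocUpTo (2 ^ (((s * k) ^ (t + 1)) ^ 2)) W := by
  have hn : Nat.card ((Fin (t + 1) → Fin s × Fin k) → (Fin (t + 1) → Fin s × Fin k) → Prop) ≤
      2 ^ (((s * k) ^ (t + 1)) ^ 2) := by
    rw [Nat.card_fun, Nat.card_fun, Nat.card_fun, Nat.card_eq_fintype_card (α := Prop),
      Fintype.card_prop, Nat.card_prod, Nat.card_fin, Nat.card_fin, Nat.card_fin, ← pow_mul,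
      ← pow_two]
  unfold Loc LocUpTo
  rw [trimN_eq _ hn, locB_iff_locN _ hn]

end Pool.Agent.V7H67.LI
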