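import Pool.Agent.V7H67.LI.Sep

/-!
# The finite design of a problem that is not local
-/

namespace Pool.Agent.V7H67.LI

open Pool.Agent.NPC Pool.Agent.NPC.PIso Pool.Agent.V7H67.LL

variable {s k : ℕ}

/-- Vertices `V` with loop words, and alternatives `K`, each of which connects the vertices by a
permutation with turn words. Each alternative can be satisfied, but there is no labelling of the
vertices that is compatible with all alternatives. -/
structure Des (B : Fin s → Rel k) (V K : Type) where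
  /-- the loop words -/
  u : V → List (Fin s)
  /-- the permutations -/
  ρ : K → Equiv.Perm V
  /-- the turn words -/
  t : K → V → List (Fin s)
  /-- the labels -/
  γ : K → V → Fin k
  u_ne : ∀ v, u v ≠ []
  u_idem : ∀ v, Tw B (u v ++ u v) = Tw B (u v)
  γ_loop : ∀ κ v, Tw B (u v) (γ κ v) (γ κ v)
  γ_turn : ∀ κ v, Tw B (t κ v) (γ κ v) (γ κ (ρ κ v))
  unsat : ∀ μ : V → Fin k, ∃ κ v, ¬ Tw B (u v ++ t κ v ++ u (ρ κ v)) (μ v) (μ (ρ κ v))

variable (A : Fin s → Rel k)

theorem exists_ends {u z u' : List (Fin s)} (hu : Tw (trim A) (u ++ u) = Tw (trim A) u)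
    (hu' : Tw (trim A) (u' ++ u') = Tw (trim A) u') (h : ∃ a b, Tw (trim A) (u ++ z ++ u') a b) :
    ∃ α β η, Tw (trim A) u α α ∧ Tw (trim A) u' β β ∧ Tw (trim A) (u ++ z ++ u') α β ∧
      Tw (trim A) (u' ++ η ++ u) β α := by
  obtain ⟨a, b, hab⟩ := h
  obtain ⟨η, hη⟩ := trim_return A hab
  obtain ⟨d, h1, h2⟩ := (tw_append _ _ _ _ _).1 hab
  obtain ⟨c, h3, h4⟩ := (tw_append _ _ _ _ _).1 h1
  obtain ⟨α, a1, a2, a3⟩ := exists_loop (idem_iff hu) h3
  obtain ⟨β, b1, b2, b3⟩ := exists_loop (idem_iff hu') h2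
  refine ⟨α, β, η, a2, b2, ?_, ?_⟩
  · exact (tw_append _ _ _ _ _).2 ⟨d, (tw_append _ _ _ _ _).2 ⟨c, a3, h4⟩, b1⟩
  · exact (tw_append _ _ _ _ _).2 ⟨a, (tw_append _ _ _ _ _).2 ⟨b, b3, hη⟩, a1⟩

/-- the nonempty relations of words that are equal to their square -/
def Idm (e : Rel k) : Prop := ∃ u, u ≠ [] ∧ Tw (trim A) u = e ∧
  Tw (trim A) (u ++ u) = Tw (trim A) u ∧ ∃ a b, e a b

/-- the vertices -/
abbrev Vt := {e : Rel k // Idm A e} × Fin (k + 1)

/-- the word of a vertex -/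
noncomputable def uv (v : Vt A) : List (Fin s) := v.1.2.choose

theorem uv_spec (v : Vt A) : uv A v ≠ [] ∧ Tw (trim A) (uv A v) = v.1.1 ∧
    Tw (trim A) (uv A v ++ uv A v) = Tw (trim A) (uv A v) ∧ ∃ a b, v.1.1 a b :=
  v.1.2.choose_spec

/-- the alternatives -/
abbrev At := {q : Vt A × Rel k × Vt A // q.1 ≠ q.2.2 ∧ ∃ z, Tw (trim A) z = q.2.1 ∧
  ∃ a b, Tw (trim A) (uv A q.1 ++ z ++ uv A q.2.2) a b}

/-- the word of an alternative -/
noncomputable def zq (q : At A) : List (Fin s) := q.2.2.choose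

theorem zq_spec (q : At A) : Tw (trim A) (zq A q) = q.1.2.1 ∧
    ∃ a b, Tw (trim A) (uv A q.1.1 ++ zq A q ++ uv A q.1.2.2) a b := q.2.2.choose_spec

theorem ends_spec (q : At A) : ∃ p : Fin k × Fin k × List (Fin s),
    Tw (trim A) (uv A q.1.1) p.1 p.1 ∧ Tw (trim A) (uv A q.1.2.2) p.2.1 p.2.1 ∧
    Tw (trim A) (uv A q.1.1 ++ zq A q ++ uv A q.1.2.2) p.1 p.2.1 ∧
    Tw (trim A) (uv A q.1.2.2 ++ p.2.2 ++ uv A q.1.1) p.2.1 p.1 := by
  obtain ⟨α, β, η, h⟩ := exists_ends A (uv_spec A q.1.1).2.2.1 (uv_spec A q.1.2.2).2.2.1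
    (zq_spec A q).2
  exact ⟨(α, β, η), h⟩

theorem loop_spec (v : Vt A) : ∃ c, Tw (trim A) (uv A v) c c := by
  obtain ⟨_, h1, h2, a, b, hab⟩ := uv_spec A v
  rw [← h1] at hab
  obtain ⟨c, _, hc, _⟩ := exists_loop (idem_iff h2) hab
  exact ⟨c, hc⟩

open Classical in
/-- the design -/
theorem exists_des (hk : 0 < k) (hA : ¬ LocB (trim A)) : Nonempty (Des (trim A) (Vt A) (At A)) := by
  choose p hp using ends_spec A
  choose lp hlp using loop_spec A
  refine ⟨{
    u := uv A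
    ρ := fun q => Equiv.swap q.1.1 q.1.2.2
    t := fun q v => if v = q.1.1 then uv A q.1.1 ++ zq A q ++ uv A q.1.2.2
      else if v = q.1.2.2 then uv A q.1.2.2 ++ (p q).2.2 ++ uv A q.1.1 else []
    γ := fun q v => if v = q.1.1 then (p q).1 else if v = q.1.2.2 then (p q).2.1 else lp v
    u_ne := fun v => (uv_spec A v).1
    u_idem := fun v => (uv_spec A v).2.2.1
    γ_loop := ?_
    γ_turn := ?_
    unsat := ?_ }⟩
  · intro q v
    obtain ⟨h1, h2, _, _⟩ := hp q
    by_cases a1 : v = q.1.1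
    · simp only [a1, if_true]; exact h1
    · by_cases a2 : v = q.1.2.2
      · simp only [a1, if_false]
        subst a2
        simp only [if_true]
        exact h2
      · simp only [a1, a2, if_false]
        exact hlp v
  · intro q v
    obtain ⟨_, _, h3, h4⟩ := hp q
    have hne := q.2.1
    by_cases a1 : v = q.1.1
    · subst a1
      simp only [Equiv.swap_apply_left, if_true, hne.symm, if_false]
      exact h3
    · by_cases a2 : v = q.1.2.2
      · subst a2
        simp only [Equiv.swap_apply_right, a1, if_false, if_true]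
        exact h4
      · rw [Equiv.swap_apply_of_ne_of_ne a1 a2]
        simp only [a1, a2, if_false]
        rfl
  · intro μ
    have hpig : ∀ e : {e : Rel k // Idm A e}, ∃ ij : Fin (k + 1) × Fin (k + 1),
        ij.1 ≠ ij.2 ∧ μ (e, ij.1) = μ (e, ij.2) := by
      intro e
      obtain ⟨i, j, h1, h2⟩ := Fintype.exists_ne_map_eq_of_card_lt
        (fun i : Fin (k + 1) => μ (e, i)) (by simp)
      exact ⟨(i, j), h1, h2⟩
    choose ij hij1 hij2 using hpig
    let lam : Rel k → Fin k := fun e => if h : Idm A e then μ (⟨e, h⟩, (ij ⟨e, h⟩).1)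
      else ⟨0, hk⟩
    have hno : ¬ ∀ u z u' : List (Fin s), u ≠ [] → u' ≠ [] →
        Tw (trim A) (u ++ u) = Tw (trim A) u → Tw (trim A) (u' ++ u') = Tw (trim A) u' →
        (∃ a b, Tw (trim A) (u ++ z ++ u') a b) →
        Tw (trim A) (u ++ z ++ u') (lam (Tw (trim A) u)) (lam (Tw (trim A) u')) :=
      fun h => hA ⟨lam, h⟩
    push Not at hno
    obtain ⟨u, z, u', hu, hu', hi, hi', ⟨a, b, hab⟩, hnot⟩ := hno
    obtain ⟨d, h1, h2⟩ := (tw_append _ _ _ _ _).1 hab
    obtain ⟨c, h3, h4⟩ := (tw_append _ _ _ _ _).1 h1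
    have he : Idm A (Tw (trim A) u) := ⟨u, hu, rfl, hi, a, c, h3⟩
    have hf : Idm A (Tw (trim A) u') := ⟨u', hu', rfl, hi', d, b, h2⟩
    let v : Vt A := (⟨_, he⟩, (ij ⟨_, he⟩).1)
    let v' : Vt A := (⟨_, hf⟩, (ij ⟨_, hf⟩).2)
    have hvv : v ≠ v' := by
      intro h
      have e1 : (⟨_, he⟩ : {e : Rel k // Idm A e}) = ⟨_, hf⟩ := congrArg Prod.fst h
      have e2 : (ij ⟨_, he⟩).1 = (ij ⟨_, hf⟩).2 := congrArg Prod.snd h
      rw [e1] at e2
      exact hij1 _ e2
    have ev : Tw (trim A) (uv A v) = Tw (trim A) u := (uv_spec A v).2.1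
    have ev' : Tw (trim A) (uv A v') = Tw (trim A) u' := (uv_spec A v').2.1
    let q : At A := ⟨(v, Tw (trim A) z, v'), hvv, z, rfl, a, b, by
      simp only
      rw [tw_congr (tw_congr ev rfl) ev']
      exact hab⟩
    refine ⟨q, v, ?_⟩
    have e1 : Equiv.swap q.1.1 q.1.2.2 v = v' := Equiv.swap_apply_left v v'
    have e2 : (if v = q.1.1 then uv A q.1.1 ++ zq A q ++ uv A q.1.2.2
      else if v = q.1.2.2 then uv A q.1.2.2 ++ (p q).2.2 ++ uv A q.1.1 else []) =
      uv A v ++ zq A q ++ uv A v' := if_pos rfl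
    rw [e1, e2]
    have ez : Tw (trim A) (zq A q) = Tw (trim A) z := (zq_spec A q).1
    have e3 : Tw (trim A) (uv A v ++ (uv A v ++ zq A q ++ uv A v') ++ uv A v') =
        Tw (trim A) (u ++ z ++ u') := by
      have e4 : uv A v ++ (uv A v ++ zq A q ++ uv A v') ++ uv A v' =
          (uv A v ++ uv A v) ++ zq A q ++ (uv A v' ++ uv A v') := by
        simp only [List.append_assoc]
      rw [e4]
      exact tw_congr (tw_congr ((uv_spec A v).2.2.1.trans ev) ez) ((uv_spec A v').2.2.1.trans ev')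
    rw [e3]
    have e5 : μ v = lam (Tw (trim A) u) := by
      simp only [lam, dif_pos he, v]
    have e6 : μ v' = lam (Tw (trim A) u') := by
      simp only [lam, dif_pos hf, v']
      exact (hij2 _).symm
    rw [e5, e6]
    exact hnot

end Pool.Agent.V7H67.LI
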