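import Pool.Agent.V7H67.LI.Coll

/-!
# The evaluation algorithm
-/

namespace Pool.Agent.V7H67.LI

open Pool.Agent.NPC Pool.Agent.NPC.PIso Pool.Agent.V7H67.LL

/-- the states of the algorithm -/
abbrev Cs := List Bool × List Nd × Cd

section Step

variable (δ : ℕ → ℕ) (N : ℕ) (hx : List Bool → ℕ) (M E : ℕ)

/-- expansion -/
def expd (z : Cs) : Cs := (z.1, chs z.1.length z.2.1, exC δ M z.1.length z.2.1 z.2.2)

/-- selection -/
def sel (z : Cs) : Cs :=
  (z.1, selS (ids (2 * M) z.2.1.length z.2.2) z.2.1, selC (ids (2 * M) z.2.1.length z.2.2) z.2.2)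

/-- one level -/
def lev (z : Cs) : Cs := sel M ((red N hx)^[E] (expd δ M z))

/-- the invariant -/
structure J (n ρ : ℕ) (r : Bool) (z : Cs) : Prop where
  len : z.1.length = n
  gd : ∀ u ∈ z.2.1, Gd n u ∧ rank n u = ρ
  cardS : z.2.1.length ≤ M
  cardC : z.2.2.length ≤ N + 1
  vec : ∀ p ∈ z.2.2, p.1.length ≤ M
  ok : Ok (z.2.1.map (vl δ n)) r z.2.2

variable {δ N hx M E}

theorem chs_gd {n ρ : ℕ} {S : List Nd} (h : ∀ u ∈ S, Gd n u ∧ rank n u = ρ + 1) :
    ∀ u ∈ chs n S, Gd n u ∧ rank n u = ρ := by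
  intro u hu
  unfold chs at hu
  rw [List.mem_flatMap] at hu
  obtain ⟨v, hv, hu⟩ := hu
  obtain ⟨h1, h2⟩ := h v hv
  simp only [List.mem_cons, List.not_mem_nil, or_false] at hu
  rcases hu with rfl | rfl
  · exact ⟨gd_c1 h1, by have := rank_c1 (n := n) (u := v) (by omega); omega⟩
  · exact ⟨gd_c2 h1, by have := rank_c2 (n := n) (u := v) (by omega); omega⟩

theorem lev_J (hN : 0 < N) (hlt : ∀ y, hx y < N)
    (hne : ∀ (h : List Bool) (S : List Nd) (Q : List (List Bool)),
      hx (bits ((h, S, Q) : In)) ≠ ixf N Q (S.map (vl δ h.length)))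
    (hM : N * N ≤ M) (hE : (AV M).length * (N + 1) ≤ E) {n ρ : ℕ} {r : Bool} {z : Cs}
    (hz : J δ N M n (ρ + 1) r z) : J δ N M n ρ r (lev δ N hx M E z) := by
  obtain ⟨h, S, C⟩ := z
  obtain ⟨j1, j2, j3, j4, j5, j6⟩ := hz
  simp only at j1 j2 j3 j4 j5 j6
  subst j1
  have g1 := chs_gd j2
  have g2 := exC_ok (δ := δ) (M := M) (fun u hu => (j2 u hu).1) j3 j6
  obtain ⟨C', e1, e2, e3, e4⟩ := red_iter (N := N) (hx := hx) (h := h)
    (S := chs h.length S) hN hlt (fun C => hne _ _ _) g2 E
  have e5 : C'.length < N := by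
    rcases e4 with e4 | e4
    · exact e4
    · have := exC_length (δ := δ) M h.length S C
      have h2 : (AV M).length * C.length ≤ (AV M).length * (N + 1) := Nat.mul_le_mul_left _ j4
      omega
  have hlev : lev δ N hx M E (h, S, C) = sel M (h, chs h.length S, C') := by
    unfold lev expd
    simp only
    rw [e1]
  rw [hlev]
  unfold sel
  simp only
  set I := ids (2 * M) (chs h.length S).length C' with hI
  have hIl : I.length ≤ M := by
    have h1 : I.length ≤ C'.length * C'.length := ids_length _ _ _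
    have h2 : C'.length * C'.length ≤ N * N := Nat.mul_le_mul e5.le e5.le
    omega
  have hl : ∀ p ∈ C', p.1.length = (chs h.length S).length := by
    intro p hp
    rw [chs_length]
    exact (mem_exC.1 (e3 p hp)).2.1
  refine ⟨rfl, ?_, ?_, ?_, ?_, ?_⟩
  · intro u hu
    simp only at hu
    unfold selS at hu
    rw [List.mem_map] at hu
    obtain ⟨i, hi, rfl⟩ := hu
    exact g1 _ (getD_mem (mem_ids.1 hi).2 _)
  · simp only [selS, List.length_map]
    exact hIl
  · simp only [selC, List.length_map]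
    omega
  · intro p hp
    simp only at hp
    unfold selC at hp
    rw [List.mem_map] at hp
    obtain ⟨q, _, rfl⟩ := hp
    simp only [List.length_map]
    exact hIl
  · exact sel_ok hl (by rw [chs_length]; omega) e2

variable (δ) in
/-- the final answer -/
def ans (z : Cs) : Bool := z.2.2.any fun p =>
  decide (p.1 = z.2.1.map fun u => cb δ z.1.length u false false) && p.2

theorem ans_J {n : ℕ} {r : Bool} {z : Cs} (hz : J δ N M n 0 r z) : ans δ z = r := by
  obtain ⟨h, S, C⟩ := z
  obtain ⟨j1, j2, j3, j4, j5, j6⟩ := hz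
  simp only at j1 j2 j3 j4 j5 j6
  subst j1
  have h1 : (S.map fun u => cb δ h.length u false false) = S.map (vl δ h.length) := by
    apply List.map_congr_left
    intro u hu
    exact cb_leaf δ (j2 u hu).1 (j2 u hu).2 _ _
  unfold ans
  simp only
  rw [h1, Bool.eq_iff_iff, List.any_eq_true]
  constructor
  · rintro ⟨p, hp, h⟩
    rw [Bool.and_eq_true, decide_eq_true_iff] at h
    rw [← j6.2 p hp h.1]
    exact h.2
  · intro hr
    exact ⟨_, j6.1, by simpa using hr⟩

theorem sz_gd {n : ℕ} {u : Nd} (h : Gd n u) : sz u ≤ 20 * n + 40 := by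
  obtain ⟨i, a, b, j, q⟩ := u
  obtain ⟨h1, h2, h3, h4, h5⟩ := h
  simp only at h1 h2 h3 h4 h5
  have key : ∀ c ≤ 2 ^ n, sz c ≤ 4 * n + 5 := by
    intro c hc
    have a1 := sz_nat_le c
    have a2 : c.size ≤ n + 1 := by
      rw [Nat.size_le]
      exact hc.trans_lt (Nat.pow_lt_pow_right (by norm_num) (by omega))
    omega
  have key2 : ∀ c ≤ n, sz c ≤ 4 * n + 1 := by
    intro c hc
    have a1 := sz_nat_le c
    have a2 : c.size ≤ c := NPC.Poly.size_le_self _
    omega
  have b1 := key2 i h1
  have b2 := key a h2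
  have b3 := key b h3
  have b4 := key2 j h4
  have b5 := key q h5
  simp only [sz_pair]
  omega

theorem sz_J {n ρ : ℕ} {r : Bool} {z : Cs} (hz : J δ N M n ρ r z) :
    sz z ≤ (20 * M + 4) * n + (41 * M + (N + 1) * (4 * M + 7) + 10) := by
  obtain ⟨h, S, C⟩ := z
  obtain ⟨j1, j2, j3, j4, j5, j6⟩ := hz
  simp only at j1 j2 j3 j4 j5 j6
  subst j1
  have a1 := sz_listBool_le h
  have a2 := sz_le_length_mul S _ (fun u hu => sz_gd (j2 u hu).1)
  have a3 := sz_le_length_mul C (4 * M + 6) (fun p hp => by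
    have b1 := sz_listBool_le p.1
    have b2 := j5 p hp
    have b3 := sz_bool_le p.2
    obtain ⟨v, b⟩ := p
    simp only [sz_pair] at *
    omega)
  have a4 : S.length * (20 * h.length + 40 + 1) ≤ M * (20 * h.length + 40 + 1) :=
    Nat.mul_le_mul_right _ j3
  have a5 : C.length * (4 * M + 6 + 1) ≤ (N + 1) * (4 * M + 7) := Nat.mul_le_mul_right _ j4
  have a6 : M * (20 * h.length + 40 + 1) = 20 * M * h.length + 41 * M := by ring
  have a7 : (20 * M + 4) * h.length = 20 * M * h.length + 4 * h.length := by ring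
  simp only [sz_pair]
  omega

/-! ### Polynomial time -/

theorem poly_expd (hδ : NPC.Poly δ) (M : ℕ) : NPC.Poly (expd δ M) := by
  have h1 : NPC.Poly (fun z : Cs => z.1) := NPC.Poly.fst NPC.Poly.id
  have h2 : NPC.Poly (fun z : Cs => z.2.1) := NPC.Poly.fst (NPC.Poly.snd NPC.Poly.id)
  have h3 : NPC.Poly (fun z : Cs => z.2.2) := NPC.Poly.snd (NPC.Poly.snd NPC.Poly.id)
  exact h1.pair ((poly_chs (UPoly.length h1) h2).pair (poly_exC hδ M (UPoly.length h1) h2 h3))

theorem poly_sel (M : ℕ) : NPC.Poly (sel M) := by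
  have h1 : NPC.Poly (fun z : Cs => z.1) := NPC.Poly.fst NPC.Poly.id
  have h2 : NPC.Poly (fun z : Cs => z.2.1) := NPC.Poly.fst (NPC.Poly.snd NPC.Poly.id)
  have h3 : NPC.Poly (fun z : Cs => z.2.2) := NPC.Poly.snd (NPC.Poly.snd NPC.Poly.id)
  have h4 : NPC.Poly (fun z : Cs => ids (2 * M) z.2.1.length z.2.2) :=
    poly_ids (NPC.Poly.length h2) h3
  exact h1.pair ((poly_selS h4 h2).pair (poly_selC h4 h3))

theorem poly_red_iter (hhx : NPC.Poly hx) (E : ℕ) : NPC.Poly ((red N hx)^[E]) := by
  induction E with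
  | zero => exact NPC.Poly.id
  | succ E ih =>
    exact ((poly_red hhx).comp ih).congr fun z => by rw [Function.iterate_succ_apply']

theorem poly_lev (hδ : NPC.Poly δ) (hhx : NPC.Poly hx) (M E : ℕ) :
    NPC.Poly (lev δ N hx M E) :=
  (poly_sel M).comp ((poly_red_iter hhx E).comp (poly_expd hδ M))

theorem poly_ans (hδ : NPC.Poly δ) : NPC.Poly (ans δ) := by
  have h1 : NPC.Poly (fun z : Cs => z.1) := NPC.Poly.fst NPC.Poly.id
  have h2 : NPC.Poly (fun z : Cs => z.2.1) := NPC.Poly.fst (NPC.Poly.snd NPC.Poly.id)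
  have h3 : NPC.Poly (fun z : Cs => z.2.2) := NPC.Poly.snd (NPC.Poly.snd NPC.Poly.id)
  have h4 : NPC.Poly (fun z : Cs => z.2.1.map fun u => cb δ z.1.length u false false) :=
    NPC.Poly.map (F := fun (z : Cs) u => cb δ z.1.length u false false) h2
      (poly_cb hδ (UPoly.length (h1.comp (NPC.Poly.fst NPC.Poly.id))) (NPC.Poly.snd NPC.Poly.id)
        (NPC.Poly.const _) (NPC.Poly.const _))
  exact NPC.Poly.any (p := fun (z : Cs) (p : List Bool × Bool) =>
    decide (p.1 = z.2.1.map fun u => cb δ z.1.length u false false) && p.2) h3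
    (NPC.Poly.and (NPC.Poly.decide_eq (NPC.Poly.fst (NPC.Poly.snd NPC.Poly.id))
      (h4.comp (NPC.Poly.fst NPC.Poly.id))) (NPC.Poly.snd (NPC.Poly.snd NPC.Poly.id)))

end Step

section Main

variable {L : Set (List Bool)} (D : Sys L)

/-- the normalised step: `0` and `1` are the rejecting and the accepting state -/
def dl (c : ℕ) : ℕ := bif decide (c = 0) then 0 else bif decide (c = 1) then 1 else
  bif D.H (c - 2) then (bif D.A (c - 2) then 1 else 0) else D.δ (c - 2) + 2

theorem poly_dl : NPC.Poly (dl D) := by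
  have h : NPC.Poly (fun c : ℕ => c - 2) := NPC.Poly.sub NPC.Poly.id (NPC.Poly.const 2)
  exact NPC.Poly.cond (NPC.Poly.decide_eq NPC.Poly.id (NPC.Poly.const 0)) (NPC.Poly.const 0)
    (NPC.Poly.cond (NPC.Poly.decide_eq NPC.Poly.id (NPC.Poly.const 1)) (NPC.Poly.const 1)
      (NPC.Poly.cond (D.poly_H.comp h) (NPC.Poly.cond (D.poly_A.comp h) (NPC.Poly.const 1)
        (NPC.Poly.const 0)) (NPC.Poly.add (D.poly_δ.comp h) (NPC.Poly.const 2))))

/-- the number of digits -/
def nn (x : List Bool) : ℕ := D.N.eval x.length + 2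

/-- the root of the tree -/
def root (x : List Bool) : Nd := (nn D x - 1, D.c₀ x + 2, 1, nn D x, 0)

theorem gd_root (x : List Bool) : Gd (nn D x) (root D x) := by
  have h1 := D.c₀_lt x
  have h2 : 2 ^ (nn D x) = 4 * D.M x := by
    unfold nn Sys.M
    rw [pow_add]
    ring
  have h3 : 0 < D.M x := by unfold Sys.M; exact Nat.two_pow_pos _
  refine ⟨?_, ?_, ?_, le_rfl, Nat.zero_le _⟩
  · simp only [root]
    omega
  · simp only [root]
    omega
  · simp only [root]
    omega

theorem root_value (x : List Bool) : vl (dl D) (nn D x) (root D x) = true ↔ x ∈ L := by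
  obtain ⟨n, h1, h2, h3, h4⟩ := D.halts x
  have hAt : Euler.At (D.M x) D.δ (D.F x) (D.δ^[n] (D.c₀ x)) n (D.c₀ x) := by
    refine ⟨D.c₀_lt x, rfl, ?_, ?_⟩
    · unfold Sys.F
      rw [h2]; rfl
    · intro i hi
      unfold Sys.F
      rw [h3 i hi, Bool.false_or, decide_eq_false_iff_not, not_le]
      have := h1 (i + 1) (by omega)
      rwa [Function.iterate_succ_apply'] at this
  have hnM : n < D.M x := hAt.lt (D.hδ x)
  have hM : D.M x = 2 ^ (D.N.eval x.length) := rfl
  have h2n : 2 ^ (nn D x) = 4 * D.M x := by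
    unfold nn Sys.M
    rw [pow_add]
    ring
  set z := D.δ^[n] (D.c₀ x) with hz
  set T := tn (dl D) (nn D x) with hT
  have it : ∀ i ≤ n, T^[i] (D.c₀ x + 2) = D.δ^[i] (D.c₀ x) + 2 := by
    intro i
    induction i with
    | zero => intro _; rfl
    | succ i ih =>
      intro hi
      rw [Function.iterate_succ_apply', ih (by omega), Function.iterate_succ_apply']
      have a1 := h1 (i + 1) hi
      rw [Function.iterate_succ_apply'] at a1
      have a2 := h3 i (by omega)
      have a3 : dl D (D.δ^[i] (D.c₀ x) + 2) = D.δ (D.δ^[i] (D.c₀ x)) + 2 := by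
        unfold dl
        simp [a2]
      rw [hT]
      unfold tn
      rw [a3, decide_eq_true (by omega), cond_true]
  have b : T^[n + 1] (D.c₀ x + 2) = bif D.A z then 1 else 0 := by
    rw [Function.iterate_succ_apply', it n le_rfl, ← hz]
    have a3 : dl D (z + 2) = bif D.A z then 1 else 0 := by
      unfold dl
      simp [h2]
    have a4 : (bif D.A z then 1 else 0) < 2 ^ (nn D x) := by
      cases D.A z <;> simp only [cond_true, cond_false] <;> omega
    rw [hT]
    unfold tn
    rw [a3, decide_eq_true a4, cond_true]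
  have fx : ∀ m, T^[m] (bif D.A z then 1 else 0) = bif D.A z then 1 else 0 := by
    intro m
    induction m with
    | zero => rfl
    | succ m ih =>
      rw [Function.iterate_succ_apply', ih, hT]
      have e0 : 0 < 2 ^ (nn D x) := Nat.two_pow_pos _
      have e1 : 1 < 2 ^ (nn D x) := by omega
      cases D.A z
      · simp [tn, dl]
      · simp only [cond_true]
        unfold tn dl
        simp [e1]
  have c : T^[2 ^ (nn D x)] (D.c₀ x + 2) = bif D.A z then 1 else 0 := by
    obtain ⟨m, hm⟩ : ∃ m, 2 ^ (nn D x) = m + (n + 1) := ⟨2 ^ (nn D x) - (n + 1), by omega⟩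
    rw [hm, Function.iterate_add_apply, b, fx]
  have d1 : min (nn D x - 1) (nn D x) = nn D x - 1 := min_eq_left (by omega)
  have d2 : nn D x - 1 + 1 = nn D x := by unfold nn; omega
  have d3 : T^[2 ^ (nn D x - 1)] (D.c₀ x + 2) / 2 ^ (nn D x) = 0 :=
    Nat.div_eq_of_lt (tn_iter_lt _ _ _ (Nat.two_pow_pos _))
  unfold vl root
  simp only [d1, d2, min_self]
  rw [← hT, d3, c, h4]
  cases D.A z <;> simp

/-- the number of levels -/
def lv (x : List Bool) : ℕ := (nn D x - 1) * (nn D x + 1) + nn D x

/-- the initial state of the algorithm -/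
def ini0 (x : List Bool) : Cs :=
  (List.replicate (nn D x) true, [root D x], [([false], false), ([true], true)])

theorem upoly_nn : UPoly (nn D) :=
  UPoly.add (UPoly.eval (UPoly.length NPC.Poly.id) _) (UPoly.const 2)

theorem upoly_lv : UPoly (lv D) :=
  UPoly.add (UPoly.mul (UPoly.of_le (NPC.Poly.sub (upoly_nn D).toPoly (NPC.Poly.const 1))
    (upoly_nn D) fun _ => Nat.sub_le _ _) (UPoly.add (upoly_nn D) (UPoly.const 1))) (upoly_nn D)

theorem poly_ini0 : NPC.Poly (ini0 D) := by
  have h1 : NPC.Poly (fun x => List.replicate (nn D x) true) :=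
    (NPC.Poly.map (F := fun _ (_ : Unit) => true) (upoly_nn D) (NPC.Poly.const true)).congr
      fun x => by simp
  have h2 : NPC.Poly (root D) := (NPC.Poly.sub (upoly_nn D).toPoly (NPC.Poly.const 1)).pair
    ((NPC.Poly.add D.poly_c₀ (NPC.Poly.const 2)).pair ((NPC.Poly.const 1).pair
      ((upoly_nn D).toPoly.pair (NPC.Poly.const 0))))
  exact h1.pair ((NPC.Poly.cons h2 (NPC.Poly.const [])).pair (NPC.Poly.const _))

theorem ini0_J {N M : ℕ} (hN : 0 < N) (hM : 0 < M) (x : List Bool) :
    J (dl D) N M (nn D x) (lv D x) (vl (dl D) (nn D x) (root D x)) (ini0 D x) := by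
  refine ⟨by simp [ini0], ?_, ?_, ?_, ?_, ?_, ?_⟩
  · intro u hu
    simp only [ini0, List.mem_singleton] at hu
    subst hu
    exact ⟨gd_root D x, rfl⟩
  · simp only [ini0, List.length_singleton]; omega
  · simp only [ini0, List.length_cons, List.length_nil]; omega
  · intro p hp
    simp only [ini0, List.mem_cons, List.not_mem_nil, or_false] at hp
    rcases hp with rfl | rfl <;> simp only [List.length_singleton] <;> omega
  · simp only [ini0, List.map_cons, List.map_nil]
    cases vl (dl D) (nn D x) (root D x) <;> simp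
  · intro p hp h
    simp only [ini0, List.mem_cons, List.not_mem_nil, or_false, List.map_cons,
      List.map_nil] at hp h
    rcases hp with rfl | rfl
    · simpa using h
    · simpa using h

/-- **Collapse.** If a polynomial-time function excludes one of `N` possibilities for the first
correct candidate in every list of candidates for the values of nodes, then the language is in
`P`. -/
theorem inP_of_exclusion {N : ℕ} (hN : 0 < N) {hx : List Bool → ℕ} (hhx : NPC.Poly hx)
    (hlt : ∀ y, hx y < N) (hne : ∀ (h : List Bool) (S : List Nd) (Q : List (List Bool)),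
      hx (bits ((h, S, Q) : In)) ≠ ixf N Q (S.map (vl (dl D) h.length))) : InP L := by
  set M := N * N with hM
  have hM0 : 0 < M := Nat.mul_pos hN hN
  set E := (AV M).length * (N + 1) with hE
  have hJ : ∀ x, ∀ m ≤ lv D x, J (dl D) N M (nn D x) (lv D x - m)
      (vl (dl D) (nn D x) (root D x)) ((lev (dl D) N hx M E)^[m] (ini0 D x)) := by
    intro x m
    induction m with
    | zero => intro _; exact ini0_J D hN hM0 x
    | succ m ih =>
      intro hm
      rw [Function.iterate_succ_apply']
      have h1 := ih (by omega)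
      have e1 : lv D x - m = (lv D x - (m + 1)) + 1 := by omega
      rw [e1] at h1
      exact lev_J hN hlt hne le_rfl le_rfl h1
  obtain ⟨q, hq⟩ := (upoly_nn D).sz_le
  have hiter : NPC.Poly (fun x => (lev (dl D) N hx M E)^[lv D x] (ini0 D x)) := by
    have h := NPC.Poly.iterLen (F := fun (_ : List Bool) z => lev (dl D) N hx M E z)
      (l := fun x => List.replicate (lv D x) ()) (upoly_lv D) (poly_ini0 D)
      ((poly_lev (poly_dl D) hhx M E).comp (NPC.Poly.snd NPC.Poly.id))
      (Polynomial.C (20 * M + 4) * q + Polynomial.C (41 * M + (N + 1) * (4 * M + 7) + 10)) (by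
        intro x m hm
        rw [List.length_replicate] at hm
        have h1 := sz_J (hJ x m hm)
        have h2 := hq x
        have h3 := length_lt_sz (List.replicate (nn D x) ())
        rw [List.length_replicate] at h3
        have h4 : (20 * M + 4) * nn D x ≤ (20 * M + 4) * q.eval (sz x) :=
          Nat.mul_le_mul_left _ (by omega)
        rw [Polynomial.eval_add, Polynomial.eval_mul, Polynomial.eval_C, Polynomial.eval_C]
        exact h1.trans (Nat.add_le_add_right h4 _))
    exact h.congr fun x => by rw [List.length_replicate]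
  refine ⟨fun x => [ans (dl D) ((lev (dl D) N hx M E)^[lv D x] (ini0 D x))],
    polyTime_of_poly ((poly_ans (poly_dl D)).comp hiter), fun x => ?_⟩
  have h1 := hJ x (lv D x) le_rfl
  rw [Nat.sub_self] at h1
  change x ∈ L ↔ [ans (dl D) ((lev (dl D) N hx M E)^[lv D x] (ini0 D x))] = [true]
  rw [ans_J h1, List.cons.injEq, ← root_value D x]
  simp

end Main

end Pool.Agent.V7H67.LI
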