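import Pool.Agent.V7H67.LI.Word

/-!
# Functions on finite types are computable in polynomial time
-/

namespace Pool.Agent.V7H67.LI

open Pool.Agent.NPC Pool.Agent.NPC.PIso Pool.Agent.V7H67.LL

instance tencF (n : ℕ) : TEnc (Fin n) := ⟨fun i => toT i.val, fun _ _ h => Fin.ext (TEnc.inj h)⟩

noncomputable instance tencFun {ι S : Type} [Finite ι] [Finite S] : TEnc (ι → S) :=
  ⟨fun f => toT ((Finite.equivFin (ι → S)) f), fun _ _ h =>
    (Finite.equivFin (ι → S)).injective (TEnc.inj h)⟩

theorem poly_list {S β : Type} [TEnc S] [TEnc β] (g : S → β) (d : β) (l : List S) :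
    ∃ f : S → β, NPC.Poly f ∧ ∀ a ∈ l, f a = g a := by
  classical
  induction l with
  | nil => exact ⟨fun _ => d, NPC.Poly.const d, fun a ha => by simp at ha⟩
  | cons b l ih =>
    obtain ⟨f, hf, h⟩ := ih
    refine ⟨fun a => bif decide (a = b) then g b else f a, NPC.Poly.cond
      (NPC.Poly.decide_eq NPC.Poly.id (NPC.Poly.const b)) (NPC.Poly.const _) hf, fun a ha => ?_⟩
    by_cases hab : a = b
    · simp [hab]
    · simp only [hab, decide_false, cond_false]
      exact h a (by simpa [hab] using ha)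

/-- Every function on a finite type is computable in polynomial time. -/
theorem poly_finite {S β : Type} [TEnc S] [TEnc β] [Finite S] (g : S → β) : NPC.Poly g := by
  rcases isEmpty_or_nonempty S with h | ⟨⟨s0⟩⟩
  · exact NPC.Poly.of_toT ((NPC.Poly.const (α := S) T.nil).congr fun a => (h.false a).elim)
  · have := Fintype.ofFinite S
    obtain ⟨f, hf, h⟩ := poly_list g (g s0) (Finset.univ : Finset S).toList
    exact hf.congr fun a => h a (by simp)

theorem exists_sz_le (S : Type) [TEnc S] [Finite S] : ∃ C, ∀ a : S, sz a ≤ C := by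
  obtain ⟨C, hC⟩ := (Set.finite_range (fun a : S => sz a)).bddAbove
  exact ⟨C, fun a => hC ⟨a, rfl⟩⟩

/-- a labelling whose classes are in `P` is computed in polynomial time -/
theorem exists_poly {n : ℕ} {X : Set (List Bool)} {c : List Bool → Fin n}
    (h : ∀ v, InP {x | x ∈ X ∧ c x = v}) :
    ∃ c' : List Bool → Fin n, NPC.Poly c' ∧ ∀ x ∈ X, c' x = c x := by
  have hb : ∀ v, ∃ b : List Bool → Bool, NPC.Poly b ∧ ∀ x, x ∈ X → (b x = true ↔ c x = v) := by
    intro v
    obtain ⟨V, hV, h⟩ := h v
    refine ⟨fun x => decide (V x = [true]), NPC.Poly.decide_eq (poly_iff.2 hV) (NPC.Poly.const _),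
      fun x hx => ?_⟩
    rw [decide_eq_true_iff, ← h x]
    exact ⟨fun h => h.2, fun h => ⟨hx, h⟩⟩
  choose b hb1 hb2 using hb
  have key : ∀ l : List (Fin n), ∃ c' : List Bool → Fin n, NPC.Poly c' ∧
      ∀ x ∈ X, c x ∈ l → c' x = c x := by
    intro l
    induction l with
    | nil => exact ⟨fun _ => c [], NPC.Poly.const _, fun x _ hx => by simp at hx⟩
    | cons v l ih =>
      obtain ⟨c', h1, h2⟩ := ih
      refine ⟨fun x => bif b v x then v else c' x, NPC.Poly.cond (hb1 v) (NPC.Poly.const v) h1,
        fun x hx hl => ?_⟩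
      by_cases hv : c x = v
      · simp only [(hb2 v x hx).2 hv, cond_true]
        exact hv.symm
      · have h3 : b v x = false := by
          rw [← Bool.not_eq_true, hb2 v x hx]
          exact hv
        simp only [h3, cond_false]
        exact h2 x hx (by simpa [hv] using hl)
  obtain ⟨c', h1, h2⟩ := key (List.finRange n)
  exact ⟨c', h1, fun x hx => h2 x hx (List.mem_finRange _)⟩

theorem inP_of_poly (P : PPerm) {n : ℕ} {c : List Bool → Fin n} (hc : NPC.Poly c)
    (T : Set (Fin n)) : InP {x | x ∈ P.X ∧ c x ∈ T} := by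
  classical
  refine ⟨fun x => [P.b x && decide (c x ∈ T)], polyTime_of_poly
    (NPC.Poly.and P.poly_b ((poly_finite (fun v : Fin n => decide (v ∈ T))).comp hc)), fun x => ?_⟩
  simp only [Set.mem_ofPred_eq, List.cons.injEq, and_true, Bool.and_eq_true, ← P.b_iff,
    decide_eq_true_iff]

end Pool.Agent.V7H67.LI
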