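import Pool.Agent.V7H67.LI.Big
import Pool.Agent.V7H67.LL.Hard2

/-!
# The permutation of a design and a computation with several outcomes
-/

namespace Pool.Agent.V7H67.LI

open Pool.Agent.NPC Pool.Agent.NPC.PIso Pool.Agent.V7H67.LL

variable {s k : ℕ} {B : Fin s → Rel k} {V K : Type} [TEnc V] [Finite V] [TEnc K] [Finite K]
  (S : Des B V K) {L : Set (List Bool)} (R : PermProblem L) (ok : List Bool → K)

/-- the phases: a vertex and a direction -/
abbrev Ph (V : Type) := V × Bool

/-- the word of a big step, from finite data -/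
noncomputable def wf (q : Ph V × Bool × K) : List (Fin s) :=
  S.u q.1.1 ++ (bif !q.1.2 && q.2.1 then S.t q.2.2 q.1.1 else [])

/-- the word of a big step -/
noncomputable def wb (p : Ph V × List Bool) : List (Fin s) := wf S (p.1, R.Q (R.T p.2), ok p.2)

/-- the end of a big step -/
noncomputable def nxt (p : Ph V × List Bool) : Ph V × List Bool :=
  bif p.1.2 then (bif R.Q p.2 then ((p.1.1, false), p.2) else (p.1, R.Ti p.2))
  else (bif R.Q (R.T p.2) then ((S.ρ (ok p.2) p.1.1, true), p.2) else (p.1, R.T p.2))

/-- the previous pair -/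
noncomputable def prv (p : Ph V × List Bool) : Ph V × List Bool :=
  bif p.1.2 then (bif R.Q (R.T p.2) then (((S.ρ (ok p.2)).symm p.1.1, false), p.2)
    else (p.1, R.T p.2))
  else (bif R.Q p.2 then ((p.1.1, true), p.2) else (p.1, R.Ti p.2))

theorem prv_nxt (p : Ph V × List Bool) : prv S R ok (nxt S R ok p) = p := by
  obtain ⟨⟨v, b⟩, d⟩ := p
  cases b <;> simp only [nxt] <;> cases h1 : R.Q (R.T d) <;> cases h2 : R.Q d <;>
    simp [prv, h1, h2, R.Ti_T, R.T_Ti]

theorem nxt_prv (p : Ph V × List Bool) : nxt S R ok (prv S R ok p) = p := by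
  obtain ⟨⟨v, b⟩, d⟩ := p
  cases b <;> simp only [prv] <;> cases h1 : R.Q (R.T d) <;> cases h2 : R.Q d <;>
    simp [nxt, h1, h2, R.Ti_T, R.T_Ti]

variable {ok}

section Pol

variable (hok : NPC.Poly ok)

include hok

theorem poly_wb : NPC.Poly (wb S R ok) :=
  NPC.Poly.comp (g := wf S) (f := fun p : Ph V × List Bool => (p.1, R.Q (R.T p.2), ok p.2))
    (poly_finite _) ((NPC.Poly.fst NPC.Poly.id).pair
      ((R.poly_Q.comp (R.poly_T.comp (NPC.Poly.snd NPC.Poly.id))).pair
        (hok.comp (NPC.Poly.snd NPC.Poly.id))))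

theorem poly_nxt : NPC.Poly (nxt S R ok) := by
  have h1 : NPC.Poly (fun p : Ph V × List Bool => p.1) := NPC.Poly.fst NPC.Poly.id
  have h2 : NPC.Poly (fun p : Ph V × List Bool => p.2) := NPC.Poly.snd NPC.Poly.id
  have h3 : NPC.Poly (fun p : Ph V × List Bool => S.ρ (ok p.2) p.1.1) :=
    NPC.Poly.comp (g := fun q : K × V => S.ρ q.1 q.2)
      (f := fun p : Ph V × List Bool => (ok p.2, p.1.1)) (poly_finite _)
      ((hok.comp h2).pair (NPC.Poly.fst h1))
  exact NPC.Poly.cond (NPC.Poly.snd h1) (NPC.Poly.cond (R.poly_Q.comp h2)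
    (((NPC.Poly.fst h1).pair (NPC.Poly.const false)).pair h2) (h1.pair (R.poly_Ti.comp h2)))
    (NPC.Poly.cond (R.poly_Q.comp (R.poly_T.comp h2)) ((h3.pair (NPC.Poly.const true)).pair h2)
      (h1.pair (R.poly_T.comp h2)))

theorem poly_prv : NPC.Poly (prv S R ok) := by
  have h1 : NPC.Poly (fun p : Ph V × List Bool => p.1) := NPC.Poly.fst NPC.Poly.id
  have h2 : NPC.Poly (fun p : Ph V × List Bool => p.2) := NPC.Poly.snd NPC.Poly.id
  have h3 : NPC.Poly (fun p : Ph V × List Bool => (S.ρ (ok p.2)).symm p.1.1) :=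
    NPC.Poly.comp (g := fun q : K × V => (S.ρ q.1).symm q.2)
      (f := fun p : Ph V × List Bool => (ok p.2, p.1.1)) (poly_finite _)
      ((hok.comp h2).pair (NPC.Poly.fst h1))
  exact NPC.Poly.cond (NPC.Poly.snd h1) (NPC.Poly.cond (R.poly_Q.comp (R.poly_T.comp h2))
    ((h3.pair (NPC.Poly.const false)).pair h2) (h1.pair (R.poly_T.comp h2)))
    (NPC.Poly.cond (R.poly_Q.comp h2) (((NPC.Poly.fst h1).pair (NPC.Poly.const true)).pair h2)
      (h1.pair (R.poly_Ti.comp h2)))

end Pol

omit [TEnc V] [TEnc K] in
theorem exists_len : ∃ m, ∀ q : Ph V × Bool × K, (wf S q).length ≤ m := by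
  obtain ⟨C, hC⟩ := (Set.finite_range (fun q : Ph V × Bool × K => (wf S q).length)).bddAbove
  exact ⟨C, fun q => hC ⟨q, rfl⟩⟩

/-- the big steps -/
noncomputable def bg (hok : NPC.Poly ok) : Big (Ph V) where
  m := (exists_len S).choose
  ln := fun p => (wb S R ok p).length
  nx := nxt S R ok
  pv := prv S R ok
  ln_pos := by
    intro p
    have := List.length_pos_iff.2 (S.u_ne p.1.1)
    change 0 < (S.u p.1.1 ++ _).length
    rw [List.length_append]
    omega
  ln_le := fun p => (exists_len S).choose_spec _
  pv_nx := prv_nxt S R ok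
  nx_pv := nxt_prv S R ok
  nx_len := by
    rintro ⟨⟨v, b⟩, d⟩
    cases b <;> simp only [nxt] <;> cases h1 : R.Q (R.T d) <;> cases h2 : R.Q d <;>
      simp [R.len_T, R.len]
  poly_ln := NPC.Poly.length (poly_wb S R hok)
  poly_nx := poly_nxt S R hok
  poly_pv := poly_prv S R hok

variable (hok : NPC.Poly ok) (v0 : V) (σ0 : Fin s)

/-- the permutation -/
noncomputable def pm : PPerm := (bg S R hok).perm (v0, false)

/-- the input labels -/
noncomputable def ip (w : List Bool) : Fin s :=
  (wb S R ok ((bg S R hok).dc (v0, false) w).1).getD ((bg S R hok).dc (v0, false) w).2 σ0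

theorem poly_ip : NPC.Poly (ip S R hok v0 σ0) := by
  have h := Big.poly_dc (D := bg S R hok) (v0, false) (NPC.Poly.id (α := List Bool))
  exact NPC.Poly.getD ((poly_wb S R hok).comp (NPC.Poly.fst h)) (NPC.Poly.snd h)
    (NPC.Poly.const σ0)

variable {hok v0 σ0}

theorem ip_enc {p : Ph V × List Bool} {j : ℕ} (hj : j < (wb S R ok p).length) :
    ip S R hok v0 σ0 ((bg S R hok).enc (p, j)) = (wb S R ok p)[j] := by
  unfold ip
  rw [Big.dc_enc (D := bg S R hok) (v0, false) (t := (p, j)) hj]
  simp [List.getD_eq_getElem?_getD, hj]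

theorem wd_getElem (P : PPerm) (inp : List Bool → Fin s) (x : List Bool) (n j : ℕ)
    (h : j < (wd P inp x n).length) : (wd P inp x n)[j] = inp (P.F^[j] x) := by
  simp only [wd, List.getElem_map, List.getElem_range]

/-- the word of a big step along the permutation -/
theorem wd_big (p : Ph V × List Bool) : wd (pm S R hok v0) (ip S R hok v0 σ0)
    ((bg S R hok).enc (p, 0)) (wb S R ok p).length = wb S R ok p := by
  apply List.ext_getElem
  · rw [wd_length]
  · intro j h1 h2
    rw [wd_getElem]
    have h3 := Big.iter_lt (D := bg S R hok) (v0, false) p j h2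
    unfold pm
    rw [h3]
    exact ip_enc S R h2

/-! ### Existence of a solution -/

/-- a walk along a word -/
theorem exists_walk {w : List (Fin s)} {a b : Fin k} (h : Tw B w a b) :
    ∃ f : ℕ → Fin k, f 0 = a ∧ f w.length = b ∧
      ∀ j (hj : j < w.length), B w[j] (f j) (f (j + 1)) := by
  induction w generalizing a with
  | nil => exact ⟨fun _ => a, rfl, h, fun j hj => by simp at hj⟩
  | cons σ w ih =>
    obtain ⟨c, h1, h2⟩ := h
    obtain ⟨f, f0, f1, hf⟩ := ih h2
    refine ⟨fun j => if j = 0 then a else f (j - 1), by simp, ?_, ?_⟩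
    · simp [f1]
    · intro j hj
      cases j with
      | zero => simpa [f0] using h1
      | succ j =>
        have := hf j (by simpa using hj)
        simpa using this

section Kap

variable (ok)

open Classical in
/-- the outcome at the end of the segment of a point -/
noncomputable def kap (d : List Bool) : K :=
  if h : ∃ n, R.Q (R.T^[n + 1] d) = true then ok (R.T^[Nat.find h] d) else ok []

omit [TEnc K] [Finite K] in
theorem kap_end {d : List Bool} (h : R.Q (R.T d) = true) : kap R ok d = ok d := by
  classical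
  unfold kap
  have hex : ∃ n, R.Q (R.T^[n + 1] d) = true := ⟨0, h⟩
  rw [dif_pos hex]
  have : Nat.find hex = 0 := (Nat.find_eq_zero hex).2 h
  rw [this]
  rfl

omit [TEnc K] [Finite K] in
theorem kap_T {d : List Bool} (h : R.Q (R.T d) = false) : kap R ok (R.T d) = kap R ok d := by
  classical
  unfold kap
  by_cases hex : ∃ n, R.Q (R.T^[n + 1] d) = true
  · have hex' : ∃ n, R.Q (R.T^[n + 1] (R.T d)) = true := by
      obtain ⟨n, hn⟩ := hex
      cases n with
      | zero =>
        change R.Q (R.T d) = true at hn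
        rw [h] at hn
        exact absurd hn (by simp)
      | succ n => exact ⟨n, by rw [← Function.iterate_succ_apply]; exact hn⟩
    rw [dif_pos hex, dif_pos hex']
    have h1 : Nat.find hex = Nat.find hex' + 1 := by
      rw [Nat.find_eq_iff]
      constructor
      · rw [Function.iterate_succ_apply]
        exact Nat.find_spec hex'
      · intro m hm h2
        cases m with
        | zero =>
          change R.Q (R.T d) = true at h2
          rw [h] at h2
          exact absurd h2 (by simp)
        | succ m =>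
          rw [Function.iterate_succ_apply] at h2
          exact Nat.find_min hex' (by omega) h2
    rw [h1, Function.iterate_succ_apply]
  · have hex' : ¬ ∃ n, R.Q (R.T^[n + 1] (R.T d)) = true := by
      rintro ⟨n, hn⟩
      exact hex ⟨n + 1, by rw [Function.iterate_succ_apply]; exact hn⟩
    rw [dif_neg hex, dif_neg hex']

omit [TEnc K] [Finite K] in
theorem kap_Ti {d : List Bool} (h : R.Q d = false) : kap R ok (R.Ti d) = kap R ok d := by
  have h1 := kap_T R ok (d := R.Ti d) (by rw [R.T_Ti]; exact h)
  rw [R.T_Ti] at h1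
  exact h1.symm

end Kap

variable (ok) in
/-- the label of a pair -/
noncomputable def lb (p : Ph V × List Bool) : Fin k := S.γ (kap R ok p.2) p.1.1

theorem lb_step (p : Ph V × List Bool) :
    Tw B (wb S R ok p) (lb S R ok p) (lb S R ok (nxt S R ok p)) := by
  obtain ⟨⟨v, b⟩, d⟩ := p
  unfold wb wf lb nxt
  cases b
  · simp only [Bool.not_false, Bool.true_and, cond_false]
    cases hq : R.Q (R.T d)
    · simp only [cond_false, List.append_nil, kap_T R ok hq]
      exact S.γ_loop _ _
    · simp only [cond_true, kap_end R ok hq]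
      exact (tw_append _ _ _ _ _).2 ⟨_, S.γ_loop _ _, S.γ_turn _ _⟩
  · simp only [Bool.not_true, Bool.false_and, cond_false, cond_true, List.append_nil]
    cases hq : R.Q d
    · simp only [cond_false, kap_Ti R ok hq]
      exact S.γ_loop _ _
    · simp only [cond_true]
      exact S.γ_loop _ _

/-- the permutation with its input labels has a solution -/
theorem exists_sol : ∃ c, Sol B (pm S R hok v0) (ip S R hok v0 σ0) c := by
  choose f f0 f1 hf using fun p => exists_walk (lb_step S R (ok := ok) p)
  refine ⟨fun w => f ((bg S R hok).dc (v0, false) w).1 ((bg S R hok).dc (v0, false) w).2,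
    fun x hx => ?_⟩
  obtain ⟨⟨p, j⟩, ht, rfl⟩ := (Big.mem_iff (D := bg S R hok) (v0, false)).1 hx
  have ht' : j < (wb S R ok p).length := ht
  have h1 : (pm S R hok v0).f ((bg S R hok).enc (p, j)) =
      (bg S R hok).enc ((bg S R hok).st (p, j)) := by
    have h2 := Big.perm_f (D := bg S R hok) (v0, false) ht
    rw [PPerm.F_mem _ (Big.perm_mem (v0, false) ht)] at h2
    exact h2
  rw [h1, ip_enc S R ht']
  simp only
  rw [Big.dc_enc (D := bg S R hok) (v0, false) ht,
    Big.dc_enc (D := bg S R hok) (v0, false) (Big.val_st ht)]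
  have h3 := hf p j ht'
  unfold Big.st
  simp only
  by_cases h : j + 1 < (bg S R hok).ln p
  · rw [decide_eq_true h, cond_true]
    exact h3
  · rw [decide_eq_false h, cond_false]
    simp only
    have h4 : j + 1 = (wb S R ok p).length := by
      have h5 : ¬ (j + 1 < (wb S R ok p).length) := h
      omega
    rw [h4, f1] at h3
    have h6 : f ((bg S R hok).nx p) 0 = lb S R ok (nxt S R ok p) := f0 _
    rw [h6]
    exact h3

/-! ### Reading an excluded outcome from a solution -/

section Read

variable {c : List Bool → Fin k} (hc : Sol B (pm S R hok v0) (ip S R hok v0 σ0) c)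

include hc

theorem sol_big (p : Ph V × List Bool) : Tw B (wb S R ok p) (c ((bg S R hok).enc (p, 0)))
    (c ((bg S R hok).enc (nxt S R ok p, 0))) := by
  have hm : (bg S R hok).enc (p, 0) ∈ (pm S R hok v0).X :=
    Big.perm_mem (v0, false) (Big.val_zero (D := bg S R hok) p)
  have h1 := sol_word hc hm (wb S R ok p).length
  rw [wd_big S R] at h1
  have h2 : (pm S R hok v0).F^[(wb S R ok p).length] ((bg S R hok).enc (p, 0)) =
      (bg S R hok).enc (nxt S R ok p, 0) := Big.iter_ln (D := bg S R hok) (v0, false) p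
  rwa [h2] at h1

theorem idem_step {v : V} {a b c : Fin k} (h1 : Tw B (S.u v) a b) (h2 : Tw B (S.u v) b c) :
    Tw B (S.u v) a c := by
  rw [← S.u_idem]
  exact (tw_append _ _ _ _ _).2 ⟨b, h1, h2⟩

theorem read_up (v : V) (x : List Bool) : ∀ i ≤ R.m x, 0 < i →
    Tw B (S.u v) (c ((bg S R hok).enc (((v, false), R.start x), 0)))
      (c ((bg S R hok).enc (((v, false), R.T^[i] (R.start x)), 0))) := by
  intro i
  induction i with
  | zero => intro _ h; omega
  | succ i ih =>
    intro hi _
    have h1 := sol_big S R hc ((v, false), R.T^[i] (R.start x))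
    have hq := Q_iter R x (i + 1) (by omega) hi
    rw [Function.iterate_succ_apply'] at hq ⊢
    have e1 : wb S R ok ((v, false), R.T^[i] (R.start x)) = S.u v := by
      simp [wb, wf, hq]
    have e2 : nxt S R ok ((v, false), R.T^[i] (R.start x)) =
        ((v, false), R.T (R.T^[i] (R.start x))) := by
      simp [nxt, hq]
    rw [e1, e2] at h1
    rcases Nat.eq_zero_or_pos i with rfl | h0
    · exact h1
    · exact idem_step S R hc (ih (by omega) h0) h1

theorem read_down (v : V) (x : List Bool) : ∀ i ≤ R.m x,
    Tw B (S.u v) (c ((bg S R hok).enc (((v, true), R.T^[i] (R.start x)), 0)))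
      (c ((bg S R hok).enc (((v, false), R.start x), 0))) := by
  intro i
  induction i with
  | zero =>
    intro _
    have h1 := sol_big S R hc ((v, true), R.start x)
    have hq := Q_start R x
    have e1 : wb S R ok ((v, true), R.start x) = S.u v := by simp [wb, wf]
    have e2 : nxt S R ok ((v, true), R.start x) = ((v, false), R.start x) := by
      simp [nxt, hq]
    rw [e1, e2] at h1
    exact h1
  | succ i ih =>
    intro hi
    have h1 := sol_big S R hc ((v, true), R.T^[i + 1] (R.start x))
    have hq := Q_iter R x (i + 1) (by omega) hi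
    have h2 : R.Ti (R.T^[i + 1] (R.start x)) = R.T^[i] (R.start x) := by
      rw [Function.iterate_succ_apply', R.Ti_T]
    have e1 : wb S R ok ((v, true), R.T^[i + 1] (R.start x)) = S.u v := by simp [wb, wf]
    have e2 : nxt S R ok ((v, true), R.T^[i + 1] (R.start x)) =
        ((v, true), R.T^[i] (R.start x)) := by
      unfold nxt
      rw [hq, h2]
      rfl
    rw [e1, e2] at h1
    exact idem_step S R hc h1 (ih (by omega))

/-- the labels at the starting points satisfy the alternative of the outcome -/
theorem read_all (v : V) (x : List Bool) :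
    Tw B (S.u v ++ S.t (ok (R.T^[R.m x] (R.start x))) v ++
        S.u (S.ρ (ok (R.T^[R.m x] (R.start x))) v))
      (c ((bg S R hok).enc (((v, false), R.start x), 0)))
      (c ((bg S R hok).enc (((S.ρ (ok (R.T^[R.m x] (R.start x))) v, false), R.start x), 0))) := by
  set κ := ok (R.T^[R.m x] (R.start x)) with hκ
  have h1 := sol_big S R hc ((v, false), R.T^[R.m x] (R.start x))
  have hq : R.Q (R.T (R.T^[R.m x] (R.start x))) = true := by
    rw [← Function.iterate_succ_apply' R.T]
    exact Q_end R x
  have e1 : wb S R ok ((v, false), R.T^[R.m x] (R.start x)) = S.u v ++ S.t κ v := by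
    simp [wb, wf, hq, hκ]
  have e2 : nxt S R ok ((v, false), R.T^[R.m x] (R.start x)) =
      ((S.ρ κ v, true), R.T^[R.m x] (R.start x)) := by
    simp [nxt, hq, hκ]
  rw [e1, e2] at h1
  have h2 : Tw B (S.u v ++ S.t κ v) (c ((bg S R hok).enc (((v, false), R.start x), 0)))
      (c ((bg S R hok).enc (((S.ρ κ v, true), R.T^[R.m x] (R.start x)), 0))) := by
    rcases Nat.eq_zero_or_pos (R.m x) with h0 | h0
    · rw [h0] at h1 ⊢
      exact h1
    · obtain ⟨a, ha1, ha2⟩ := (tw_append _ _ _ _ _).1 h1
      exact (tw_append _ _ _ _ _).2 ⟨a, idem_step S R hc (read_up S R hc v x _ le_rfl h0) ha1, ha2⟩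
  exact (tw_append _ _ _ _ _).2 ⟨_, h2, read_down S R hc (S.ρ κ v) x _ le_rfl⟩

end Read

variable (hok v0) in
/-- the point at which the label of a vertex is read -/
noncomputable def rp (v : V) (x : List Bool) : List Bool :=
  (bg S R hok).enc (((v, false), R.start x), 0)

theorem poly_rp (v : V) : NPC.Poly (rp S R hok v) :=
  Big.poly_enc (((NPC.Poly.const (v, false)).pair R.poly_start).pair (NPC.Poly.const 0))

theorem rp_mem (v : V) (x : List Bool) : rp S R hok v x ∈ (pm S R hok v0).X :=
  Big.perm_mem (v0, false) (Big.val_zero (D := bg S R hok) _)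

/-- the alternative that is excluded by the labels of the vertices -/
noncomputable def ex (μ : V → Fin k) : K := (S.unsat μ).choose

theorem ex_ne {c : List Bool → Fin k} (hc : Sol B (pm S R hok v0) (ip S R hok v0 σ0) c)
    (x : List Bool) : ex S (fun v => c (rp S R hok v x)) ≠ ok (R.T^[R.m x] (R.start x)) := by
  intro h
  obtain ⟨v, hv⟩ := (S.unsat fun v => c (rp S R hok v x)).choose_spec
  have h1 := read_all S R hc v x
  rw [← h] at h1
  exact hv h1

end Pool.Agent.V7H67.LI
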