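import Pool.Agent.V7H67.LI.Main

/-!
# Locally checkable labelling problems with input labels
-/

namespace Pool.Agent.V7H67.LI

open Pool.Agent.NPC Pool.Agent.NPC.PIso Pool.Agent.V7H67.LL


/-- An instance: a polynomial-time permutation together with an input label, one of `s`, at every
point; the set of the points with a given input label is in the class `P`. -/
structure Inst (s : ℕ) extends PPerm where
  /-- the input labels -/
  inp : List Bool → Fin s
  inP_inp : ∀ σ, InP {x | x ∈ X ∧ inp x = σ}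

variable {s k t : ℕ}

/-- A locally checkable labelling problem with `s` input labels and `k` output labels is given by a
set `W` of allowed windows, words of length `t + 2` over the pairs of an input label and an output
label. The labelling `c` solves the problem on the instance `I` if for every point `x` of the domain
the pairs of labels of `x`, `f x`, ..., `f^[t + 1] x` form an allowed window. -/
def IsSolution (W : Set (Fin (t + 2) → Fin s × Fin k)) (I : Inst s) (c : List Bool → Fin k) :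
    Prop :=
  ∀ x ∈ I.X, (fun i : Fin (t + 2) => (I.inp (I.f^[i] x), c (I.f^[i] x))) ∈ W

/-- The step for the input label `σ` from a word of `t + 1` pairs to another one: `σ` is the input
label of the first pair, and the two words overlap to an allowed window. -/
def step (W : Set (Fin (t + 2) → Fin s × Fin k)) (σ : Fin s)
    (u v : Fin (t + 1) → Fin s × Fin k) : Prop :=
  (u 0).1 = σ ∧ ∃ w ∈ W, (∀ i : Fin (t + 1), w i.castSucc = u i) ∧
    ∀ i : Fin (t + 1), w i.succ = v i

/-- The problem is local: the steps that lie on closed walks satisfy the condition `LocB`. -/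
def Loc (W : Set (Fin (t + 2) → Fin s × Fin k)) : Prop := LocB (trim (step W))

section Equiv

variable {Γ Λ Λ' : Type} (B : Γ → Λ → Λ → Prop) (e : Λ ≃ Λ')

/-- transport of a family of relations -/
def tp (σ : Γ) (a b : Λ') : Prop := B σ (e.symm a) (e.symm b)

theorem tw_tp (w : List Γ) (a b : Λ') : Tw (tp B e) w a b ↔ Tw B w (e.symm a) (e.symm b) := by
  induction w generalizing a with
  | nil => exact e.symm.injective.eq_iff.symm
  | cons σ w ih =>
    constructor
    · rintro ⟨c, h1, h2⟩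
      exact ⟨e.symm c, h1, (ih c).1 h2⟩
    · rintro ⟨c, h1, h2⟩
      refine ⟨e c, ?_, (ih _).2 ?_⟩
      · unfold tp
        rw [e.symm_apply_apply]
        exact h1
      · rw [e.symm_apply_apply]
        exact h2

theorem trim_tp : trim (tp B e) = tp (trim B) e := by
  funext σ a b
  apply propext
  unfold trim tp
  refine and_congr_right fun _ => exists_congr fun w => ?_
  exact tw_tp B e w b a

theorem locB_tp (h : LocB B) : LocB (tp B e) := by
  obtain ⟨lam, hlam⟩ := h
  have key : ∀ w : List Γ, (fun a b => Tw (tp B e) w (e a) (e b)) = Tw B w := by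
    intro w
    funext a b
    rw [tw_tp, e.symm_apply_apply, e.symm_apply_apply]
  refine ⟨fun r => e (lam fun a b => r (e a) (e b)), fun u z u' hu hu' hi hi' hab => ?_⟩
  rw [tw_tp, e.symm_apply_apply, e.symm_apply_apply, key, key]
  refine hlam u z u' hu hu' ?_ ?_ ?_
  · rw [← key, hi, key]
  · rw [← key, hi', key]
  · obtain ⟨a, b, h⟩ := hab
    exact ⟨_, _, (tw_tp B e _ _ _).1 h⟩

theorem locB_tp_iff : LocB (tp B e) ↔ LocB B := by
  refine ⟨fun h => ?_, locB_tp B e⟩
  have h1 := locB_tp (tp B e) e.symm h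
  have h2 : tp (tp B e) e.symm = B := by
    funext σ a b
    simp [tp]
  rwa [h2] at h1

end Equiv

section Win

variable {Λ₀ : Type} {W : Set (Fin (t + 2) → Λ₀)}

theorem overlap {u : ℕ → Fin (t + 1) → Λ₀} (h : ∀ i, ∃ a ∈ W, (∀ j : Fin (t + 1), a j.castSucc = u i j) ∧
    ∀ j : Fin (t + 1), a j.succ = u (i + 1) j) :
    (∀ i (j : Fin (t + 1)), u i j = u (i + j) 0) ∧
      ∀ i, (fun j : Fin (t + 2) => u (i + j) 0) ∈ W := by
  have h1 : ∀ (j : ℕ) (hj : j < t + 1) (i : ℕ), u i ⟨j, hj⟩ = u (i + j) 0 := by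
    intro j
    induction j with
    | zero => intro _ i; rfl
    | succ j ih =>
      intro hj i
      obtain ⟨a, _, ha1, ha2⟩ := h i
      have h2 := ha1 ⟨j + 1, hj⟩
      have h3 := ha2 ⟨j, by omega⟩
      have h4 : (Fin.castSucc ⟨j + 1, hj⟩ : Fin (t + 2)) = Fin.succ ⟨j, by omega⟩ := rfl
      rw [← h2, h4, h3, ih (by omega) (i + 1)]
      congr 1
      ring_nf
  refine ⟨fun i j => h1 j.1 j.2 i, fun i => ?_⟩
  obtain ⟨a, haW, ha1, ha2⟩ := h i
  have h5 : (fun j : Fin (t + 2) => u (i + j) 0) = a := by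
    funext j
    refine Fin.cases ?_ (fun j' => ?_) j
    · have := ha1 0
      rw [Fin.castSucc_zero] at this
      rw [this]
      rfl
    · rw [ha2 j', h1 j'.1 j'.2 (i + 1)]
      congr 1
      simp only [Fin.val_succ]
      ring_nf
  rw [h5]
  exact haW

end Win

variable (W : Set (Fin (t + 2) → Fin s × Fin k))

/-- the numbers of the words -/
noncomputable abbrev eq : (Fin (t + 1) → Fin s × Fin k) ≃
    Fin (Fintype.card (Fin (t + 1) → Fin s × Fin k)) := Fintype.equivFin _

/-- the problem in terms of numbers -/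
noncomputable def ed : Fin s → Rel (Fintype.card (Fin (t + 1) → Fin s × Fin k)) := tp (step W) eq

theorem loc_iff : LocB (trim (ed W)) ↔ Loc W := by
  unfold ed Loc
  rw [trim_tp, locB_tp_iff]

variable {W}

theorem mem_it {P : PPerm} {x : List Bool} (hx : x ∈ P.X) (i : ℕ) : P.f^[i] x ∈ P.X := by
  induction i with
  | zero => exact hx
  | succ i ih => rw [Function.iterate_succ_apply']; exact P.mem_f _ ih

theorem f_iter {P : PPerm} {x : List Bool} (hx : x ∈ P.X) (i : ℕ) : P.f^[i] x = P.F^[i] x := by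
  induction i with
  | zero => rfl
  | succ i ih =>
    rw [Function.iterate_succ_apply', Function.iterate_succ_apply', ih,
      P.F_mem (P.mem_iter hx i)]

/-- from labellings to numbers -/
noncomputable def toEd (P : PPerm) (inp : List Bool → Fin s) (c : List Bool → Fin k)
    (x : List Bool) : Fin (Fintype.card (Fin (t + 1) → Fin s × Fin k)) :=
  eq fun i : Fin (t + 1) => (inp (P.F^[i] x), c (P.F^[i] x))

theorem sol_toEd {I : Inst s} {inp : List Bool → Fin s} (hinp : ∀ x ∈ I.X, inp x = I.inp x)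
    {c : List Bool → Fin k} (h : IsSolution W I c) :
    Sol (ed W) I.toPPerm inp (toEd I.toPPerm inp c) := by
  intro x hx
  have hm := fun i => I.toPPerm.mem_iter hx i
  unfold ed tp toEd
  rw [eq.symm_apply_apply, eq.symm_apply_apply]
  refine ⟨rfl, _, h x hx, fun i => ?_, fun i => ?_⟩
  · simp only [Fin.val_castSucc]
    rw [f_iter hx, hinp _ (hm _)]
  · simp only [Fin.val_succ]
    rw [f_iter hx, ← I.toPPerm.F_mem hx, ← Function.iterate_succ_apply, hinp _ (hm _)]

/-- from numbers to labellings -/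
noncomputable def ofEd (c : List Bool → Fin (Fintype.card (Fin (t + 1) → Fin s × Fin k)))
    (x : List Bool) : Fin k := (eq.symm (c x) 0).2

theorem sol_ofEd {I : Inst s} {inp : List Bool → Fin s} (hinp : ∀ x ∈ I.X, inp x = I.inp x)
    {c : List Bool → Fin (Fintype.card (Fin (t + 1) → Fin s × Fin k))}
    (h : Sol (ed W) I.toPPerm inp c) : IsSolution W I (ofEd c) := by
  intro x hx
  have hm := fun i => mem_it (P := I.toPPerm) hx i
  have h0 : ∀ i, (eq.symm (c (I.f^[i] x)) 0).1 = I.inp (I.f^[i] x) := by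
    intro i
    rw [← hinp _ (hm i)]
    exact (h _ (hm i)).1
  have h1 := (overlap (W := W) (u := fun i => eq.symm (c (I.f^[i] x))) fun i => by
    obtain ⟨_, w, hw, h2, h3⟩ := h _ (hm i)
    rw [← Function.iterate_succ_apply' I.f] at h3
    exact ⟨w, hw, h2, h3⟩).2 0
  have h2 : (fun i : Fin (t + 2) => (I.inp (I.f^[i] x), ofEd c (I.f^[i] x))) =
      fun j : Fin (t + 2) => eq.symm (c (I.f^[0 + j.val] x)) 0 := by
    funext j
    rw [Nat.zero_add]
    exact Prod.ext (h0 j.val).symm rfl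
  rw [h2]
  exact h1

theorem sol_congr {A : Fin s → Rel k} {P : PPerm} {inp : List Bool → Fin s}
    {c c' : List Bool → Fin k} (hc : ∀ x ∈ P.X, c' x = c x) (h : Sol A P inp c) :
    Sol A P inp c' := by
  intro x hx
  rw [hc x hx, hc _ (P.mem_f x hx)]
  exact h x hx

variable (W)

theorem lcl_upper (I : Inst s) (h : ∃ c, IsSolution W I c) :
    ∃ c, IsSolution W I c ∧ ∀ v, H623R2.PS.InPSPACE {x | x ∈ I.X ∧ c x = v} := by
  obtain ⟨inp, h1, h2⟩ := exists_poly I.inP_inp
  obtain ⟨c, hc⟩ := h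
  obtain ⟨c', h3, h4⟩ := upper (ed W) I.toPPerm h1 ⟨_, sol_toEd h2 hc⟩
  exact ⟨_, sol_ofEd h2 h3, fun v => ofPIso (h4 {u | (eq.symm u 0).2 = v})⟩

theorem lcl_easy (hW : Loc W) (I : Inst s) (h : ∃ c, IsSolution W I c) :
    ∃ c, IsSolution W I c ∧ ∀ v, InP {x | x ∈ I.X ∧ c x = v} := by
  obtain ⟨inp, h1, h2⟩ := exists_poly I.inP_inp
  obtain ⟨c, hc⟩ := h
  obtain ⟨c', h3, h4⟩ := easy (A := trim (ed W)) (P := I.toPPerm) ((loc_iff W).2 hW) h1
    ⟨_, sol_trim (sol_toEd h2 hc)⟩
  exact ⟨_, sol_ofEd h2 (sol_of_trim h4), fun v =>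
    inP_of_poly I.toPPerm h3 {u | (eq.symm u 0).2 = v}⟩

theorem lcl_hard (hs : 0 < s) (hk : 0 < k) (hW : ¬ Loc W) : ∃ I : Inst s,
    (∃ c, IsSolution W I c) ∧ ∀ c, IsSolution W I c → ∀ L, H623R2.PS.InPSPACE L → InPGiven c L := by
  have : Nonempty (Fin (t + 1) → Fin s × Fin k) := ⟨fun _ => (⟨0, hs⟩, ⟨0, hk⟩)⟩
  obtain ⟨P, inp, h1, ⟨c, h2⟩, h3⟩ := hard (ed W) Fintype.card_pos
    (fun h => hW ((loc_iff W).1 h))
  refine ⟨⟨P, inp, fun σ => inP_of_poly P h1 {u | u = σ}⟩, ⟨_, sol_ofEd (fun _ _ => rfl) h2⟩,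
    fun c hc => ?_⟩
  have hF : ∀ i : ℕ, NPC.Poly (fun x => P.F^[i] x) := fun i =>
    (poly_iter P.poly_F P.length_F NPC.Poly.id (NPC.Poly.const i) (UPoly.const i)).congr
      fun x => by rw [min_self]
  refine h3 k (t + 1) c (fun i x => P.F^[(i : ℕ)] x)
    (fun w => eq fun i : Fin (t + 1) => (inp (P.F^[(i : ℕ)] w.1), w.2 i)) (fun i => hF i) ?_ ?_
  · have h6 : NPC.Poly (fun w : List Bool × (Fin (t + 1) → Fin k) => fun i : Fin (t + 1) =>
        (inp (P.F^[(i : ℕ)] w.1), w.2 i)) :=
      poly_pi (g := fun (i : Fin (t + 1)) (w : List Bool × (Fin (t + 1) → Fin k)) =>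
        (inp (P.F^[(i : ℕ)] w.1), w.2 i)) fun i =>
        (h1.comp ((hF i).comp (NPC.Poly.fst NPC.Poly.id))).pair
          (NPC.Poly.comp (g := fun ν : Fin (t + 1) → Fin k => ν i)
            (f := fun w : List Bool × (Fin (t + 1) → Fin k) => w.2) (poly_finite _)
            (NPC.Poly.snd NPC.Poly.id))
    exact NPC.Poly.comp (g := (eq : (Fin (t + 1) → Fin s × Fin k) → _))
      (f := fun w : List Bool × (Fin (t + 1) → Fin k) => fun i : Fin (t + 1) =>
        (inp (P.F^[(i : ℕ)] w.1), w.2 i)) (poly_finite _) h6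
  · exact sol_toEd (I := ⟨P, inp, fun σ => inP_of_poly P h1 {u | u = σ}⟩) (inp := inp)
      (fun _ _ => rfl) hc

theorem solution_congr {I : Inst s} {c c' : List Bool → Fin k} (h : ∀ x ∈ I.X, c' x = c x)
    (hc : IsSolution W I c) : IsSolution W I c' := by
  intro x hx
  have h1 : (fun i : Fin (t + 2) => (I.inp (I.f^[i] x), c' (I.f^[i] x))) =
      fun i : Fin (t + 2) => (I.inp (I.f^[i] x), c (I.f^[i] x)) := by
    funext i
    rw [h _ (mem_it (P := I.toPPerm) hx i)]
  rw [h1]
  exact hc x hx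

theorem lcl_iff (hs : 0 < s) (hk : 0 < k) (hW : ¬ Loc W) :
    (∀ I : Inst s, (∃ c, IsSolution W I c) →
      ∃ c, IsSolution W I c ∧ ∀ v, InP {x | x ∈ I.X ∧ c x = v}) ↔
    ∀ L, H623R2.PS.InPSPACE L → InP L := by
  constructor
  · intro h
    obtain ⟨I, h1, h2⟩ := lcl_hard W hs hk hW
    obtain ⟨c, hc, hcP⟩ := h I h1
    obtain ⟨c', h4, h5⟩ := exists_poly hcP
    exact fun L hL => (h2 c' (solution_congr W h5 hc) L hL).inP h4
  · intro h I hI
    obtain ⟨c, h1, h2⟩ := lcl_upper W I hI
    exact ⟨c, h1, fun v => h _ (h2 v)⟩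

end Pool.Agent.V7H67.LI
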