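import Pool.Agent.V7H67.LI.Path

/-!
# A solution in polynomial space
-/

namespace Pool.Agent.V7H67.LI

open Pool.Agent.NPC Pool.Agent.NPC.PIso Pool.Agent.V7H67.LL

variable {s k : ℕ} (A : Fin s → Rel k) (P : PPerm) (inp : List Bool → Fin s)

/-- the final state of the automaton that reads the cycle of `x` from its least point on -/
noncomputable def fin (x : List Bool) : Sta k := sAt A (lt P inp (base P x)) (idx P x) (P.N x)

/-- the states of the process -/
abbrev Stt (k : ℕ) := List Bool × List Bool × List Bool × Sta k × ℕ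

/-- one step of the process -/
noncomputable def G (z : Stt k) : Stt k :=
  bif decide (z.2.2.2.2 = 0) then
    (bif decide (z.2.1 = z.1) then (z.1, z.2.2.1, z.2.2.1, z.2.2.2.1, 1)
    else (z.1, P.F z.2.1, (bif decide (valB z.2.1 < valB z.2.2.1) then z.2.1 else z.2.2.1),
      z.2.2.2.1, 0))
  else (z.1, P.F z.2.1, z.2.2.1, sC A (inp z.2.1) (decide (z.2.1 = z.1)) z.2.2.2.1,
    bif decide (P.F z.2.1 = z.2.2.1) then 2 else 1)

variable {inp} in
theorem poly_G' (hinp : NPC.Poly inp) : NPC.Poly (G A P inp) := by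
  have h1 : NPC.Poly (fun z : Stt k => z.1) := NPC.Poly.fst NPC.Poly.id
  have h2 : NPC.Poly (fun z : Stt k => z.2.1) := NPC.Poly.fst (NPC.Poly.snd NPC.Poly.id)
  have h3 : NPC.Poly (fun z : Stt k => z.2.2.1) :=
    NPC.Poly.fst (NPC.Poly.snd (NPC.Poly.snd NPC.Poly.id))
  have h4 : NPC.Poly (fun z : Stt k => z.2.2.2.1) :=
    NPC.Poly.fst (NPC.Poly.snd (NPC.Poly.snd (NPC.Poly.snd NPC.Poly.id)))
  have h5 : NPC.Poly (fun z : Stt k => z.2.2.2.2) :=
    NPC.Poly.snd (NPC.Poly.snd (NPC.Poly.snd (NPC.Poly.snd NPC.Poly.id)))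
  refine NPC.Poly.cond (NPC.Poly.decide_eq h5 (NPC.Poly.const 0)) ?_ ?_
  · refine NPC.Poly.cond (NPC.Poly.decide_eq h2 h1)
      (h1.pair (h3.pair (h3.pair (h4.pair (NPC.Poly.const 1))))) ?_
    exact h1.pair ((P.poly_F.comp h2).pair ((NPC.Poly.cond (NPC.Poly.decide_lt
      (NPC.Poly.valBits h2) (NPC.Poly.valBits h3)) h2 h3).pair (h4.pair (NPC.Poly.const 0))))
  · exact h1.pair ((P.poly_F.comp h2).pair (h3.pair ((poly_sC A hinp h2
      (NPC.Poly.decide_eq h2 h1) h4).pair
      (NPC.Poly.cond (NPC.Poly.decide_eq (P.poly_F.comp h2) h3) (NPC.Poly.const 2)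
        (NPC.Poly.const 1)))))

/-- the initial state of the process -/
noncomputable def ini (x : List Bool) : Stt k := (x, P.F x, x, sI, 0)

theorem run0 (x : List Bool) : ∀ j, j < P.N x →
    (G A P inp)^[j] (ini P x) = (x, P.F^[j + 1] x, mn P x j, sI, 0) := by
  intro j
  induction j with
  | zero => intro _; rfl
  | succ j ih =>
    intro hj
    rw [Function.iterate_succ_apply', ih (by omega)]
    have h1 : P.F^[j + 1] x ≠ x := P.iter_ne (by omega) hj
    unfold G
    simp only [decide_true, cond_true, h1, decide_false, cond_false, mn]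
    rw [← Function.iterate_succ_apply' P.F (j + 1) x]

theorem run1 (x : List Bool) :
    (G A P inp)^[P.N x] (ini P x) = (x, base P x, base P x, sI, 1) := by
  have h0 := P.N_pos x
  have h1 := run0 A P inp x (P.N x - 1) (by omega)
  rw [Nat.sub_add_cancel h0, P.iter_N] at h1
  conv_lhs => rw [show P.N x = (P.N x - 1) + 1 by omega]
  rw [Function.iterate_succ_apply', h1]
  simp [G, base]

theorem run2 (x : List Bool) : ∀ j, j ≤ P.N x →
    (G A P inp)^[j] (x, base P x, base P x, sI, 1) =
      (x, P.F^[j] (base P x), base P x, sAt A (lt P inp (base P x)) (idx P x) j,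
        if j = P.N x then 2 else 1) := by
  intro j
  induction j with
  | zero =>
    intro _
    have h0 := P.N_pos x
    rw [if_neg (by omega)]
    simp [sAt]
  | succ j ih =>
    intro hj
    rw [Function.iterate_succ_apply', ih (by omega), if_neg (by omega)]
    have h1 : (P.F^[j] (base P x) = x) ↔ j = idx P x := by
      constructor
      · intro h; exact (idx_unique P (by omega) h).symm
      · rintro rfl; exact iter_idx P x
    have h2 : (P.F (P.F^[j] (base P x)) = base P x) ↔ j + 1 = P.N x := by
      rw [← Function.iterate_succ_apply' P.F j]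
      constructor
      · intro h
        by_contra hne
        refine P.iter_ne (x := base P x) (n := j + 1) (by omega) ?_ h
        rw [N_base]; omega
      · intro h
        change P.F^[j + 1] (base P x) = base P x
        rw [h, ← N_base, P.iter_N]
    have h3 : decide (P.F^[j] (base P x) = x) = decide (j = idx P x) := decide_eq_decide.2 h1
    unfold G
    simp only [one_ne_zero, decide_false, cond_false, Function.iterate_succ_apply' P.F j, h3]
    congr 4
    by_cases h : j + 1 = P.N x
    · rw [if_pos h, decide_eq_true (h2.2 h), cond_true]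
    · rw [if_neg h, decide_eq_false (fun h' => h (h2.1 h')), cond_false]

/-- Running the automaton around the cycle is possible in polynomial space. -/
theorem inPSPACE_fin {inp : List Bool → Fin s} (hinp : NPC.Poly inp) (Q : Sta k → Bool) :
    InPSPACE {x | x ∈ P.X ∧ Q (fin A P inp x) = true} := by
  obtain ⟨C, hC⟩ := exists_sz_le (Sta k)
  have hsz : ∀ (x y z : List Bool) (q : Sta k) (p : ℕ), y.length = x.length →
      z.length = x.length → p ≤ 2 → sz ((x, y, z, q, p) : Stt k) ≤ 12 * x.length + C + 40 := by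
    intro x y z q p hy hz hp
    have h1 := sz_listBool_le x
    have h2 := sz_listBool_le y
    have h3 := sz_listBool_le z
    have h4 := hC q
    have h5 := sz_nat_le p
    have h7 : p.size ≤ p := NPC.Poly.size_le_self _
    simp only [sz_pair]
    omega
  refine inPSPACE_iter (G A P inp) (fun z => decide (z.2.2.2.2 = 2))
    (acc := fun z => P.b z.1 && Q z.2.2.2.1) (init := ini P) (poly_G' A P hinp)
    (NPC.Poly.decide_eq (NPC.Poly.snd (NPC.Poly.snd (NPC.Poly.snd (NPC.Poly.snd NPC.Poly.id))))
      (NPC.Poly.const 2))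
    (NPC.Poly.and (P.poly_b.comp (NPC.Poly.fst NPC.Poly.id)) (NPC.Poly.comp (g := Q)
      (f := fun z : Stt k => z.2.2.2.1) (poly_finite Q)
      (NPC.Poly.fst (NPC.Poly.snd (NPC.Poly.snd (NPC.Poly.snd NPC.Poly.id))))))
    (NPC.Poly.id.pair (P.poly_F.pair (NPC.Poly.id.pair ((NPC.Poly.const _).pair
      (NPC.Poly.const 0)))))
    (Polynomial.C 12 * Polynomial.X + Polynomial.C (C + 40)) fun x => ?_
  have key : ∀ i ≤ P.N x + P.N x, (i < P.N x ∧ (G A P inp)^[i] (ini P x) =
      (x, P.F^[i + 1] x, mn P x i, sI, 0)) ∨ ∃ j, i = P.N x + j ∧ j ≤ P.N x ∧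
      (G A P inp)^[i] (ini P x) = (x, P.F^[j] (base P x), base P x,
        sAt A (lt P inp (base P x)) (idx P x) j, if j = P.N x then 2 else 1) := by
    intro i hi
    rcases Nat.lt_or_ge i (P.N x) with h | h
    · exact Or.inl ⟨h, run0 A P inp x i h⟩
    · refine Or.inr ⟨i - P.N x, by omega, by omega, ?_⟩
      rw [← run2 A P inp x _ (by omega), ← run1, ← Function.iterate_add_apply]
      congr 2
      omega
  have h0 := P.N_pos x
  refine ⟨P.N x + P.N x, ?_, ?_, ?_, ?_⟩
  · rcases key _ le_rfl with ⟨h, _⟩ | ⟨j, h1, h2, h3⟩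
    · omega
    · rw [h3, if_pos (by omega)]; rfl
  · intro i hi
    rcases key i hi.le with ⟨h, h3⟩ | ⟨j, h1, h2, h3⟩
    · rw [h3]; rfl
    · rw [h3, if_neg (by omega)]; rfl
  · intro i hi
    simp only [Polynomial.eval_add, Polynomial.eval_mul, Polynomial.eval_C, Polynomial.eval_X]
    rcases key i hi with ⟨h, h3⟩ | ⟨j, h1, h2, h3⟩
    · rw [h3]
      have := hsz x (P.F^[i + 1] x) (mn P x i) sI 0 (P.length_iter _ _) (mn_length P x i)
        (by omega)
      omega
    · rw [h3]
      have := hsz x (P.F^[j] (base P x)) (base P x)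
        (sAt A (lt P inp (base P x)) (idx P x) j)
        (if j = P.N x then 2 else 1) (by rw [P.length_iter, base_length]) (base_length P x)
        (by split_ifs <;> omega)
      omega
  · rcases key _ le_rfl with ⟨h, _⟩ | ⟨j, h1, h2, h3⟩
    · omega
    · rw [h3]
      have h4 : j = P.N x := by omega
      subst h4
      simp only [Set.mem_ofPred_eq, Bool.and_eq_true, ← P.b_iff]
      rfl

/-- the labelling -/
noncomputable def labU (d : Fin k) (x : List Bool) : Fin k := rd d (fin A P inp x)

theorem lt_base_F (x : List Bool) : lt P inp (base P (P.F x)) = lt P inp (base P x) := by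
  rw [base_F]

theorem labU_eq {d : Fin k} {x : List Bool}
    (h : ∃ v, Wl A (lt P inp (base P x)) (P.N x) v v) :
    labU A P inp d x = cw A (lt P inp (base P x)) (P.N x)
      (sl {v | Wl A (lt P inp (base P x)) (P.N x) v v} d)
      (sl {v | Wl A (lt P inp (base P x)) (P.N x) v v} d) (idx P x) := by
  have h2 : {v | ((fin A P inp x) v v).isSome = true} =
      {v | Wl A (lt P inp (base P x)) (P.N x) v v} := by
    ext v
    exact kn_sAt A (lt P inp (base P x)) (idx P x) (P.N x) v v
  unfold labU rd
  rw [h2]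
  have h4 := final_value (sl_mem (U := {v | Wl A (lt P inp (base P x)) (P.N x) v v}) h d)
    (idx_lt P x)
  unfold fin
  rw [h4]
  rfl

theorem labU_step {d : Fin k} {x : List Bool}
    (h : ∃ v, Wl A (lt P inp (base P x)) (P.N x) v v) :
    A (inp x) (labU A P inp d x) (labU A P inp d (P.F x)) := by
  have h' : ∃ v, Wl A (lt P inp (base P (P.F x))) (P.N (P.F x)) v v := by
    rw [N_F, lt_base_F]; exact h
  rw [labU_eq A P inp h, labU_eq A P inp h', N_F, idx_F, lt_base_F]
  have h3 := sl_mem (U := {v | Wl A (lt P inp (base P x)) (P.N x) v v}) h d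
  have hi := idx_lt P x
  have h4 := (cw_edge h3 hi).1
  have h5 : lt P inp (base P x) (idx P x) = inp x := by
    unfold lt
    rw [iter_idx]
  rw [h5] at h4
  split_ifs with h5
  · exact h4
  · have h6 : idx P x + 1 = P.N x := by omega
    rw [h6, cw_end] at h4
    rw [cw_zero h3]
    exact h4

theorem base_mem {x : List Bool} (hx : x ∈ P.X) : base P x ∈ P.X := by
  obtain ⟨i, _, h⟩ := base_orbit P x
  rw [h]
  exact P.mem_iter hx i

/-- **Upper bound.** Every polynomial-time permutation with input labels that has a solution has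
one whose classes are in `PSPACE`. -/
theorem upper {inp : List Bool → Fin s} (hinp : NPC.Poly inp) (h : ∃ c, Sol A P inp c) :
    ∃ c, Sol A P inp c ∧ ∀ T : Set (Fin k), InPSPACE {x | x ∈ P.X ∧ c x ∈ T} := by
  classical
  obtain ⟨c0, hc0⟩ := h
  refine ⟨labU A P inp (c0 []), fun x hx => ?_, fun T => ?_⟩
  · rw [← P.F_mem hx]
    apply labU_step
    refine ⟨c0 (base P x), ?_⟩
    have h1 := sol_word hc0 (base_mem P hx) (P.N x)
    have h2 : P.F^[P.N x] (base P x) = base P x := by rw [← N_base, P.iter_N]
    rw [h2] at h1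
    exact h1
  · have h1 := inPSPACE_fin A P hinp (fun t => decide (rd (c0 []) t ∈ T))
    simpa [labU] using h1

end Pool.Agent.V7H67.LI
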