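import Pool.Agent.V7H67.LI.Tur
import Pool.Agent.V7H67.LI.Upper
import Pool.Agent.V7H67.LL.Conv

/-!
# Problems that are not local are as hard as polynomial space
-/

namespace Pool.Agent.V7H67.LI

open Pool.Agent.NPC Pool.Agent.NPC.PIso Pool.Agent.V7H67.LL

/-- a coding of a finite type -/
@[instance_reducible] noncomputable def tencFinite (S : Type) [Finite S] : TEnc S :=
  ⟨fun a => toT (Finite.equivFin S a), fun _ _ h => (Finite.equivFin S).injective (TEnc.inj h)⟩

/-- a finite family of polynomial-time functions -/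
theorem poly_pi {α V S : Type} [TEnc α] [Finite V] [TEnc S] [Finite S] {g : V → α → S}
    (hg : ∀ v, NPC.Poly (g v)) : NPC.Poly (fun a => fun v => g v a) := by
  classical
  rcases isEmpty_or_nonempty α with h | ⟨⟨a0⟩⟩
  · exact poly_finite _
  · have := Fintype.ofFinite V
    have key : ∀ l : List V, ∃ f : α → (V → S), NPC.Poly f ∧ ∀ v ∈ l, ∀ a, f a v = g v a := by
      intro l
      induction l with
      | nil => exact ⟨fun _ v => g v a0, NPC.Poly.const _, fun v hv => by simp at hv⟩
      | cons w l ih =>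
        obtain ⟨f, hf, h⟩ := ih
        refine ⟨fun a => Function.update (f a) w (g w a), ?_, fun v hv a => ?_⟩
        · exact NPC.Poly.comp (g := fun q : (V → S) × S => Function.update q.1 w q.2)
            (f := fun a => (f a, g w a)) (poly_finite _) (hf.pair (hg w))
        · by_cases hvw : v = w
          · subst hvw
            simp
          · simp only [Function.update_of_ne hvw]
            exact h v (by simpa [hvw] using hv) a
    obtain ⟨f, hf, h⟩ := key (Finset.univ : Finset V).toList
    refine hf.congr fun a => ?_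
    funext v
    exact h v (by simp) a

section Hard

variable {s k : ℕ} {B : Fin s → Rel k} {V K : Type} [TEnc V] [Finite V] [TEnc K] [Finite K]

theorem hard_des (S : Des B V K) (v0 : V) (σ0 : Fin s) (κ0 : K) :
    ∃ (P : PPerm) (inp : List Bool → Fin s), NPC.Poly inp ∧ (∃ c, Sol B P inp c) ∧
      ∀ (k' m : ℕ) (d : List Bool → Fin k') (q : Fin m → List Bool → List Bool)
        (E : List Bool × (Fin m → Fin k') → Fin k), (∀ i, NPC.Poly (q i)) → NPC.Poly E →
        Sol B P inp (fun x => E (x, fun i => d (q i x))) →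
        ∀ L, H623R2.PS.InPSPACE L → InPGiven d L := by
  classical
  obtain ⟨L₀, hL₀, hred⟩ := exists_complete
  obtain ⟨D⟩ := exists_sys hL₀
  obtain ⟨R, ok, hok, ho⟩ := exists_nodes (poly_dl D) κ0
  refine ⟨pm S R hok v0, ip S R hok v0 σ0, poly_ip S R hok v0 σ0, exists_sol S R,
    fun k' m d q E hq hE hc L hL => ?_⟩
  have hN : 0 < Nat.card K := (Nat.zero_le _).trans_lt (nm_lt K κ0)
  have := Fintype.ofFinite V
  let lst : List (V × Fin m) := (Finset.univ : Finset (V × Fin m)).toList
  have hmem : ∀ p, p ∈ lst := fun p => by simp [lst]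
  let rpt : V → List Bool → List Bool := fun v => rp S R hok v
  let qs : List Bool → List (List Bool) := fun y => lst.map fun p => q p.2 (rpt p.1 y)
  have hqs : NPC.Poly qs := poly_fixed (f := fun (p : V × Fin m) y => q p.2 (rpt p.1 y))
    (fun p => (hq p.2).comp (poly_rp S R p.1)) lst
  let ans : List (Fin k') → V → Fin m → Fin k' := fun l v i => l.getD (lst.idxOf (v, i)) (d [])
  have hans : ∀ y v i, ans ((qs y).map d) v i = d (q i (rpt v y)) := by
    intro y v i
    have h1 : lst.idxOf (v, i) < lst.length := List.idxOf_lt_length_of_mem (hmem (v, i))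
    have h2 : lst.idxOf (v, i) < ((qs y).map d).length := by
      simpa [qs] using h1
    change ((qs y).map d).getD _ _ = _
    rw [List.getD_eq_getElem _ _ h2]
    simp [qs]
  let μ : List Bool × List (Fin k') → V → Fin k := fun w v => E (rpt v w.1, ans w.2 v)
  have hμ : NPC.Poly μ := by
    refine poly_pi (g := fun v (w : List Bool × List (Fin k')) => E (rpt v w.1, ans w.2 v))
      fun v => ?_
    have h1 : NPC.Poly (fun w : List Bool × List (Fin k') => rpt v w.1) :=
      (poly_rp S R v).comp (NPC.Poly.fst NPC.Poly.id)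
    have h2 : NPC.Poly (fun w : List Bool × List (Fin k') => ans w.2 v) :=
      poly_pi (g := fun i (w : List Bool × List (Fin k')) => w.2.getD (lst.idxOf (v, i)) (d []))
        fun i => NPC.Poly.getD (NPC.Poly.snd NPC.Poly.id) (NPC.Poly.const _) (NPC.Poly.const _)
    exact hE.comp (h1.pair h2)
  let g : List Bool × List (Fin k') → ℕ := fun w => nm K (ex S (μ w))
  have hg : NPC.Poly g := NPC.Poly.comp (g := fun ν : V → Fin k => nm K (ex S ν)) (f := μ)
    (poly_finite _) hμ
  have he : ∀ y, hxo g qs d y = nm K (ex S (fun v => E (rpt v y, fun i => d (q i (rpt v y))))) := by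
    intro y
    unfold hxo
    simp only [g, μ]
    congr 2
    funext v
    congr 2
    funext i
    exact hans y v i
  refine InPRel.given (InPRel.of_reduces (hred L hL) (inPRel_of_exclusion D hN hg hqs
    (fun y => ?_) fun h Q S' => ?_))
  · rw [he]
    exact nm_lt K _
  · intro he'
    rw [he] at he'
    have h1 := ex_ne S R hc (bits ((h, Q, S') : In))
    rw [ho, di_bits] at h1
    apply h1
    rw [← he', un_nm]

end Hard

/-- **Problems that are not local.** -/
theorem hard {s k : ℕ} (A : Fin s → Rel k) (hk : 0 < k) (hA : ¬ LocB (trim A)) :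
    ∃ (P : PPerm) (inp : List Bool → Fin s), NPC.Poly inp ∧ (∃ c, Sol A P inp c) ∧
      ∀ (k' m : ℕ) (d : List Bool → Fin k') (q : Fin m → List Bool → List Bool)
        (E : List Bool × (Fin m → Fin k') → Fin k), (∀ i, NPC.Poly (q i)) → NPC.Poly E →
        Sol A P inp (fun x => E (x, fun i => d (q i x))) →
        ∀ L, H623R2.PS.InPSPACE L → InPGiven d L := by
  obtain ⟨S⟩ := exists_des A hk hA
  obtain ⟨κ0, v0, _⟩ := S.unsat fun _ => ⟨0, hk⟩
  obtain ⟨σ0, _, _⟩ := List.exists_cons_of_ne_nil (S.u_ne v0)
  let : TEnc (Vt A) := tencFinite _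
  let : TEnc (At A) := tencFinite _
  obtain ⟨P, inp, h1, ⟨c, h2⟩, h3⟩ := hard_des S v0 σ0 κ0
  exact ⟨P, inp, h1, ⟨c, sol_of_trim h2⟩,
    fun k' m d q E hq hE hc => h3 k' m d q E hq hE (sol_trim hc)⟩

end Pool.Agent.V7H67.LI
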