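import Pool.Agent.V7H67.LI.Path
import Pool.Agent.V7H67.LL.Easy

/-!
# Labelling the blocks between marked points
-/

namespace Pool.Agent.V7H67.LI

open Pool.Agent.NPC Pool.Agent.NPC.PIso Pool.Agent.V7H67.LL

/-- A polynomial-time set of marked points that is met by every orbit within a polynomial number of
steps. -/
structure Mark (P : PPerm) where
  /-- the marked points -/
  m : List Bool → Bool
  /-- the bound -/
  B : List Bool → ℕ
  poly_m : NPC.Poly m
  upoly_B : UPoly B
  B_inv : ∀ (k : ℤ) x, B ((P.e ^ k) x) = B x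
  ex : ∀ x, ∃ k : ℤ, |k| ≤ B x ∧ m ((P.e ^ k) x) = true

namespace Mark

variable {P : PPerm} (M : Mark P)

/-- the range of the search -/
def N1 (x : List Bool) : ℕ := 2 * M.B x + 2

/-- the number of steps back to the last marked point -/
noncomputable def bk (x : List Bool) : ℕ :=
  lst (M.N1 x) fun i => M.m (P.G^[min i (M.N1 x)] x)

/-- one less than the number of steps to the next marked point -/
noncomputable def fw (x : List Bool) : ℕ :=
  lst (M.N1 x) fun i => M.m (P.F^[min (i + 1) (M.N1 x)] x)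

theorem bk_spec (x : List Bool) : M.m (P.G^[M.bk x] x) = true ∧
    (∀ i < M.bk x, M.m (P.G^[i] x) = false) ∧ M.bk x < M.N1 x := by
  obtain ⟨k, h1, h2⟩ := M.ex ((P.e ^ (-(M.B x : ℤ))) x)
  rw [M.B_inv] at h1
  obtain ⟨a1, a2⟩ := abs_le.1 h1
  obtain ⟨i, hi⟩ : ∃ i : ℕ, (i : ℤ) = M.B x - k := ⟨(M.B x - k).toNat, by omega⟩
  have h3 : M.m (P.G^[i] x) = true := by
    rw [P.iterG_eq_zpow, hi]
    rw [← Equiv.Perm.mul_apply, ← zpow_add] at h2
    rwa [show -((M.B x : ℤ) - k) = k + -(M.B x : ℤ) by ring]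
  obtain ⟨b1, b2, b3⟩ := lst_spec (N := M.N1 x)
    (p := fun i => M.m (P.G^[min i (M.N1 x)] x)) ⟨i, by unfold N1; omega, by
      rw [min_eq_left (by unfold N1; omega)]
      exact h3⟩
  change M.m (P.G^[min (M.bk x) (M.N1 x)] x) = true at b1
  change M.bk x < M.N1 x at b2
  rw [min_eq_left b2.le] at b1
  refine ⟨b1, fun j hj => ?_, b2⟩
  have b4 := b3 j hj
  rwa [min_eq_left (by omega)] at b4

theorem fw_spec (x : List Bool) : M.m (P.F^[M.fw x + 1] x) = true ∧
    (∀ i < M.fw x, M.m (P.F^[i + 1] x) = false) ∧ M.fw x < M.N1 x := by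
  obtain ⟨k, h1, h2⟩ := M.ex ((P.e ^ ((M.B x : ℤ) + 1)) x)
  rw [M.B_inv] at h1
  obtain ⟨a1, a2⟩ := abs_le.1 h1
  obtain ⟨i, hi⟩ : ∃ i : ℕ, ((i + 1 : ℕ) : ℤ) = M.B x + 1 + k :=
    ⟨(M.B x + k).toNat, by push_cast; omega⟩
  have h3 : M.m (P.F^[i + 1] x) = true := by
    rw [P.iter_eq_zpow, hi]
    rw [← Equiv.Perm.mul_apply, ← zpow_add] at h2
    rwa [show (M.B x : ℤ) + 1 + k = k + ((M.B x : ℤ) + 1) by ring]
  obtain ⟨b1, b2, b3⟩ := lst_spec (N := M.N1 x)
    (p := fun i => M.m (P.F^[min (i + 1) (M.N1 x)] x)) ⟨i, by unfold N1; omega, by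
      rw [min_eq_left (by unfold N1; omega)]
      exact h3⟩
  change M.m (P.F^[min (M.fw x + 1) (M.N1 x)] x) = true at b1
  change M.fw x < M.N1 x at b2
  rw [min_eq_left b2] at b1
  refine ⟨b1, fun j hj => ?_, b2⟩
  have b4 := b3 j hj
  rwa [min_eq_left (by omega)] at b4

theorem bk_unique {x : List Bool} {j : ℕ} (h1 : M.m (P.G^[j] x) = true)
    (h2 : ∀ i < j, M.m (P.G^[i] x) = false) : M.bk x = j := by
  obtain ⟨h3, h4, _⟩ := M.bk_spec x
  rcases Nat.lt_trichotomy (M.bk x) j with h | h | h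
  · rw [h2 _ h] at h3; exact absurd h3 (by simp)
  · exact h
  · rw [h4 _ h] at h1; exact absurd h1 (by simp)

theorem fw_unique {x : List Bool} {j : ℕ} (h1 : M.m (P.F^[j + 1] x) = true)
    (h2 : ∀ i < j, M.m (P.F^[i + 1] x) = false) : M.fw x = j := by
  obtain ⟨h3, h4, _⟩ := M.fw_spec x
  rcases Nat.lt_trichotomy (M.fw x) j with h | h | h
  · rw [h2 _ h] at h3; exact absurd h3 (by simp)
  · exact h
  · rw [h4 _ h] at h1; exact absurd h1 (by simp)

theorem step_mark {x : List Bool} (h : M.m (P.F x) = true) :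
    M.bk (P.F x) = 0 ∧ M.fw x = 0 :=
  ⟨M.bk_unique h fun i hi => by omega, M.fw_unique h fun i hi => by omega⟩

theorem step_not {x : List Bool} (h : M.m (P.F x) = false) :
    M.bk (P.F x) = M.bk x + 1 ∧ M.fw x = M.fw (P.F x) + 1 := by
  constructor
  · obtain ⟨h1, h2, _⟩ := M.bk_spec x
    refine M.bk_unique ?_ fun i hi => ?_
    · rw [Function.iterate_succ_apply, P.G_F]; exact h1
    · cases i with
      | zero => exact h
      | succ i => rw [Function.iterate_succ_apply, P.G_F]; exact h2 i (by omega)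
  · obtain ⟨h1, h2, _⟩ := M.fw_spec (P.F x)
    refine M.fw_unique ?_ fun i hi => ?_
    · rw [Function.iterate_succ_apply]; exact h1
    · cases i with
      | zero => exact h
      | succ i => rw [Function.iterate_succ_apply]; exact h2 i (by omega)

/-- the distance between the two marked points around a point -/
noncomputable def gap (x : List Bool) : ℕ := M.bk x + M.fw x + 1

/-- the last marked point -/
noncomputable def st (x : List Bool) : List Bool := P.G^[M.bk x] x

theorem st_mark (x : List Bool) : M.m (M.st x) = true := (M.bk_spec x).1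

theorem iter_st (x : List Bool) : P.F^[M.bk x] (M.st x) = x := by
  unfold st
  rw [P.iterG_eq_zpow, P.iter_eq_zpow, ← Equiv.Perm.mul_apply, ← zpow_add]
  simp

theorem gap_iter (x : List Bool) : P.F^[M.gap x] (M.st x) = P.F^[M.fw x + 1] x := by
  unfold st
  rw [P.iterG_eq_zpow, P.iter_eq_zpow, P.iter_eq_zpow, ← Equiv.Perm.mul_apply, ← zpow_add]
  congr 2
  unfold gap
  push_cast
  ring

/-- no marked points between the last one and the next one -/
theorem between {x : List Bool} {j : ℕ} (h0 : 0 < j) (hj : j < M.gap x) :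
    M.m (P.F^[j] (M.st x)) = false := by
  unfold st
  rcases Nat.lt_or_ge (M.bk x) j with h | h
  · have h1 : P.F^[j] (P.G^[M.bk x] x) = P.F^[(j - M.bk x - 1) + 1] x := by
      rw [P.iterG_eq_zpow, P.iter_eq_zpow, P.iter_eq_zpow, ← Equiv.Perm.mul_apply, ← zpow_add]
      congr 2
      omega
    rw [h1]
    exact (M.fw_spec x).2.1 _ (by unfold gap at hj; omega)
  · have h1 : P.F^[j] (P.G^[M.bk x] x) = P.G^[M.bk x - j] x := by
      rw [P.iterG_eq_zpow, P.iter_eq_zpow, P.iterG_eq_zpow, ← Equiv.Perm.mul_apply, ← zpow_add]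
      congr 2
      omega
    rw [h1]
    exact (M.bk_spec x).2.1 _ (by omega)

theorem next_mark (x : List Bool) : M.m (P.F^[M.gap x] (M.st x)) = true := by
  rw [gap_iter]
  exact (M.fw_spec x).1

theorem st_of_mark {x : List Bool} (h : M.m x = true) : M.bk x = 0 ∧ M.st x = x := by
  have h1 : M.bk x = 0 := M.bk_unique h fun i hi => by omega
  refine ⟨h1, ?_⟩
  unfold st
  rw [h1]
  rfl

theorem gap_st (x : List Bool) : M.gap (M.st x) = M.gap x := by
  have h1 := M.st_of_mark (M.st_mark x)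
  have h2 : M.fw (M.st x) = M.gap x - 1 := by
    have h3 : 0 < M.gap x := by unfold gap; omega
    refine M.fw_unique ?_ fun i hi => M.between (by omega) (by omega)
    rw [Nat.sub_add_cancel h3]
    exact M.next_mark x
  have h3 : 0 < M.gap x := by unfold gap; omega
  conv_lhs => unfold gap
  rw [h1.1, h2]
  omega

theorem step_same {x : List Bool} (h : M.m (P.F x) = false) :
    M.st (P.F x) = M.st x ∧ M.gap (P.F x) = M.gap x := by
  obtain ⟨h1, h2⟩ := M.step_not h
  constructor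
  · unfold st
    rw [h1, Function.iterate_succ_apply, P.G_F]
  · unfold gap
    omega

/-! ### Polynomial time -/

theorem upoly_N1 : UPoly M.N1 :=
  UPoly.add (UPoly.mul (UPoly.const 2) M.upoly_B) (UPoly.const 2)

theorem poly_bk : NPC.Poly M.bk := by
  refine poly_lst (p := fun x i => M.m (P.G^[min i (M.N1 x)] x)) M.upoly_N1 ?_
  exact M.poly_m.comp (poly_iter P.poly_G P.length_G (NPC.Poly.fst NPC.Poly.id)
    (NPC.Poly.snd NPC.Poly.id) (M.upoly_N1.comp (NPC.Poly.fst NPC.Poly.id)))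

theorem poly_fw : NPC.Poly M.fw := by
  refine poly_lst (p := fun x i => M.m (P.F^[min (i + 1) (M.N1 x)] x)) M.upoly_N1 ?_
  exact M.poly_m.comp (poly_iter P.poly_F P.length_F (NPC.Poly.fst NPC.Poly.id)
    (NPC.Poly.add (NPC.Poly.snd NPC.Poly.id) (NPC.Poly.const 1))
    (M.upoly_N1.comp (NPC.Poly.fst NPC.Poly.id)))

theorem upoly_bk : UPoly M.bk := UPoly.of_le M.poly_bk M.upoly_N1 fun x => (M.bk_spec x).2.2.le

theorem upoly_fw : UPoly M.fw := UPoly.of_le M.poly_fw M.upoly_N1 fun x => (M.fw_spec x).2.2.le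

theorem upoly_gap : UPoly M.gap := UPoly.add (UPoly.add M.upoly_bk M.upoly_fw) (UPoly.const 1)

theorem poly_st : NPC.Poly M.st :=
  (poly_iter P.poly_G P.length_G NPC.Poly.id M.poly_bk M.upoly_bk).congr fun x => by
    rw [min_self]
    rfl

theorem poly_en : NPC.Poly (fun x => P.F^[M.gap x] (M.st x)) :=
  (poly_iter P.poly_F P.length_F M.poly_st M.upoly_gap.toPoly M.upoly_gap).congr fun x => by
    rw [min_self]

/-! ### The labelling -/

variable {s k : ℕ} (A : Fin s → Rel k) (inp : List Bool → Fin s) (μ : List Bool → Fin k)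

/-- the labelling obtained from labels of the marked points -/
noncomputable def lab (x : List Bool) : Fin k :=
  (sAt A (lt P inp (M.st x)) (M.bk x) (M.gap x) (μ (M.st x)) (μ (P.F^[M.gap x] (M.st x)))).getD
    (μ (M.st x))

variable {A inp μ}

theorem poly_lab (hinp : NPC.Poly inp) (hμ : NPC.Poly μ) : NPC.Poly (M.lab A inp μ) := by
  have h1 := poly_sAt A P hinp M.poly_st M.poly_bk M.upoly_gap
  have h2 : NPC.Poly (fun x => μ (M.st x)) := hμ.comp M.poly_st
  have h3 : NPC.Poly (fun x => μ (P.F^[M.gap x] (M.st x))) :=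
    NPC.Poly.comp (g := μ) (f := fun x => P.F^[M.gap x] (M.st x)) hμ M.poly_en
  exact NPC.Poly.comp (g := fun q : Sta k × Fin k × Fin k => (q.1 q.2.1 q.2.2).getD q.2.1)
    (f := fun x => (sAt A (lt P inp (M.st x)) (M.bk x) (M.gap x), μ (M.st x),
      μ (P.F^[M.gap x] (M.st x)))) (poly_finite _) (h1.pair (h2.pair h3))

theorem lab_eq {x : List Bool}
    (h : Wl A (lt P inp (M.st x)) (M.gap x) (μ (M.st x)) (μ (P.F^[M.gap x] (M.st x)))) :
    M.lab A inp μ x = cw A (lt P inp (M.st x)) (M.gap x) (μ (M.st x))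
      (μ (P.F^[M.gap x] (M.st x))) (M.bk x) := by
  unfold lab
  rw [final_value h (by unfold gap; omega)]
  rfl

theorem lab_sol (h : ∀ y ∈ P.X, M.m y = true →
    Wl A (lt P inp y) (M.gap y) (μ y) (μ (P.F^[M.gap y] y))) : Sol A P inp (M.lab A inp μ) := by
  have hst : ∀ x ∈ P.X, Wl A (lt P inp (M.st x)) (M.gap x) (μ (M.st x))
      (μ (P.F^[M.gap x] (M.st x))) := by
    intro x hx
    have h1 := h (M.st x) (P.mem_iterG hx _) (M.st_mark x)
    rwa [M.gap_st] at h1
  intro x hx
  rw [← P.F_mem hx]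
  have h1 := hst x hx
  have h2 := hst _ (P.mem_F hx)
  have h3 := (cw_edge h1 (i := M.bk x) (by unfold gap; omega)).1
  have h4 : lt P inp (M.st x) (M.bk x) = inp x := by
    unfold lt
    rw [M.iter_st]
  rw [h4] at h3
  rw [M.lab_eq h1, M.lab_eq h2]
  cases ha : M.m (P.F x) with
  | true =>
    obtain ⟨h5, h6⟩ := M.step_mark ha
    have h7 : M.gap x = M.bk x + 1 := by unfold gap; omega
    have h8 : M.st (P.F x) = P.F x := (M.st_of_mark ha).2
    have h9 : P.F^[M.gap x] (M.st x) = P.F x := by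
      rw [M.gap_iter, h6]
      rfl
    have e0 := cw_zero h2
    rw [h5, e0, h8]
    have e1 : cw A (lt P inp (M.st x)) (M.gap x) (μ (M.st x)) (μ (P.F^[M.gap x] (M.st x)))
        (M.bk x + 1) = μ (P.F x) := by
      rw [← h7, cw_end, h9]
    rw [← e1]
    exact h3
  | false =>
    obtain ⟨h5, h6⟩ := M.step_not ha
    obtain ⟨h7, h8⟩ := M.step_same ha
    rw [h5, h7, h8]
    exact h3

end Mark

end Pool.Agent.V7H67.LI
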