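import Pool.Agent.V7H67.LI.Out

/-!
# The self-reducible tree of an iteration
-/

namespace Pool.Agent.V7H67.LI

open Pool.Agent.NPC Pool.Agent.NPC.PIso Pool.Agent.V7H67.LL

/-- nodes `(i, a, b, j, q)`: the iterate `2 ^ i` of `a` has quotient `q` by `2 ^ j`, and the iterate
`2 ^ (i + 1)` of `a` is `b` -/
abbrev Nd := ℕ × ℕ × ℕ × ℕ × ℕ

variable (δ : ℕ → ℕ)

/-- the truncated step -/
def tn (n c : ℕ) : ℕ := bif decide (δ c < 2 ^ n) then δ c else 0

theorem tn_lt (n c : ℕ) : tn δ n c < 2 ^ n := by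
  unfold tn
  by_cases h : δ c < 2 ^ n
  · simp [h]
  · simp [h]

theorem tn_iter_lt (n c : ℕ) {m : ℕ} (hm : 0 < m) : (tn δ n)^[m] c < 2 ^ n := by
  obtain ⟨m', rfl⟩ : ∃ m', m = m' + 1 := ⟨m - 1, by omega⟩
  rw [Function.iterate_succ_apply']
  exact tn_lt δ n _

/-- the value of a node -/
def vl (n : ℕ) (u : Nd) : Bool :=
  decide ((tn δ n)^[2 ^ (min u.1 n)] u.2.1 / 2 ^ (min u.2.2.2.1 n) = u.2.2.2.2) &&
    decide ((tn δ n)^[2 ^ (min u.1 n + 1)] u.2.1 = u.2.2.1)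

/-- nodes with bounded entries -/
def Gd (n : ℕ) (u : Nd) : Prop :=
  u.1 ≤ n ∧ u.2.1 ≤ 2 ^ n ∧ u.2.2.1 ≤ 2 ^ n ∧ u.2.2.2.1 ≤ n ∧ u.2.2.2.2 ≤ 2 ^ n

/-- the first child -/
def c1 (n : ℕ) (u : Nd) : Nd :=
  bif decide (u.2.2.2.1 = 0) then (u.1 - 1, u.2.1, u.2.2.2.2, n, 0)
  else (u.1, u.2.1, u.2.2.1, u.2.2.2.1 - 1, min (2 * u.2.2.2.2) (2 ^ n))

/-- the second child -/
def c2 (n : ℕ) (u : Nd) : Nd :=
  bif decide (u.2.2.2.1 = 0) then (u.1 - 1, u.2.2.2.2, u.2.2.1, n, 0)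
  else (u.1, u.2.1, u.2.2.1, u.2.2.2.1 - 1, min (2 * u.2.2.2.2 + 1) (2 ^ n))

/-- the value of a node from the values of its children -/
def cb (n : ℕ) (u : Nd) (x y : Bool) : Bool :=
  bif decide (u.2.2.2.1 = 0) then (bif decide (u.1 = 0) then
    (decide (tn δ n u.2.1 = u.2.2.2.2) && decide (tn δ n u.2.2.2.2 = u.2.2.1)) else x && y)
  else x || y

/-- the rank of a node -/
def rank (n : ℕ) (u : Nd) : ℕ := u.1 * (n + 1) + u.2.2.2.1

theorem gd_c1 {n : ℕ} {u : Nd} (h : Gd n u) : Gd n (c1 n u) := by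
  obtain ⟨i, a, b, j, q⟩ := u
  obtain ⟨h1, h2, h3, h4, h5⟩ := h
  simp only at h1 h2 h3 h4 h5
  have hp : 0 < 2 ^ n := Nat.two_pow_pos n
  unfold c1
  by_cases hj : j = 0
  · simp only [hj, decide_true, cond_true]
    exact ⟨by simp only; omega, h2, h5, le_rfl, Nat.zero_le _⟩
  · simp only [hj, decide_false, cond_false]
    exact ⟨h1, h2, h3, by simp only; omega, min_le_right _ _⟩

theorem gd_c2 {n : ℕ} {u : Nd} (h : Gd n u) : Gd n (c2 n u) := by
  obtain ⟨i, a, b, j, q⟩ := u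
  obtain ⟨h1, h2, h3, h4, h5⟩ := h
  simp only at h1 h2 h3 h4 h5
  unfold c2
  by_cases hj : j = 0
  · simp only [hj, decide_true, cond_true]
    exact ⟨by simp only; omega, h5, h3, le_rfl, Nat.zero_le _⟩
  · simp only [hj, decide_false, cond_false]
    exact ⟨h1, h2, h3, by simp only; omega, min_le_right _ _⟩

theorem rank_c1 {n : ℕ} {u : Nd} (h : 0 < rank n u) : rank n (c1 n u) + 1 = rank n u := by
  obtain ⟨i, a, b, j, q⟩ := u
  unfold rank at h
  unfold c1 rank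
  simp only at h
  by_cases hj : j = 0
  · subst hj
    simp only [decide_true, cond_true]
    obtain ⟨i', rfl⟩ : ∃ i', i = i' + 1 := ⟨i - 1, by
      rcases Nat.eq_zero_or_pos i with rfl | hi
      · simp at h
      · omega⟩
    simp only [Nat.add_sub_cancel]
    ring
  · simp only [hj, decide_false, cond_false]
    omega

theorem rank_c2 {n : ℕ} {u : Nd} (h : 0 < rank n u) : rank n (c2 n u) + 1 = rank n u := by
  obtain ⟨i, a, b, j, q⟩ := u
  unfold rank at h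
  unfold c2 rank
  simp only at h
  by_cases hj : j = 0
  · subst hj
    simp only [decide_true, cond_true]
    obtain ⟨i', rfl⟩ : ∃ i', i = i' + 1 := ⟨i - 1, by
      rcases Nat.eq_zero_or_pos i with rfl | hi
      · simp at h
      · omega⟩
    simp only [Nat.add_sub_cancel]
    ring
  · simp only [hj, decide_false, cond_false]
    omega

theorem div_step {z n j q : ℕ} (hz : z < 2 ^ n) : (decide (z / 2 ^ (j + 1) = q)) =
    (decide (z / 2 ^ j = min (2 * q) (2 ^ n)) || decide (z / 2 ^ j = min (2 * q + 1) (2 ^ n))) := by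
  have h1 : z / 2 ^ (j + 1) = z / 2 ^ j / 2 := by rw [pow_succ, Nat.div_div_eq_div_mul]
  have h2 : z / 2 ^ j < 2 ^ n := (Nat.div_le_self _ _).trans_lt hz
  rw [h1]
  generalize z / 2 ^ j = y at h2
  generalize 2 ^ n = M at h2
  rw [Bool.eq_iff_iff, Bool.or_eq_true, decide_eq_true_iff, decide_eq_true_iff,
    decide_eq_true_iff]
  omega

/-- the value of a node is determined by the values of its children -/
theorem vl_eq {n : ℕ} {u : Nd} (h : Gd n u) :
    vl δ n u = cb δ n u (vl δ n (c1 n u)) (vl δ n (c2 n u)) := by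
  obtain ⟨i, a, b, j, q⟩ := u
  obtain ⟨h1, h2, h3, h4, h5⟩ := h
  simp only at h1 h2 h3 h4 h5
  have hpi : ∀ i, 0 < 2 ^ i := fun i => Nat.two_pow_pos i
  by_cases hj : j = 0
  · subst hj
    by_cases hi : i = 0
    · subst hi
      simp only [vl, cb, Nat.zero_min, pow_zero, Nat.div_one, zero_add, pow_one, decide_true,
        cond_true, Function.iterate_one]
      rw [Bool.eq_iff_iff, Bool.and_eq_true, Bool.and_eq_true]
      simp only [decide_eq_true_iff]
      constructor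
      · rintro ⟨rfl, e2⟩
        exact ⟨rfl, e2⟩
      · rintro ⟨rfl, e2⟩
        exact ⟨rfl, e2⟩
    · obtain ⟨i', rfl⟩ : ∃ i', i = i' + 1 := ⟨i - 1, by omega⟩
      have e1 : min (i' + 1) n = i' + 1 := min_eq_left h1
      have e2 : min i' n = i' := min_eq_left (by omega)
      have e3 : decide (i' + 1 = 0) = false := by simp
      have e5 : ∀ c, (tn δ n)^[2 ^ i'] c / 2 ^ n = 0 := fun c =>
        Nat.div_eq_of_lt (tn_iter_lt δ n c (hpi i'))
      simp only [vl, cb, c1, c2, decide_true, cond_true, e3, cond_false, Nat.add_sub_cancel, e1,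
        e2, min_self, e5, Bool.true_and, Nat.zero_min, pow_zero, Nat.div_one]
      rw [Bool.eq_iff_iff, Bool.and_eq_true, Bool.and_eq_true]
      simp only [decide_eq_true_iff]
      have e6 : (tn δ n)^[2 ^ (i' + 1 + 1)] a =
          (tn δ n)^[2 ^ (i' + 1)] ((tn δ n)^[2 ^ (i' + 1)] a) := by
        rw [← Function.iterate_add_apply]
        congr 2
        ring
      rw [e6]
      constructor
      · rintro ⟨rfl, e2⟩
        exact ⟨rfl, e2⟩
      · rintro ⟨rfl, e2⟩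
        exact ⟨rfl, e2⟩
  · obtain ⟨j', rfl⟩ : ∃ j', j = j' + 1 := ⟨j - 1, by omega⟩
    have e1 : min (j' + 1) n = j' + 1 := min_eq_left h4
    have e2 : min j' n = j' := min_eq_left (by omega)
    have e3 : decide (j' + 1 = 0) = false := by simp
    simp only [vl, cb, c1, c2, e3, cond_false, Nat.add_sub_cancel, e1, e2]
    rw [div_step (tn_iter_lt δ n a (hpi _)), Bool.and_or_distrib_right]

theorem cb_leaf {n : ℕ} {u : Nd} (h : Gd n u) (h0 : rank n u = 0) (x y : Bool) :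
    cb δ n u x y = vl δ n u := by
  rw [vl_eq δ h]
  obtain ⟨i, a, b, j, q⟩ := u
  unfold rank at h0
  simp only [Nat.add_eq_zero_iff, Nat.mul_eq_zero] at h0
  have hi : i = 0 := by omega
  have hj : j = 0 := h0.2
  simp [cb, hi, hj]

/-! ### Polynomial time -/

variable {δ}

section Pol

variable {α : Type} [TEnc α] {n : α → ℕ} {u : α → Nd}

theorem poly_tn (hδ : NPC.Poly δ) (hn : UPoly n) {c : α → ℕ} (hc : NPC.Poly c) :
    NPC.Poly (fun a => tn δ (n a) (c a)) :=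
  NPC.Poly.cond (NPC.Poly.decide_lt (hδ.comp hc) (poly_two_pow hn)) (hδ.comp hc)
    (NPC.Poly.const 0)

theorem poly_c1 (hn : UPoly n) (hu : NPC.Poly u) : NPC.Poly (fun a => c1 (n a) (u a)) := by
  have h1 := NPC.Poly.fst hu
  have h2 := NPC.Poly.fst (NPC.Poly.snd hu)
  have h3 := NPC.Poly.fst (NPC.Poly.snd (NPC.Poly.snd hu))
  have h4 := NPC.Poly.fst (NPC.Poly.snd (NPC.Poly.snd (NPC.Poly.snd hu)))
  have h5 := NPC.Poly.snd (NPC.Poly.snd (NPC.Poly.snd (NPC.Poly.snd hu)))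
  exact NPC.Poly.cond (NPC.Poly.decide_eq h4 (NPC.Poly.const 0))
    ((NPC.Poly.sub h1 (NPC.Poly.const 1)).pair (h2.pair (h5.pair (hn.toPoly.pair
      (NPC.Poly.const 0)))))
    (h1.pair (h2.pair (h3.pair ((NPC.Poly.sub h4 (NPC.Poly.const 1)).pair (NPC.Poly.min
      (NPC.Poly.mul (NPC.Poly.const 2) h5) (poly_two_pow hn))))))

theorem poly_c2 (hn : UPoly n) (hu : NPC.Poly u) : NPC.Poly (fun a => c2 (n a) (u a)) := by
  have h1 := NPC.Poly.fst hu
  have h2 := NPC.Poly.fst (NPC.Poly.snd hu)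
  have h3 := NPC.Poly.fst (NPC.Poly.snd (NPC.Poly.snd hu))
  have h4 := NPC.Poly.fst (NPC.Poly.snd (NPC.Poly.snd (NPC.Poly.snd hu)))
  have h5 := NPC.Poly.snd (NPC.Poly.snd (NPC.Poly.snd (NPC.Poly.snd hu)))
  exact NPC.Poly.cond (NPC.Poly.decide_eq h4 (NPC.Poly.const 0))
    ((NPC.Poly.sub h1 (NPC.Poly.const 1)).pair (h5.pair (h3.pair (hn.toPoly.pair
      (NPC.Poly.const 0)))))
    (h1.pair (h2.pair (h3.pair ((NPC.Poly.sub h4 (NPC.Poly.const 1)).pair (NPC.Poly.min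
      (NPC.Poly.add (NPC.Poly.mul (NPC.Poly.const 2) h5) (NPC.Poly.const 1))
        (poly_two_pow hn))))))

theorem poly_cb (hδ : NPC.Poly δ) (hn : UPoly n) (hu : NPC.Poly u) {x y : α → Bool}
    (hx : NPC.Poly x) (hy : NPC.Poly y) : NPC.Poly (fun a => cb δ (n a) (u a) (x a) (y a)) := by
  have h1 := NPC.Poly.fst hu
  have h2 := NPC.Poly.fst (NPC.Poly.snd hu)
  have h3 := NPC.Poly.fst (NPC.Poly.snd (NPC.Poly.snd hu))
  have h4 := NPC.Poly.fst (NPC.Poly.snd (NPC.Poly.snd (NPC.Poly.snd hu)))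
  have h5 := NPC.Poly.snd (NPC.Poly.snd (NPC.Poly.snd (NPC.Poly.snd hu)))
  exact NPC.Poly.cond (NPC.Poly.decide_eq h4 (NPC.Poly.const 0))
    (NPC.Poly.cond (NPC.Poly.decide_eq h1 (NPC.Poly.const 0))
      (NPC.Poly.and (NPC.Poly.decide_eq (poly_tn hδ hn h2) h5)
        (NPC.Poly.decide_eq (poly_tn hδ hn h5) h3)) (NPC.Poly.and hx hy)) (NPC.Poly.or hx hy)

end Pol

end Pool.Agent.V7H67.LI
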