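import Pool.Agent.V7H67.LI.Eval

/-!
# Polynomial time with an oracle
-/

namespace Pool.Agent.V7H67.LI

open Pool.Agent.NPC Pool.Agent.NPC.PIso Pool.Agent.V7H67.LL

/-- One round of an oracle computation in the state `z`: the strings `Q z` are queried, and the
new state is computed from `z` and the answers. -/
def rnd {k : ℕ} (c : List Bool → Fin k) (Q : List Bool → List (List Bool))
    (S : List Bool × List (Fin k) → List Bool) (z : List Bool) : List Bool := S (z, (Q z).map c)

/-- The language `L` is decided in polynomial time with the oracle `c`: there are polynomial-time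
functions `I` (initial state), `Q` (queries), `S` (next state) and `O` (output, `none` if the
computation has not ended), such that on every input the computation ends after polynomially many
rounds with the correct output and all states are polynomially short. -/
def InPRel {k : ℕ} (c : List Bool → Fin k) (L : Set (List Bool)) : Prop :=
  ∃ (I : List Bool → List Bool) (Q : List Bool → List (List Bool))
    (S : List Bool × List (Fin k) → List Bool) (O : List Bool → Option Bool) (p : Polynomial ℕ),
    NPC.Poly I ∧ NPC.Poly Q ∧ NPC.Poly S ∧ NPC.Poly O ∧ ∀ x : List Bool,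
      ∃ n ≤ p.eval x.length, (∀ i ≤ n, ((rnd c Q S)^[i] (I x)).length ≤ p.eval x.length) ∧
        (∀ i < n, O ((rnd c Q S)^[i] (I x)) = none) ∧
        ∃ b, O ((rnd c Q S)^[n] (I x)) = some b ∧ (b = true ↔ x ∈ L)

theorem InPRel.of_reduces {k : ℕ} {c : List Bool → Fin k} {L L' : Set (List Bool)}
    (h : Reduces L L') (h' : InPRel c L') : InPRel c L := by
  obtain ⟨f, hf, hL⟩ := h
  obtain ⟨I, Q, S, O, p, h1, h2, h3, h4, h5⟩ := h'
  obtain ⟨q, hq⟩ := length_bound (poly_iff.2 hf)
  refine ⟨fun x => I (f x), Q, S, O, p.comp q, h1.comp (poly_iff.2 hf), h2, h3, h4, fun x => ?_⟩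
  obtain ⟨n, a1, a2, a3, b, a4, a5⟩ := h5 (f x)
  have e1 : p.eval (f x).length ≤ (p.comp q).eval x.length := by
    rw [Polynomial.eval_comp]
    exact eval_mono p (hq x)
  exact ⟨n, a1.trans e1, fun i hi => (a2 i hi).trans e1, a3, b, a4, a5.trans (hL x).symm⟩

/-- With a polynomial-time oracle only languages in `P` are decided. -/
theorem InPRel.inP {k : ℕ} {c : List Bool → Fin k} (hc : NPC.Poly c) {L : Set (List Bool)}
    (h : InPRel c L) : InP L := by
  obtain ⟨I, Q, S, O, p, h1, h2, h3, h4, h5⟩ := h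
  have hr : NPC.Poly (rnd c Q S) := h3.comp (NPC.Poly.id.pair
    (NPC.Poly.map (F := fun _ y => c y) h2 (hc.comp (NPC.Poly.snd NPC.Poly.id))))
  -- the process that stops
  let G : List Bool → List Bool := fun z => bif (O z).isSome then z else rnd c Q S z
  have hG : NPC.Poly G := NPC.Poly.cond (NPC.Poly.isSome h4) NPC.Poly.id hr
  choose n a1 a2 a3 b a4 a5 using h5
  have hit : ∀ x i, i ≤ n x → G^[i] (I x) = (rnd c Q S)^[i] (I x) := by
    intro x i
    induction i with
    | zero => intro _; rfl
    | succ i ih =>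
      intro hi
      rw [Function.iterate_succ_apply', Function.iterate_succ_apply', ih (by omega)]
      simp only [G, a3 x i (by omega), Option.isSome_none, cond_false]
  have hst : ∀ x m, G^[n x + m] (I x) = (rnd c Q S)^[n x] (I x) := by
    intro x m
    induction m with
    | zero => exact hit x _ le_rfl
    | succ m ih =>
      rw [← Nat.add_assoc, Function.iterate_succ_apply', ih]
      simp only [G, a4 x, Option.isSome_some, cond_true]
  have hle : ∀ x i, (G^[i] (I x)).length ≤ p.eval x.length := by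
    intro x i
    rcases Nat.lt_or_ge i (n x) with h | h
    · rw [hit x i h.le]
      exact a2 x i h.le
    · obtain ⟨m, rfl⟩ := Nat.exists_eq_add_of_le h
      rw [hst x m]
      exact a2 x _ le_rfl
  have hU : NPC.Poly (fun x : List Bool => List.replicate (p.eval x.length) ()) :=
    UPoly.eval (UPoly.length NPC.Poly.id) p
  obtain ⟨q, hq⟩ := hU.sz_le
  have hiter : NPC.Poly (fun x => G^[p.eval x.length] (I x)) := by
    have hG' : NPC.Poly (fun q : List Bool × List Bool => G q.2) :=
      hG.comp (NPC.Poly.snd NPC.Poly.id)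
    have hb : ∀ x m, m ≤ (List.replicate (p.eval x.length) ()).length →
        sz ((fun z => G z)^[m] (I x)) ≤ (4 * q + 1).eval (sz x) := by
      intro x m _
      have b1 := sz_listBool_le (G^[m] (I x))
      have b2 := hle x m
      have b3 := hq x
      have b4 := length_lt_sz (List.replicate (p.eval x.length) ())
      rw [List.length_replicate] at b4
      simp only [Polynomial.eval_add, Polynomial.eval_mul, Polynomial.eval_one,
        Polynomial.eval_ofNat]
      change sz (G^[m] (I x)) ≤ _
      omega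
    have h := NPC.Poly.iterLen (F := fun (_ : List Bool) z => G z)
      (l := fun x => List.replicate (p.eval x.length) ()) hU h1 hG' (4 * q + 1) hb
    exact h.congr fun x => by rw [List.length_replicate]
  refine ⟨fun x => [(O (G^[p.eval x.length] (I x))).getD false], polyTime_of_poly ?_, fun x => ?_⟩
  · exact (NPC.Poly.optCases (o := fun x => O (G^[p.eval x.length] (I x)))
      (g := fun _ => false) (h := fun _ b => b) (h4.comp hiter) (NPC.Poly.const _)
      (NPC.Poly.snd NPC.Poly.id)).congr fun x => by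
        cases O (G^[p.eval x.length] (I x)) <;> rfl
  · obtain ⟨m, hm⟩ := Nat.exists_eq_add_of_le (a1 x)
    have e1 : O (G^[p.eval x.length] (I x)) = some (b x) := by
      rw [hm, hst, a4]
    simp only [e1, Option.getD_some, List.cons.injEq, and_true]
    exact (a5 x).symm

section Typed

variable {k : ℕ} {α : Type} [TEnc α] [TDec α]

/-- oracle computations with typed states -/
theorem inPRel_typed {c : List Bool → Fin k} {L : Set (List Bool)} {I : List Bool → α}
    {Q : α → List (List Bool)} {S : α × List (Fin k) → α} {O : α → Option Bool}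
    (p : Polynomial ℕ) (h1 : NPC.Poly I) (h2 : NPC.Poly Q) (h3 : NPC.Poly S) (h4 : NPC.Poly O)
    (h5 : ∀ x : List Bool, ∃ n ≤ p.eval x.length,
      (∀ i ≤ n, sz ((fun z => S (z, (Q z).map c))^[i] (I x)) ≤ p.eval x.length) ∧
      (∀ i < n, O ((fun z => S (z, (Q z).map c))^[i] (I x)) = none) ∧
      ∃ b, O ((fun z => S (z, (Q z).map c))^[n] (I x)) = some b ∧ (b = true ↔ x ∈ L)) :
    InPRel c L := by
  have hu : NPC.Poly (unbits α) := poly_unbits
  refine ⟨fun x => bits (I x), fun w => match unbits α w with | none => [] | some z => Q z,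
    fun w => match unbits α w.1 with | none => [] | some z => bits (S (z, w.2)),
    fun w => match unbits α w with | none => none | some z => O z, p, poly_bits.comp h1, ?_, ?_, ?_,
    fun x => ?_⟩
  · exact NPC.Poly.optCases (g := fun _ => []) (h := fun _ z => Q z) hu (NPC.Poly.const _)
      (h2.comp (NPC.Poly.snd NPC.Poly.id))
  · have h6 : NPC.Poly (fun q : (List Bool × List (Fin k)) × α => bits (S (q.2, q.1.2))) :=
      poly_bits.comp (h3.comp ((NPC.Poly.snd NPC.Poly.id).pair
        (NPC.Poly.snd (NPC.Poly.fst NPC.Poly.id))))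
    exact NPC.Poly.optCases (o := fun w : List Bool × List (Fin k) => unbits α w.1)
      (g := fun _ => []) (h := fun w z => bits (S (z, w.2)))
      (hu.comp (NPC.Poly.fst NPC.Poly.id)) (NPC.Poly.const _) h6
  · exact NPC.Poly.optCases (g := fun _ => none) (h := fun _ z => O z) hu (NPC.Poly.const _)
      (h4.comp (NPC.Poly.snd NPC.Poly.id))
  · obtain ⟨n, a1, a2, a3, b, a4, a5⟩ := h5 x
    have hit : ∀ i, (rnd c (fun w => match unbits α w with | none => [] | some z => Q z)
        (fun w => match unbits α w.1 with | none => [] | some z => bits (S (z, w.2))))^[i]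
        (bits (I x)) = bits ((fun z => S (z, (Q z).map c))^[i] (I x)) := by
      intro i
      induction i with
      | zero => rfl
      | succ i ih =>
        rw [Function.iterate_succ_apply', Function.iterate_succ_apply', ih]
        unfold rnd
        simp only [unbits_bits]
    refine ⟨n, a1, fun i hi => ?_, fun i hi => ?_, b, ?_, a5⟩
    · rw [hit, bits_length]
      exact a2 i hi
    · rw [hit]
      simp only [unbits_bits]
      exact a3 i hi
    · rw [hit]
      simp only [unbits_bits]
      exact a4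

end Typed

section Algo

variable (δ : ℕ → ℕ) (N M E : ℕ)

/-- one exclusion, with a given excluded outcome -/
def redv (N : ℕ) (z : Cs) (e : ℕ) : Cs :=
  (z.1, z.2.1, bif decide (z.2.2.length < N) then z.2.2 else
    (z.2.2.zipIdx.filter fun p => keep N e p.2).map Prod.fst)

theorem poly_redv (N : ℕ) {α : Type} [TEnc α] {z : α → Cs} {e : α → ℕ} (hz : NPC.Poly z)
    (he : NPC.Poly e) : NPC.Poly (fun a => redv N (z a) (e a)) := by
  have h1 : NPC.Poly (fun a => (z a).1) := NPC.Poly.fst hz
  have h2 : NPC.Poly (fun a => (z a).2.1) := NPC.Poly.fst (NPC.Poly.snd hz)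
  have h3 : NPC.Poly (fun a => (z a).2.2) := NPC.Poly.snd (NPC.Poly.snd hz)
  refine h1.pair (h2.pair (NPC.Poly.cond (NPC.Poly.decide_lt (NPC.Poly.length h3)
    (NPC.Poly.const N)) h3 ?_))
  have a1 : NPC.Poly (fun q : α × ((List Bool × Bool) × ℕ) => e q.1) :=
    he.comp (NPC.Poly.fst NPC.Poly.id)
  have a2 : NPC.Poly (fun q : α × ((List Bool × Bool) × ℕ) => q.2.2) :=
    NPC.Poly.snd (NPC.Poly.snd NPC.Poly.id)
  have a3 : NPC.Poly (fun q : α × ((List Bool × Bool) × ℕ) => keep N (e q.1) q.2.2) :=
    NPC.Poly.cond (NPC.Poly.decide_eq a1 (NPC.Poly.const _))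
      (NPC.Poly.decide_lt a2 (NPC.Poly.const _)) (NPC.Poly.not (NPC.Poly.decide_eq a2 a1))
  have a4 : NPC.Poly (fun a => (z a).2.2.zipIdx.filter fun p => keep N (e a) p.2) :=
    NPC.Poly.filter (p := fun a (p : (List Bool × Bool) × ℕ) => keep N (e a) p.2)
      (NPC.Poly.zipIdx h3) a3
  exact NPC.Poly.map (F := fun (_ : α) (p : (List Bool × Bool) × ℕ) => p.1) a4
    (NPC.Poly.fst (NPC.Poly.snd NPC.Poly.id))

/-- the code of the query of a state -/
def yq (z : Cs) : List Bool := bits ((z.1, z.2.1, z.2.2.map Prod.fst) : In)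

theorem poly_yq : NPC.Poly yq := by
  have h1 : NPC.Poly (fun z : Cs => z.1) := NPC.Poly.fst NPC.Poly.id
  have h2 : NPC.Poly (fun z : Cs => z.2.1) := NPC.Poly.fst (NPC.Poly.snd NPC.Poly.id)
  have h3 : NPC.Poly (fun z : Cs => z.2.2) := NPC.Poly.snd (NPC.Poly.snd NPC.Poly.id)
  have h4 : NPC.Poly (fun z : Cs => z.2.2.map Prod.fst) :=
    NPC.Poly.map (F := fun _ p => p.1) h3 (NPC.Poly.fst (NPC.Poly.snd NPC.Poly.id))
  exact poly_bits.comp (h1.pair (h2.pair h4))

variable {k : ℕ} (g : List Bool × List (Fin k) → ℕ) (qs : List Bool → List (List Bool))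

/-- the next state: the first component counts the remaining levels, the second one the steps
inside a level -/
def nxs (w : ((ℕ × ℕ) × Cs) × List (Fin k)) : (ℕ × ℕ) × Cs :=
  bif decide (w.1.1.2 = 0) then ((w.1.1.1, 1), expd δ M w.1.2)
  else bif decide (w.1.1.2 ≤ E) then ((w.1.1.1, w.1.1.2 + 1), redv N w.1.2 (g (yq w.1.2, w.2)))
  else ((w.1.1.1 - 1, 0), sel M w.1.2)

variable {δ g qs} in
theorem poly_nxs (hδ : NPC.Poly δ) (hg : NPC.Poly g) : NPC.Poly (nxs δ N M E g) := by
  have w1 : NPC.Poly (fun w : ((ℕ × ℕ) × Cs) × List (Fin k) => w.1.1.1) :=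
    NPC.Poly.fst (NPC.Poly.fst (NPC.Poly.fst NPC.Poly.id))
  have w2 : NPC.Poly (fun w : ((ℕ × ℕ) × Cs) × List (Fin k) => w.1.1.2) :=
    NPC.Poly.snd (NPC.Poly.fst (NPC.Poly.fst NPC.Poly.id))
  have w3 : NPC.Poly (fun w : ((ℕ × ℕ) × Cs) × List (Fin k) => w.1.2) :=
    NPC.Poly.snd (NPC.Poly.fst NPC.Poly.id)
  have w4 : NPC.Poly (fun w : ((ℕ × ℕ) × Cs) × List (Fin k) => w.2) := NPC.Poly.snd NPC.Poly.id
  exact NPC.Poly.cond (NPC.Poly.decide_eq w2 (NPC.Poly.const 0))
    ((w1.pair (NPC.Poly.const 1)).pair ((poly_expd hδ M).comp w3))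
    (NPC.Poly.cond (NPC.Poly.decide_le w2 (NPC.Poly.const E))
      ((w1.pair (NPC.Poly.add w2 (NPC.Poly.const 1))).pair
        (poly_redv N w3 (hg.comp ((poly_yq.comp w3).pair w4))))
      (((NPC.Poly.sub w1 (NPC.Poly.const 1)).pair (NPC.Poly.const 0)).pair
        ((poly_sel M).comp w3)))

variable (c : List Bool → Fin k)

/-- the round with the oracle -/
def Gs (z : (ℕ × ℕ) × Cs) : (ℕ × ℕ) × Cs := nxs δ N M E g (z, (qs (yq z.2)).map c)

/-- the excluded outcome -/
def hxo (y : List Bool) : ℕ := g (y, (qs y).map c)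

theorem Gs_red (n i : ℕ) (z : Cs) (hi : i ≤ E) : (Gs δ N M E g qs c)^[i] ((n, 1), z) =
    ((n, 1 + i), (red N (hxo g qs c))^[i] z) := by
  induction i with
  | zero => rfl
  | succ i ih =>
    rw [Function.iterate_succ_apply', ih (by omega), Function.iterate_succ_apply']
    unfold Gs nxs
    simp only
    rw [decide_eq_false (by omega), cond_false, decide_eq_true (by omega), cond_true]
    rfl

theorem Gs_lev (n : ℕ) (z : Cs) : (Gs δ N M E g qs c)^[E + 2] ((n, 0), z) =
    ((n - 1, 0), lev δ N (hxo g qs c) M E z) := by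
  have h1 : Gs δ N M E g qs c ((n, 0), z) = ((n, 1), expd δ M z) := by
    unfold Gs nxs
    simp
  rw [show E + 2 = (E + 1) + 1 by ring, Function.iterate_succ_apply, h1,
    Function.iterate_succ_apply', Gs_red δ N M E g qs c n E _ le_rfl]
  unfold Gs nxs lev
  simp only
  rw [decide_eq_false (by omega), cond_false, decide_eq_false (by omega), cond_false]

theorem Gs_pos (n r : ℕ) (hr : r < E + 2) (z : Cs) :
    ((Gs δ N M E g qs c)^[r] ((n, 0), z)).1.1 = n := by
  cases r with
  | zero => rfl
  | succ r =>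
    have h1 : Gs δ N M E g qs c ((n, 0), z) = ((n, 1), expd δ M z) := by
      unfold Gs nxs
      simp
    rw [Function.iterate_succ_apply, h1, Gs_red δ N M E g qs c n r _ (by omega)]

theorem Gs_levs (n m : ℕ) (z : Cs) : (Gs δ N M E g qs c)^[(E + 2) * m] ((n, 0), z) =
    ((n - m, 0), (lev δ N (hxo g qs c) M E)^[m] z) := by
  induction m with
  | zero => rfl
  | succ m ih =>
    rw [Nat.mul_succ, add_comm, Function.iterate_add_apply, ih, Gs_lev,
      Function.iterate_succ_apply', Nat.sub_sub]

variable {δ g qs} in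
/-- a bound for the size after some rounds -/
theorem sz_rounds (hδ : NPC.Poly δ) (hg : NPC.Poly g) (hqs : NPC.Poly qs) (R : ℕ) :
    ∃ q : Polynomial ℕ, ∀ z r, r ≤ R → sz ((Gs δ N M E g qs c)^[r] z) ≤ q.eval (sz z) := by
  obtain ⟨C, hC⟩ := exists_sz_le (Fin k)
  obtain ⟨p1, hp1⟩ := (poly_nxs N M E hδ hg).sz_le
  have hQ : NPC.Poly (fun z : (ℕ × ℕ) × Cs => qs (yq z.2)) :=
    hqs.comp (poly_yq.comp (NPC.Poly.snd NPC.Poly.id))
  obtain ⟨p2, hp2⟩ := hQ.sz_le
  let r1 : Polynomial ℕ := p1.comp (Polynomial.X + (p2 * Polynomial.C (C + 1) + 1) + 1)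
  have h1 : ∀ z, sz (Gs δ N M E g qs c z) ≤ r1.eval (sz z) := by
    intro z
    refine (hp1 _).trans ?_
    simp only [r1, Polynomial.eval_comp]
    refine eval_mono p1 ?_
    have a1 := sz_le_length_mul ((qs (yq z.2)).map c) C (fun a _ => hC a)
    have a2 := hp2 z
    have a3 := length_lt_sz (qs (yq z.2))
    rw [List.length_map] at a1
    have a4 : (qs (yq z.2)).length * (C + 1) ≤ p2.eval (sz z) * (C + 1) :=
      Nat.mul_le_mul_right _ (by omega)
    simp only [sz_pair, Polynomial.eval_add, Polynomial.eval_mul, Polynomial.eval_X,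
      Polynomial.eval_C, Polynomial.eval_one]
    have a5 : sz z.1 + sz z.2 + 1 = sz z := (sz_pair _ _).symm
    omega
  induction R with
  | zero =>
    refine ⟨Polynomial.X, fun z r hr => ?_⟩
    have : r = 0 := by omega
    subst this
    simp
  | succ R ih =>
    obtain ⟨q, hq⟩ := ih
    refine ⟨q + r1.comp q, fun z r hr => ?_⟩
    rw [Polynomial.eval_add, Polynomial.eval_comp]
    rcases Nat.lt_or_ge r (R + 1) with h | h
    · exact (hq z r (by omega)).trans (Nat.le_add_right _ _)
    · have : r = R + 1 := by omega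
      subst this
      rw [Function.iterate_succ_apply']
      exact ((h1 _).trans (eval_mono r1 (hq z R le_rfl))).trans (Nat.le_add_left _ _)

end Algo

/-- **Collapse with an oracle.** -/
theorem inPRel_of_exclusion {L : Set (List Bool)} (D : Sys L) {N k : ℕ} (hN : 0 < N)
    {c : List Bool → Fin k} {g : List Bool × List (Fin k) → ℕ}
    {qs : List Bool → List (List Bool)} (hg : NPC.Poly g) (hqs : NPC.Poly qs)
    (hlt : ∀ y, hxo g qs c y < N) (hne : ∀ (h : List Bool) (S : List Nd) (Q : List (List Bool)),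
      hxo g qs c (bits ((h, S, Q) : In)) ≠ ixf N Q (S.map (vl (dl D) h.length))) :
    InPRel c L := by
  set M := N * N with hM
  have hM0 : 0 < M := Nat.mul_pos hN hN
  set E := (AV M).length * (N + 1) with hE
  have hJ : ∀ x, ∀ m ≤ lv D x, J (dl D) N M (nn D x) (lv D x - m)
      (vl (dl D) (nn D x) (root D x)) ((lev (dl D) N (hxo g qs c) M E)^[m] (ini0 D x)) := by
    intro x m
    induction m with
    | zero => intro _; exact ini0_J D hN hM0 x
    | succ m ih =>
      intro hm
      rw [Function.iterate_succ_apply']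
      have h1 := ih (by omega)
      have e1 : lv D x - m = (lv D x - (m + 1)) + 1 := by omega
      rw [e1] at h1
      exact lev_J hN hlt hne le_rfl le_rfl h1
  obtain ⟨q, hq⟩ := sz_rounds (δ := dl D) N M E c (poly_dl D) hg hqs (E + 1)
  -- the number of levels and the size of the states between levels
  let nnp : Polynomial ℕ := D.N + 2
  have hnn : ∀ x, nn D x = nnp.eval x.length := fun x => by simp [nnp, nn]
  let lvp : Polynomial ℕ := (nnp + 1) * (nnp + 1)
  have hlv : ∀ x, lv D x ≤ lvp.eval x.length := by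
    intro x
    have h1 : lvp.eval x.length = (nn D x + 1) * (nn D x + 1) := by
      simp only [lvp, Polynomial.eval_mul, Polynomial.eval_add, Polynomial.eval_one, ← hnn]
    rw [h1]
    unfold lv
    have h2 : (nn D x - 1) * (nn D x + 1) ≤ nn D x * (nn D x + 1) :=
      Nat.mul_le_mul_right _ (Nat.sub_le _ _)
    nlinarith
  let bp : Polynomial ℕ := Polynomial.C (20 * M + 4) * nnp +
    Polynomial.C (41 * M + (N + 1) * (4 * M + 7) + 10) + 4 * lvp + 20
  have hb : ∀ x, ∀ m ≤ lv D x, sz (((lv D x - m, 0),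
      (lev (dl D) N (hxo g qs c) M E)^[m] (ini0 D x)) : (ℕ × ℕ) × Cs) ≤ bp.eval x.length := by
    intro x m hm
    have h1 := sz_J (hJ x m hm)
    have h2 := sz_nat_le (lv D x - m)
    have h3 : (lv D x - m).size ≤ lv D x - m := NPC.Poly.size_le_self _
    have h4 := hlv x
    have h5 : sz (0 : ℕ) = 1 := rfl
    have h6 : bp.eval x.length = (20 * M + 4) * nn D x +
        (41 * M + (N + 1) * (4 * M + 7) + 10) + 4 * lvp.eval x.length + 20 := by
      simp only [bp, Polynomial.eval_add, Polynomial.eval_mul, Polynomial.eval_C,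
        Polynomial.eval_ofNat, ← hnn]
    rw [h6]
    simp only [sz_pair]
    omega
  refine inPRel_typed (α := (ℕ × ℕ) × Cs) (I := fun x => ((lv D x, 0), ini0 D x))
    (Q := fun z => qs (yq z.2)) (S := nxs (dl D) N M E g)
    (O := fun z => bif decide (z.1.1 = 0) then some (ans (dl D) z.2) else none)
    (Polynomial.C (E + 2) * lvp + q.comp bp) ?_ ?_ (poly_nxs N M E (poly_dl D) hg) ?_ fun x => ?_
  · exact ((upoly_lv D).toPoly.pair (NPC.Poly.const 0)).pair (poly_ini0 D)
  · exact hqs.comp (poly_yq.comp (NPC.Poly.snd NPC.Poly.id))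
  · exact NPC.Poly.cond (NPC.Poly.decide_eq (NPC.Poly.fst (NPC.Poly.fst NPC.Poly.id))
      (NPC.Poly.const 0)) (NPC.Poly.some ((poly_ans (poly_dl D)).comp (NPC.Poly.snd NPC.Poly.id)))
      (NPC.Poly.const none)
  · have hp : (Polynomial.C (E + 2) * lvp + q.comp bp).eval x.length =
        (E + 2) * lvp.eval x.length + q.eval (bp.eval x.length) := by
      simp only [Polynomial.eval_add, Polynomial.eval_mul, Polynomial.eval_C,
        Polynomial.eval_comp]
    rw [hp]
    have hiter : ∀ i, (fun z : (ℕ × ℕ) × Cs => nxs (dl D) N M E g (z, (qs (yq z.2)).map c))^[i]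
        ((lv D x, 0), ini0 D x) = (Gs (dl D) N M E g qs c)^[i] ((lv D x, 0), ini0 D x) :=
      fun i => rfl
    have hdec : ∀ i, (Gs (dl D) N M E g qs c)^[i] ((lv D x, 0), ini0 D x) =
        (Gs (dl D) N M E g qs c)^[i % (E + 2)] ((lv D x - i / (E + 2), 0),
          (lev (dl D) N (hxo g qs c) M E)^[i / (E + 2)] (ini0 D x)) := by
      intro i
      rw [← Gs_levs, ← Function.iterate_add_apply, Nat.mod_add_div]
    refine ⟨(E + 2) * lv D x, (Nat.mul_le_mul_left _ (hlv x)).trans (Nat.le_add_right _ _),
      fun i hi => ?_, fun i hi => ?_, vl (dl D) (nn D x) (root D x), ?_, root_value D x⟩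
    · rw [hiter, hdec]
      have h1 : i / (E + 2) ≤ lv D x := by
        rw [Nat.div_le_iff_le_mul_add_pred (by omega)]
        omega
      have h2 := hq ((lv D x - i / (E + 2), 0),
          (lev (dl D) N (hxo g qs c) M E)^[i / (E + 2)] (ini0 D x)) (i % (E + 2))
        (by have := Nat.mod_lt i (show 0 < E + 2 by omega); omega)
      have h3 := eval_mono q (hb x _ h1)
      omega
    · simp only [hiter]
      rw [hdec, Gs_pos _ _ _ _ _ _ _ _ _ (Nat.mod_lt _ (by omega)), decide_eq_false, cond_false]
      have h1 : i / (E + 2) < lv D x := by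
        rw [Nat.div_lt_iff_lt_mul (by omega), mul_comm]
        exact hi
      omega
    · simp only [hiter]
      rw [Gs_levs, Nat.sub_self, decide_eq_true rfl, cond_true]
      have h1 := hJ x (lv D x) le_rfl
      rw [Nat.sub_self] at h1
      rw [ans_J h1]

end Pool.Agent.V7H67.LI
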