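import Pool.Agent.V7H67.LI.Hard
import Pool.Agent.H550R2.Iso.Machine

/-!
# Computations in polynomial space with several outcomes
-/

namespace Pool.Agent.V7H67.LI

open Pool.Agent.NPC Pool.Agent.NPC.PIso Pool.Agent.V7H67.LL

/-- the final point of the orbit of an instance contains the final state -/
theorem sys_final {L : Set (List Bool)} (D : Sys L) (x : List Bool) : ∃ n,
    D.H (D.δ^[n] (D.c₀ x)) = true ∧ (∀ i < n, D.H (D.δ^[i] (D.c₀ x)) = false) ∧
    (D.dart (D.toPerm.T^[D.toPerm.m x] (D.toPerm.start x))).1 = D.δ^[n] (D.c₀ x) := by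
  obtain ⟨n, h1, h2, h3, _⟩ := D.halts x
  refine ⟨n, h2, h3, ?_⟩
  have hAt : Euler.At (D.M x) D.δ (D.F x) (D.δ^[n] (D.c₀ x)) n (D.c₀ x) := by
    refine ⟨D.c₀_lt x, rfl, ?_, ?_⟩
    · unfold Sys.F
      rw [h2]; rfl
    · intro i hi
      unfold Sys.F
      rw [h3 i hi, Bool.false_or, decide_eq_false_iff_not, not_le]
      have := h1 (i + 1) (by omega)
      rwa [Function.iterate_succ_apply'] at this
  obtain ⟨m, e1, e2⟩ := Euler.first_final (D.hδ x) hAt
  have hfin : ∀ i, D.fin (D.T^[i] (D.start x)) =
      (decide (((Euler.T (D.M x) D.δ (D.F x))^[i] (D.c₀ x, D.M x)).2 = D.M x) &&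
        D.F x ((Euler.T (D.M x) D.δ (D.F x))^[i] (D.c₀ x, D.M x)).1) := by
    intro i
    obtain ⟨h3, h4⟩ := D.T_iter (D.valid_c₀ x) i
    unfold Sys.start
    rw [h3]
    unfold Sys.fin
    rw [D.valid_mk h4, Sys.px_mk, D.dart_mk h4, Bool.true_and]
  have f1 : D.fin (D.T^[m] (D.start x)) = true := by
    rw [hfin, e1]
    simp [hAt.2.2.1]
  have f2 : ∀ i < m, D.fin (D.T^[i] (D.start x)) = false := by
    intro i hi
    rw [hfin]
    have := e2 i hi
    rw [Bool.and_eq_false_iff]
    by_contra hcon
    push Not at hcon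
    apply this
    simpa using hcon
  have g1 : D.fin (D.T^[D.toPerm.m x] (D.start x)) = true := D.toPerm.fin_m x
  have g2 : ∀ i < D.toPerm.m x, D.fin (D.T^[i] (D.start x)) = false := D.toPerm.fin_lt x
  have hm : D.toPerm.m x = m := by
    rcases Nat.lt_trichotomy (D.toPerm.m x) m with h | h | h
    · rw [f2 _ h] at g1; exact absurd g1 (by simp)
    · exact h
    · rw [g2 _ h] at f1; exact absurd f1 (by simp)
  change (D.dart (D.T^[D.toPerm.m x] (D.start x))).1 = _
  rw [hm]
  obtain ⟨h5, h6⟩ := D.T_iter (D.valid_c₀ x) m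
  unfold Sys.start
  rw [h5, D.dart_mk h6, e1]

section Code

variable {α : Type} [TEnc α] [TDec α]

/-- the number of a state -/
def en (a : α) : ℕ := valB (bits a ++ [true])

/-- the state with a given number -/
def de (a0 : α) (c : ℕ) : α := (unbits α c.bits.reverse.tail.reverse).getD a0

theorem de_en (a0 a : α) : de a0 (en a) = a := by
  unfold de en
  rw [bits_valB_append_true]
  simp [unbits_bits]

omit [TDec α] in
theorem poly_en : NPC.Poly (en : α → ℕ) :=
  NPC.Poly.valBits (NPC.Poly.append poly_bits (NPC.Poly.const [true]))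

theorem poly_de (a0 : α) : NPC.Poly (de a0) := by
  have h : NPC.Poly (fun c : ℕ => unbits α c.bits.reverse.tail.reverse) :=
    poly_unbits.comp (NPC.Poly.reverse (NPC.Poly.tail (NPC.Poly.reverse
      (NPC.Poly.natBits NPC.Poly.id))))
  refine (NPC.Poly.optCases (h := fun _ l => l) h (NPC.Poly.const a0)
    (NPC.Poly.snd NPC.Poly.id)).congr fun c => ?_
  unfold de
  cases unbits α c.bits.reverse.tail.reverse <;> rfl

omit [TDec α] in
theorem en_lt (a : α) : en a < 2 ^ (sz a + 1) := by
  have := valB_lt (bits a ++ [true])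
  rw [List.length_append, bits_length] at this
  exact this

/-- A function computed by iterating a polynomial-time step on short states is read off from the
final points of a permutation problem. -/
theorem exists_outcome {K : Type} [TEnc K] {G : α → α} {stop : α → Bool} {out : α → K}
    {init : List Bool → α} {o : List Bool → K} (hG : NPC.Poly G) (hstop : NPC.Poly stop)
    (hout : NPC.Poly out) (hinit : NPC.Poly init) (q : Polynomial ℕ)
    (h : ∀ x, ∃ n, stop (G^[n] (init x)) = true ∧ (∀ i < n, stop (G^[i] (init x)) = false) ∧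
      (∀ i ≤ n, sz (G^[i] (init x)) ≤ q.eval x.length) ∧ out (G^[n] (init x)) = o x) :
    ∃ (R : PermProblem Set.univ) (ok : List Bool → K), NPC.Poly ok ∧
      ∀ x, ok (R.T^[R.m x] (R.start x)) = o x := by
  have hit : ∀ (a : α) i, (fun c => en (G (de (init []) c)))^[i] (en a) = en (G^[i] a) := by
    intro a i
    induction i with
    | zero => rfl
    | succ i ih =>
      rw [Function.iterate_succ_apply', ih, Function.iterate_succ_apply']
      simp only [de_en]
  let D : Sys (Set.univ : Set (List Bool)) := {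
    N := q + 1
    δ := fun c => en (G (de (init []) c))
    H := fun c => stop (de (init []) c)
    A := fun _ => true
    c₀ := fun x => en (init x)
    poly_δ := poly_en.comp (hG.comp (poly_de _))
    poly_H := hstop.comp (poly_de _)
    poly_A := NPC.Poly.const _
    poly_c₀ := poly_en.comp hinit
    halts := by
      intro x
      obtain ⟨n, h1, h2, h3, _⟩ := h x
      refine ⟨n, fun i hi => ?_, ?_, fun i hi => ?_, by simp⟩
      · rw [hit]
        refine (en_lt _).trans_le (Nat.pow_le_pow_right (by norm_num) ?_)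
        have := h3 i hi
        simp only [Polynomial.eval_add, Polynomial.eval_one]
        omega
      · rw [hit, de_en]; exact h1
      · rw [hit, de_en]; exact h2 i hi }
  refine ⟨D.toPerm, fun d => out (de (init []) (D.dart d).1),
    hout.comp ((poly_de _).comp (NPC.Poly.fst D.poly_dart)), fun x => ?_⟩
  obtain ⟨n, h1, h2, h3⟩ := sys_final D x
  obtain ⟨n', a1, a2, _, a4⟩ := h x
  have e1 : ∀ i, D.δ^[i] (D.c₀ x) = en (G^[i] (init x)) := fun i => hit _ i
  have e2 : ∀ i, D.H (D.δ^[i] (D.c₀ x)) = stop (G^[i] (init x)) := by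
    intro i
    rw [e1]
    change stop (de (init []) (en (G^[i] (init x)))) = _
    rw [de_en]
  have hn : n = n' := by
    rcases Nat.lt_trichotomy n n' with h | h | h
    · have := a2 _ h
      rw [← e2, h1] at this
      exact absurd this (by simp)
    · exact h
    · have := h2 _ h
      rw [e2, a1] at this
      exact absurd this (by simp)
  simp only
  rw [h3, e1, de_en, hn, a4]

end Code

end Pool.Agent.V7H67.LI
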