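import Pool.Agent.V7H67.LI.Fin
import Pool.Agent.V7H67.LL.Up

/-!
# Canonical walks and the automaton that finds them
-/

namespace Pool.Agent.V7H67.LI

open Pool.Agent.NPC Pool.Agent.NPC.PIso Pool.Agent.V7H67.LL

variable {s k : ℕ} (A : Fin s → Rel k) (l : ℕ → Fin s)

/-- the state knows which vertices are reachable -/
def Kn (j : ℕ) (t : Sta k) : Prop := ∀ v0 u, (t v0 u).isSome = true ↔ Wl A l j v0 u

theorem kn_sI : Kn A l 0 (sI : Sta k) := by
  intro v0 u
  rw [wl_zero]
  unfold sI
  by_cases h : u = v0 <;> simp [h]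

variable {A l}

theorem kn_sB {j : ℕ} {t : Sta k} (h : Kn A l j t) : Kn A l j (sB t) := by
  intro v0 u
  rw [← h]
  simp [sB]

theorem kn_set {j : ℕ} {t : Sta k} (h : Kn A l j t) (v0 u' : Fin k) :
    {u | A (l j) u u' ∧ (t v0 u).isSome = true} = {u | A (l j) u u' ∧ Wl A l j v0 u} := by
  ext u
  simp only [Set.mem_ofPred_eq, h v0 u]

theorem kn_sA {j : ℕ} {t : Sta k} (h : Kn A l j t) : Kn A l (j + 1) (sA (A (l j)) t) := by
  intro v0 u'
  rw [wl_succ]
  unfold sA
  by_cases hn : {u | A (l j) u u' ∧ (t v0 u).isSome = true}.Nonempty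
  · rw [if_pos hn]
    have h1 := sl_mem hn u'
    constructor
    · intro _
      obtain ⟨z, h2, h3⟩ := hn
      exact ⟨z, h2, (h v0 z).1 h3⟩
    · intro _
      exact h1.2
  · rw [if_neg hn]
    simp only [Option.isSome_none, Bool.false_eq_true, false_iff]
    rintro ⟨z, h2, h3⟩
    exact hn ⟨z, h2, (h v0 z).2 h3⟩

variable (A l)

/-- one step of the automaton, with a flag for marking -/
noncomputable def sC (σ : Fin s) (m : Bool) (t : Sta k) : Sta k := sA (A σ) (bif m then sB t else t)

/-- the state after some letters, with the mark at position `i` -/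
noncomputable def sAt (i : ℕ) : ℕ → Sta k
  | 0 => sI
  | j + 1 => sC A (l j) (decide (j = i)) (sAt i j)

theorem kn_sAt (i j : ℕ) : Kn A l j (sAt A l i j) := by
  induction j with
  | zero => exact kn_sI A l
  | succ j ih =>
    unfold sAt sC
    by_cases h : j = i
    · rw [decide_eq_true h, cond_true]
      exact kn_sA (kn_sB ih)
    · rw [decide_eq_false h, cond_false]
      exact kn_sA ih

/-- the canonical walk of length `N` from `a` to `b`, seen from the end -/
noncomputable def bw (N : ℕ) (a b : Fin k) : ℕ → Fin k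
  | 0 => b
  | m + 1 => sl {u | A (l (N - m - 1)) u (bw N a b m) ∧ Wl A l (N - m - 1) a u} (bw N a b m)

/-- the canonical walk -/
noncomputable def cw (N : ℕ) (a b : Fin k) (i : ℕ) : Fin k := bw A l N a b (N - i)

variable {A l} {N : ℕ} {a b : Fin k}

theorem cw_end : cw A l N a b N = b := by simp [cw, bw]

theorem cw_succ {i : ℕ} (hi : i < N) : cw A l N a b i =
    sl {u | A (l i) u (cw A l N a b (i + 1)) ∧ Wl A l i a u} (cw A l N a b (i + 1)) := by
  unfold cw
  obtain ⟨m, hm⟩ : ∃ m, N - i = m + 1 := ⟨N - i - 1, by omega⟩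
  have h1 : N - (i + 1) = m := by omega
  have h2 : N - m - 1 = i := by omega
  rw [hm, h1]
  simp only [bw]
  rw [h2]

theorem cw_walk (h : Wl A l N a b) : ∀ m ≤ N, Wl A l (N - m) a (cw A l N a b (N - m)) := by
  intro m
  induction m with
  | zero => intro _; rw [Nat.sub_zero, cw_end]; exact h
  | succ m ih =>
    intro hm
    have h1 := ih (by omega)
    obtain ⟨i, hi⟩ : ∃ i, N - m = i + 1 := ⟨N - m - 1, by omega⟩
    have h2 : N - (m + 1) = i := by omega
    rw [hi] at h1
    rw [h2, cw_succ (by omega)]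
    exact (sl_mem ((wl_succ A).1 h1) _).2

theorem cw_edge (h : Wl A l N a b) {i : ℕ} (hi : i < N) :
    A (l i) (cw A l N a b i) (cw A l N a b (i + 1)) ∧ Wl A l i a (cw A l N a b i) := by
  have h1 := cw_walk h (N - (i + 1)) (by omega)
  rw [Nat.sub_sub_self (by omega)] at h1
  rw [cw_succ hi]
  exact sl_mem ((wl_succ A).1 h1) _

theorem cw_zero (h : Wl A l N a b) : cw A l N a b 0 = a := by
  have h1 := cw_walk h N le_rfl
  rw [Nat.sub_self] at h1
  exact (wl_zero A).1 h1

/-- the state knows the marked vertex of the canonical walk -/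
theorem final_value (h : Wl A l N a b) {i : ℕ} (hi : i < N) :
    sAt A l i N a b = some (cw A l N a b i) := by
  have key : ∀ m, i + m + 1 ≤ N → sAt A l i (i + m + 1) a (cw A l N a b (i + m + 1)) =
      some (cw A l N a b i) := by
    intro m
    induction m with
    | zero =>
      intro hm
      have h0 := cw_edge h hi
      have h1 := (kn_sAt A l i i a (cw A l N a b i)).2 h0.2
      obtain ⟨z, hz⟩ := Option.isSome_iff_exists.1 h1
      simp only [Nat.add_zero, sAt, sC, decide_true, cond_true]
      unfold sA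
      rw [kn_set (kn_sB (kn_sAt A l i i)), if_pos ⟨_, h0⟩]
      have h4 : sl {u | A (l i) u (cw A l N a b (i + 1)) ∧ Wl A l i a u}
          (cw A l N a b (i + 1)) = cw A l N a b i := (cw_succ hi).symm
      rw [h4]
      simp only [sB, hz, Option.map_some]
    | succ m ih =>
      intro hm
      have h2 := ih (by omega)
      have h3 := cw_edge h (i := i + m + 1) (by omega)
      have e1 : i + (m + 1) + 1 = (i + m + 1) + 1 := by ring
      have e2 : decide (i + m + 1 = i) = false := decide_eq_false (by omega)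
      rw [e1]
      change sC A (l (i + m + 1)) (decide (i + m + 1 = i)) (sAt A l i (i + m + 1)) a _ = _
      rw [e2]
      unfold sC
      rw [cond_false]
      unfold sA
      rw [kn_set (kn_sAt A l i (i + m + 1)), if_pos ⟨_, h3⟩]
      have h4 : sl {u | A (l (i + m + 1)) u (cw A l N a b (i + m + 1 + 1)) ∧
          Wl A l (i + m + 1) a u} (cw A l N a b (i + m + 1 + 1)) = cw A l N a b (i + m + 1) :=
        (cw_succ (i := i + m + 1) (by omega)).symm
      rw [h4]
      exact h2
  have h1 := key (N - i - 1) (by omega)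
  rw [show i + (N - i - 1) + 1 = N by omega, cw_end] at h1
  exact h1

/-! ### The automaton along an orbit -/

variable (P : PPerm) (inp : List Bool → Fin s)

/-- the sequence of letters from a point on -/
noncomputable def lt (y : List Bool) (j : ℕ) : Fin s := inp (P.F^[j] y)

variable (A)

/-- one step of the run -/
noncomputable def rS (i : ℕ) (z : List Bool × Sta k × ℕ) : List Bool × Sta k × ℕ :=
  (P.F z.1, sC A (inp z.1) (decide (z.2.2 = i)) z.2.1, z.2.2 + 1)

theorem rS_iter (i : ℕ) (y : List Bool) (n : ℕ) :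
    (rS A P inp i)^[n] (y, sI, 0) = (P.F^[n] y, sAt A (lt P inp y) i n, n) := by
  induction n with
  | zero => rfl
  | succ n ih =>
    rw [Function.iterate_succ_apply', ih, Function.iterate_succ_apply']
    rfl

variable {inp} in
theorem poly_sC {α : Type} [TEnc α] {y : α → List Bool} {m : α → Bool} {t : α → Sta k}
    (hinp : NPC.Poly inp) (hy : NPC.Poly y) (hm : NPC.Poly m) (ht : NPC.Poly t) :
    NPC.Poly (fun a => sC A (inp (y a)) (m a) (t a)) :=
  NPC.Poly.comp (g := fun q : Fin s × Bool × Sta k => sC A q.1 q.2.1 q.2.2)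
    (f := fun a => (inp (y a), m a, t a)) (poly_finite _) ((hinp.comp hy).pair (hm.pair ht))

variable {inp} in
theorem poly_sAt {α : Type} [TEnc α] {y : α → List Bool} {i n : α → ℕ} (hinp : NPC.Poly inp)
    (hy : NPC.Poly y) (hi : NPC.Poly i) (hn : UPoly n) :
    NPC.Poly (fun a => sAt A (lt P inp (y a)) (i a) (n a)) := by
  obtain ⟨q, hq⟩ := hy.sz_le
  obtain ⟨r, hr⟩ := hn.sz_le
  obtain ⟨C, hC⟩ := exists_sz_le (Sta k)
  have hstep : NPC.Poly (fun p : α × (List Bool × Sta k × ℕ) => rS A P inp (i p.1) p.2) := by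
    have h1 : NPC.Poly (fun p : α × (List Bool × Sta k × ℕ) => p.2.1) :=
      NPC.Poly.fst (NPC.Poly.snd NPC.Poly.id)
    have h2 : NPC.Poly (fun p : α × (List Bool × Sta k × ℕ) => p.2.2.1) :=
      NPC.Poly.fst (NPC.Poly.snd (NPC.Poly.snd NPC.Poly.id))
    have h3 : NPC.Poly (fun p : α × (List Bool × Sta k × ℕ) => p.2.2.2) :=
      NPC.Poly.snd (NPC.Poly.snd (NPC.Poly.snd NPC.Poly.id))
    exact (P.poly_F.comp h1).pair ((poly_sC A hinp h1 (NPC.Poly.decide_eq h3
      (hi.comp (NPC.Poly.fst NPC.Poly.id))) h2).pair (NPC.Poly.add h3 (NPC.Poly.const 1)))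
  have h := NPC.Poly.iterLen (F := fun a z => rS A P inp (i a) z)
    (l := fun a => List.replicate (n a) ()) hn (hy.pair ((NPC.Poly.const (sI : Sta k)).pair
      (NPC.Poly.const 0))) hstep (4 * q + Polynomial.C C + 4 * r + 20) (by
      intro a j hj
      rw [List.length_replicate] at hj
      rw [rS_iter]
      have h1 := sz_listBool_le (P.F^[j] (y a))
      have h2 := length_lt_sz (y a)
      have h3 := hq a
      have h4 := hC (sAt A (lt P inp (y a)) (i a) j)
      have h5 := sz_nat_le j
      have h6 : j.size ≤ j := NPC.Poly.size_le_self _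
      have h7 := length_lt_sz (List.replicate (n a) ())
      have h8 := hr a
      rw [List.length_replicate] at h7
      rw [P.length_iter] at h1
      simp only [sz_pair, Polynomial.eval_add, Polynomial.eval_mul, Polynomial.eval_C,
        Polynomial.eval_ofNat]
      omega)
  refine (NPC.Poly.fst (NPC.Poly.snd h)).congr fun a => ?_
  rw [List.length_replicate, rS_iter]

end Pool.Agent.V7H67.LI
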