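import Pool.Agent.V7H67.LI.Node

/-!
# Evaluating a list of nodes in polynomial space
-/

namespace Pool.Agent.V7H67.LI

open Pool.Agent.NPC Pool.Agent.NPC.PIso Pool.Agent.V7H67.LL

/-- the inputs: a number in unary, nodes, candidates for the list of their values -/
abbrev In := List Bool × List Nd × List (List Bool)

/-- the number of the first candidate, among the first `N - 1`, that is equal to `v`, or `N - 1` -/
def ixf (N : ℕ) (Q : List (List Bool)) (v : List Bool) : ℕ :=
  (((List.range (N - 1)).filter fun i => decide (Q.getD i [] = v)).head?).getD (N - 1)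

theorem ixf_lt {N : ℕ} (hN : 0 < N) (Q : List (List Bool)) (v : List Bool) : ixf N Q v < N := by
  unfold ixf
  cases h : ((List.range (N - 1)).filter fun i => decide (Q.getD i [] = v)).head? with
  | none => simp only [Option.getD_none]; omega
  | some a =>
    have h1 := List.mem_of_mem_head? h
    rw [List.mem_filter, List.mem_range] at h1
    simp only [Option.getD_some]
    omega

/-- if the number is not `N - 1` then it points to `v` -/
theorem ixf_spec {N : ℕ} {Q : List (List Bool)} {v : List Bool} (h : ixf N Q v ≠ N - 1) :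
    ixf N Q v < N - 1 ∧ Q.getD (ixf N Q v) [] = v := by
  unfold ixf at h ⊢
  cases h' : ((List.range (N - 1)).filter fun i => decide (Q.getD i [] = v)).head? with
  | none => rw [h'] at h; exact absurd rfl h
  | some a =>
    have h1 := List.mem_of_mem_head? h'
    rw [List.mem_filter, List.mem_range, decide_eq_true_iff] at h1
    simpa using h1

/-- the number is at most every index of `v` -/
theorem ixf_le {N : ℕ} {Q : List (List Bool)} {v : List Bool} {i : ℕ} (hi : i < N - 1)
    (h : Q.getD i [] = v) : ixf N Q v ≤ i := by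
  obtain ⟨h1, h2, h3⟩ := lst_spec (N := N - 1) (p := fun i => decide (Q.getD i [] = v))
    ⟨i, hi, by simpa using h⟩
  have h4 : ixf N Q v = lst (N - 1) fun i => decide (Q.getD i [] = v) := by
    unfold ixf lst
    cases h' : ((List.range (N - 1)).filter fun i => decide (Q.getD i [] = v)).head? with
    | none =>
      exfalso
      rw [List.head?_eq_none_iff, List.filter_eq_nil_iff] at h'
      exact h' i (List.mem_range.2 hi) (by simpa using h)
    | some a => rfl
  rw [h4]
  by_contra hc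
  push Not at hc
  have h5 := h3 i hc
  rw [decide_eq_false_iff_not] at h5
  exact h5 h

theorem poly_ixf {α : Type} [TEnc α] {N : ℕ} {Q : α → List (List Bool)} {v : α → List Bool}
    (hQ : NPC.Poly Q) (hv : NPC.Poly v) : NPC.Poly (fun a => ixf N (Q a) (v a)) :=
  NPC.Poly.head?_getD (NPC.Poly.filter (p := fun a i => decide ((Q a).getD i [] = v a))
    (NPC.Poly.const _) (NPC.Poly.decide_eq (NPC.Poly.getD (hQ.comp (NPC.Poly.fst NPC.Poly.id))
      (NPC.Poly.snd NPC.Poly.id) (NPC.Poly.const [])) (hv.comp (NPC.Poly.fst NPC.Poly.id)))) _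

/-- the states -/
abbrev Sp := (List Bool × List (List Bool)) × ℕ × List (Nd × ℕ × ℕ)

variable (δ : ℕ → ℕ)

/-- one step at a node -/
def sp1 (n t : ℕ) (w : Nd × ℕ × ℕ) : Nd × ℕ × ℕ :=
  (w.1, (bif decide (t < 2 ^ (min w.1.1 n)) then tn δ n w.2.1 else w.2.1),
    (bif decide (t < 2 ^ (min w.1.1 n + 1)) then tn δ n w.2.2 else w.2.2))

/-- one step -/
def Gp (z : Sp) : Sp := (z.1, z.2.1 + 1, z.2.2.map (sp1 δ z.1.1.length z.2.1))

/-- the test for the end -/
def stp (z : Sp) : Bool := decide (2 ^ (z.1.1.length + 1) ≤ z.2.1)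

/-- the initial state -/
def in0 (y : In) : Sp := ((y.1, y.2.2), 0, y.2.1.map fun u => (u, u.2.1, u.2.1))

/-- the value of a node -/
def vw (n : ℕ) (w : Nd × ℕ × ℕ) : Bool :=
  decide (w.2.1 / 2 ^ (min w.1.2.2.2.1 n) = w.1.2.2.2.2) && decide (w.2.2 = w.1.2.2.1)

/-- the result -/
def outp (N : ℕ) (z : Sp) : ℕ := ixf N z.1.2 (z.2.2.map (vw z.1.1.length))

/-- the entry of a node after `t` steps -/
def ent (n t : ℕ) (u : Nd) : Nd × ℕ × ℕ :=
  (u, (tn δ n)^[min t (2 ^ (min u.1 n))] u.2.1, (tn δ n)^[min t (2 ^ (min u.1 n + 1))] u.2.1)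

theorem sp1_ent (n t : ℕ) (u : Nd) : sp1 δ n t (ent δ n t u) = ent δ n (t + 1) u := by
  have key : ∀ (e c : ℕ), (bif decide (t < e) then tn δ n ((tn δ n)^[min t e] c) else
      (tn δ n)^[min t e] c) = (tn δ n)^[min (t + 1) e] c := by
    intro e c
    by_cases h : t < e
    · rw [decide_eq_true h, cond_true, min_eq_left h.le, min_eq_left (by omega),
        Function.iterate_succ_apply']
    · rw [decide_eq_false h, cond_false, min_eq_right (by omega), min_eq_right (by omega)]
  unfold sp1 ent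
  simp only
  rw [key, key]

theorem Gp_iter (y : In) (t : ℕ) : (Gp δ)^[t] (in0 y) =
    ((y.1, y.2.2), t, y.2.1.map (ent δ y.1.length t)) := by
  induction t with
  | zero =>
    unfold in0 ent
    simp
  | succ t ih =>
    rw [Function.iterate_succ_apply', ih]
    unfold Gp
    simp only [List.map_map]
    congr 2
    apply List.map_congr_left
    intro u _
    exact sp1_ent δ _ t u

theorem outp_end (N : ℕ) (y : In) : outp N ((Gp δ)^[2 ^ (y.1.length + 1)] (in0 y)) =
    ixf N y.2.2 (y.2.1.map (vl δ y.1.length)) := by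
  rw [Gp_iter]
  unfold outp
  simp only [List.map_map]
  congr 1
  apply List.map_congr_left
  intro u _
  have h1 : min (2 ^ (y.1.length + 1)) (2 ^ (min u.1 y.1.length)) = 2 ^ (min u.1 y.1.length) :=
    min_eq_right (Nat.pow_le_pow_right (by norm_num) (by omega))
  have h2 : min (2 ^ (y.1.length + 1)) (2 ^ (min u.1 y.1.length + 1)) =
      2 ^ (min u.1 y.1.length + 1) :=
    min_eq_right (Nat.pow_le_pow_right (by norm_num) (by omega))
  simp only [Function.comp_apply, vw, ent, h1, h2, vl]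

/-- the input of a string -/
def di (x : List Bool) : In := (unbits In x).getD ([], [], [])

theorem di_bits (y : In) : di (bits y) = y := by
  unfold di
  rw [unbits_bits]
  rfl

theorem sz_di (x : List Bool) : sz (di x) ≤ x.length + 5 := by
  unfold di
  cases h : unbits In x with
  | none => simp
  | some y =>
    have h1 := bits_of_unbits h
    simp only [Option.getD_some]
    rw [← h1, bits_length]
    omega

theorem poly_di : NPC.Poly di :=
  (NPC.Poly.optCases (o := unbits In) (g := fun _ => (([], [], []) : In)) (h := fun _ y => y)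
    poly_unbits (NPC.Poly.const _) (NPC.Poly.snd NPC.Poly.id)).congr fun x => by
      unfold di
      cases unbits In x <;> rfl

theorem poly_in0 : NPC.Poly in0 := by
  have h1 : NPC.Poly (fun y : In => y.1) := NPC.Poly.fst NPC.Poly.id
  have h2 : NPC.Poly (fun y : In => y.2.1) := NPC.Poly.fst (NPC.Poly.snd NPC.Poly.id)
  have h3 : NPC.Poly (fun y : In => y.2.2) := NPC.Poly.snd (NPC.Poly.snd NPC.Poly.id)
  have h4 : NPC.Poly (fun p : In × Nd => p.2) := NPC.Poly.snd NPC.Poly.id
  have h5 : NPC.Poly (fun p : In × Nd => p.2.2.1) := NPC.Poly.fst (NPC.Poly.snd h4)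
  exact (h1.pair h3).pair ((NPC.Poly.const 0).pair
    (NPC.Poly.map (F := fun _ u => (u, u.2.1, u.2.1)) h2 (h4.pair (h5.pair h5))))

variable {δ}

theorem upoly_min {α : Type} [TEnc α] {f n : α → ℕ} (hf : NPC.Poly f) (hn : UPoly n) :
    UPoly (fun a => min (f a) (n a)) :=
  UPoly.of_le (NPC.Poly.min hf hn.toPoly) hn fun _ => min_le_right _ _

theorem poly_Gp (hδ : NPC.Poly δ) : NPC.Poly (Gp δ) := by
  have h1 : NPC.Poly (fun z : Sp => z.1) := NPC.Poly.fst NPC.Poly.id
  have h2 : NPC.Poly (fun z : Sp => z.2.1) := NPC.Poly.fst (NPC.Poly.snd NPC.Poly.id)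
  have h3 : NPC.Poly (fun z : Sp => z.2.2) := NPC.Poly.snd (NPC.Poly.snd NPC.Poly.id)
  refine h1.pair ((NPC.Poly.add h2 (NPC.Poly.const 1)).pair
    (NPC.Poly.map (F := fun (z : Sp) w => sp1 δ z.1.1.length z.2.1 w) h3 ?_))
  have a1 : NPC.Poly (fun p : Sp × (Nd × ℕ × ℕ) => p.1) := NPC.Poly.fst NPC.Poly.id
  have an : UPoly (fun p : Sp × (Nd × ℕ × ℕ) => p.1.1.1.length) :=
    UPoly.length (NPC.Poly.fst (NPC.Poly.fst a1))
  have at' : NPC.Poly (fun p : Sp × (Nd × ℕ × ℕ) => p.1.2.1) := NPC.Poly.fst (NPC.Poly.snd a1)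
  have aw : NPC.Poly (fun p : Sp × (Nd × ℕ × ℕ) => p.2) := NPC.Poly.snd NPC.Poly.id
  have aw1 := NPC.Poly.fst aw
  have aw2 := NPC.Poly.fst (NPC.Poly.snd aw)
  have aw3 := NPC.Poly.snd (NPC.Poly.snd aw)
  have ai := upoly_min (NPC.Poly.fst aw1) an
  exact aw1.pair ((NPC.Poly.cond (NPC.Poly.decide_lt at' (poly_two_pow ai))
    (poly_tn hδ an aw2) aw2).pair (NPC.Poly.cond (NPC.Poly.decide_lt at'
      (poly_two_pow (UPoly.add ai (UPoly.const 1)))) (poly_tn hδ an aw3) aw3))

theorem poly_stp : NPC.Poly stp := by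
  have h1 : NPC.Poly (fun z : Sp => z.1.1) := NPC.Poly.fst (NPC.Poly.fst NPC.Poly.id)
  have h2 : NPC.Poly (fun z : Sp => z.2.1) := NPC.Poly.fst (NPC.Poly.snd NPC.Poly.id)
  exact NPC.Poly.decide_le (poly_two_pow (UPoly.add (UPoly.length h1) (UPoly.const 1))) h2

theorem poly_outp (N : ℕ) : NPC.Poly (outp N) := by
  have h1 : NPC.Poly (fun z : Sp => z.1.2) := NPC.Poly.snd (NPC.Poly.fst NPC.Poly.id)
  have h3 : NPC.Poly (fun z : Sp => z.2.2) := NPC.Poly.snd (NPC.Poly.snd NPC.Poly.id)
  refine poly_ixf h1 (NPC.Poly.map (F := fun (z : Sp) w => vw z.1.1.length w) h3 ?_)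
  have a1 : NPC.Poly (fun p : Sp × (Nd × ℕ × ℕ) => p.1) := NPC.Poly.fst NPC.Poly.id
  have an : UPoly (fun p : Sp × (Nd × ℕ × ℕ) => p.1.1.1.length) :=
    UPoly.length (NPC.Poly.fst (NPC.Poly.fst a1))
  have aw : NPC.Poly (fun p : Sp × (Nd × ℕ × ℕ) => p.2) := NPC.Poly.snd NPC.Poly.id
  have aw1 := NPC.Poly.fst aw
  have aw2 := NPC.Poly.fst (NPC.Poly.snd aw)
  have aw3 := NPC.Poly.snd (NPC.Poly.snd aw)
  have u3 := NPC.Poly.fst (NPC.Poly.snd (NPC.Poly.snd aw1))
  have u4 := NPC.Poly.fst (NPC.Poly.snd (NPC.Poly.snd (NPC.Poly.snd aw1)))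
  have u5 := NPC.Poly.snd (NPC.Poly.snd (NPC.Poly.snd (NPC.Poly.snd aw1)))
  exact NPC.Poly.and (NPC.Poly.decide_eq (NPC.Poly.div aw2 (poly_two_pow (upoly_min u4 an))) u5)
    (NPC.Poly.decide_eq aw3 u3)

theorem sz_state (y : In) (t : ℕ) (ht : t ≤ 2 ^ (y.1.length + 1)) :
    sz ((Gp δ)^[t] (in0 y)) ≤ sz y * (30 * sz y + 40) + 10 * sz y + 40 := by
  rw [Gp_iter]
  obtain ⟨h, S, Q⟩ := y
  simp only at ht ⊢
  have hY : sz h + sz S + sz Q + 2 = sz ((h, S, Q) : In) := by simp only [sz_pair]; ring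
  rw [← hY]
  set Y := sz h + sz S + sz Q + 2 with hYd
  have hn : h.length < sz h := length_lt_sz h
  have h1 : sz t ≤ 4 * Y + 9 := by
    have a1 := sz_nat_le t
    have a2 : t.size ≤ h.length + 2 := by
      rw [Nat.size_le]
      exact ht.trans_lt (Nat.pow_lt_pow_right (by norm_num) (by omega))
    omega
  have h2 : ∀ w ∈ S.map (ent δ h.length t), sz w ≤ 17 * Y + 8 := by
    intro w hw
    obtain ⟨u, hu, rfl⟩ := List.mem_map.1 hw
    have b1 := sz_le_of_mem hu
    have b2 : sz u.2.1 < sz u := by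
      obtain ⟨i, a, r⟩ := u
      simp only [sz_pair]
      omega
    have b3 : ∀ m, sz ((tn δ h.length)^[m] u.2.1) ≤ 8 * Y + 1 := by
      intro m
      have c1 := sz_nat_le ((tn δ h.length)^[m] u.2.1)
      rcases Nat.eq_zero_or_pos m with rfl | hm
      · simp only [Function.iterate_zero, id_eq]
        omega
      · have c2 := tn_iter_lt δ h.length u.2.1 hm
        have c3 := Nat.size_le.2 c2
        omega
    have b4 := b3 (min t (2 ^ (min u.1 h.length)))
    have b5 := b3 (min t (2 ^ (min u.1 h.length + 1)))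
    unfold ent
    simp only [sz_pair]
    omega
  have h3 := sz_le_length_mul _ _ h2
  rw [List.length_map] at h3
  have h4 : S.length ≤ Y := by have := length_lt_sz S; omega
  have h5 : S.length * (17 * Y + 8 + 1) ≤ Y * (17 * Y + 9) := Nat.mul_le_mul h4 le_rfl
  simp only [sz_pair]
  nlinarith

/-- The number of the first correct candidate is the outcome of a permutation problem. -/
theorem exists_nodes (hδ : NPC.Poly δ) {K : Type} [TEnc K] [Finite K] (κ0 : K) :
    ∃ (R : PermProblem Set.univ) (ok : List Bool → K), NPC.Poly ok ∧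
      ∀ x, ok (R.T^[R.m x] (R.start x)) =
        un K κ0 (ixf (Nat.card K) (di x).2.2 ((di x).2.1.map (vl δ (di x).1.length))) := by
  refine exists_outcome (G := Gp δ) (stop := stp) (out := fun z => un K κ0 (outp (Nat.card K) z))
    (init := fun x => in0 (di x)) (poly_Gp hδ) poly_stp
    ((poly_un K κ0).comp (poly_outp _)) (poly_in0.comp poly_di)
    ((Polynomial.X + 5) * (30 * (Polynomial.X + 5) + 40) + 10 * (Polynomial.X + 5) + 40)
    fun x => ?_
  refine ⟨2 ^ ((di x).1.length + 1), ?_, fun i hi => ?_, fun i hi => ?_, ?_⟩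
  · rw [Gp_iter]
    simp [stp]
  · rw [Gp_iter]
    unfold stp
    simp only [decide_eq_false_iff_not, not_le]
    exact hi
  · refine (sz_state (di x) i hi).trans ?_
    have h1 := sz_di x
    simp only [Polynomial.eval_add, Polynomial.eval_mul, Polynomial.eval_X,
      Polynomial.eval_ofNat]
    nlinarith
  · simp only [outp_end]

end Pool.Agent.V7H67.LI
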