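import Mathlib

/-!
# Monochromatic triangles
-/

namespace Pool.Agent.V7H67.LI

theorem triangle_aux {C : Type*} [DecidableEq C] : ∀ n : ℕ, ∃ m : ℕ, ∀ (S : Finset C),
    S.card ≤ n → ∀ (V : Finset ℕ), m ≤ V.card → ∀ χ : ℕ → ℕ → C,
    (∀ i ∈ V, ∀ j ∈ V, i < j → χ i j ∈ S) →
    ∃ i ∈ V, ∃ j ∈ V, ∃ l ∈ V, i < j ∧ j < l ∧ χ i j = χ j l ∧ χ i l = χ i j := by
  intro n
  induction n with
  | zero =>
    refine ⟨2, fun S hS V hV χ h => ?_⟩
    obtain ⟨a, ha, b, hb, hab⟩ := Finset.one_lt_card.1 (show 1 < V.card by omega)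
    have hS' : S = ∅ := Finset.card_eq_zero.1 (by omega)
    rcases lt_or_gt_of_ne hab with h1 | h1
    · have := h a ha b hb h1
      rw [hS'] at this
      simp at this
    · have := h b hb a ha h1
      rw [hS'] at this
      simp at this
  | succ n ih =>
    obtain ⟨m, hm⟩ := ih
    refine ⟨(n + 1) * m + 2, fun S hS V hV χ h => ?_⟩
    have hne : V.Nonempty := Finset.card_pos.1 (by omega)
    set v := V.min' hne with hv
    have hvV : v ∈ V := V.min'_mem hne
    have hlt : ∀ j ∈ V.erase v, v < j := by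
      intro j hj
      rw [Finset.mem_erase] at hj
      exact lt_of_le_of_ne (V.min'_le j hj.2) (Ne.symm hj.1)
    have hcard : S.card * m < (V.erase v).card := by
      rw [Finset.card_erase_of_mem hvV]
      have : S.card * m ≤ (n + 1) * m := Nat.mul_le_mul_right _ hS
      omega
    obtain ⟨c, hc, hF⟩ := Finset.exists_lt_card_fiber_of_mul_lt_card_of_maps_to
      (f := fun j => χ v j) (fun j hj => h v hvV j (Finset.mem_of_mem_erase hj) (hlt j hj)) hcard
    set F := (V.erase v).filter (fun j => χ v j = c) with hFd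
    have hFV : ∀ j ∈ F, j ∈ V ∧ v < j ∧ χ v j = c := by
      intro j hj
      rw [hFd, Finset.mem_filter] at hj
      exact ⟨Finset.mem_of_mem_erase hj.1, hlt j hj.1, hj.2⟩
    by_cases hex : ∃ i ∈ F, ∃ j ∈ F, i < j ∧ χ i j = c
    · obtain ⟨i, hi, j, hj, hij, hcij⟩ := hex
      refine ⟨v, hvV, i, (hFV i hi).1, j, (hFV j hj).1, (hFV i hi).2.1, hij, ?_, ?_⟩
      · rw [(hFV i hi).2.2, hcij]
      · rw [(hFV i hi).2.2, (hFV j hj).2.2]
    · push Not at hex
      obtain ⟨i, hi, j, hj, l, hl, h1⟩ := hm (S.erase c) (by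
        rw [Finset.card_erase_of_mem hc]; omega) F (le_of_lt hF) χ (fun i hi j hj hij => by
          rw [Finset.mem_erase]
          exact ⟨hex i hi j hj hij, h i (hFV i hi).1 j (hFV j hj).1 hij⟩)
      exact ⟨i, (hFV i hi).1, j, (hFV j hj).1, l, (hFV l hl).1, h1⟩

/-- In every colouring of the pairs of a long interval by finitely many colours, there is a
monochromatic triangle. -/
theorem triangle (C : Type*) [Finite C] : ∃ R : ℕ, ∀ χ : ℕ → ℕ → C,
    ∃ i j l, i < j ∧ j < l ∧ l ≤ R ∧ χ i j = χ j l ∧ χ i l = χ i j := by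
  classical
  have := Fintype.ofFinite C
  obtain ⟨m, hm⟩ := triangle_aux (C := C) (Fintype.card C)
  refine ⟨m, fun χ => ?_⟩
  obtain ⟨i, hi, j, hj, l, hl, h1, h2, h3⟩ := hm Finset.univ le_rfl (Finset.range m)
    (by rw [Finset.card_range]) χ (fun _ _ _ _ _ => Finset.mem_univ _)
  exact ⟨i, j, l, h1, h2, (Finset.mem_range.1 hl).le, h3⟩

end Pool.Agent.V7H67.LI
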