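import Pool.Agent.V7H67.LI.Mark
import Pool.Agent.V7H67.LI.Ram

/-!
# Local problems: solutions in polynomial time
-/

namespace Pool.Agent.V7H67.LI

open Pool.Agent.NPC Pool.Agent.NPC.PIso Pool.Agent.V7H67.LL

variable {s k : ℕ}

section Poly

variable (A : Fin s → Rel k) (P : PPerm) {inp : List Bool → Fin s}

/-- the relation of a number of letters from a point on is computable in polynomial time -/
theorem poly_wl {α : Type} [TEnc α] {y : α → List Bool} {n : α → ℕ} (hinp : NPC.Poly inp)
    (hy : NPC.Poly y) (hn : UPoly n) : NPC.Poly (fun a => Wl A (lt P inp (y a)) (n a)) := by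
  have h1 := poly_sAt A P hinp hy (NPC.Poly.const 0) hn
  refine (NPC.Poly.comp (g := fun t : Sta k => fun a b => (t a b).isSome = true)
    (f := fun a => sAt A (lt P inp (y a)) 0 (n a)) (poly_finite _) h1).congr fun a => ?_
  funext u v
  exact propext (kn_sAt A (lt P inp (y a)) 0 (n a) u v)

end Poly

section Sep

variable (A : Fin s → Rel k) (P : PPerm) (inp : List Bool → Fin s) (R : ℕ)

/-- the triples -/
def trl : List (ℕ × ℕ × ℕ) :=
  ((List.range (R + 1)) ×ˢ (List.range (R + 1)) ×ˢ (List.range (R + 1))).filter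
    fun t => decide (t.1 < t.2.1) && decide (t.2.1 < t.2.2)

theorem mem_trl {t : ℕ × ℕ × ℕ} : t ∈ trl R ↔ t.1 < t.2.1 ∧ t.2.1 < t.2.2 ∧ t.2.2 ≤ R := by
  obtain ⟨i, j, l⟩ := t
  unfold trl
  simp only [List.mem_filter, List.mem_product, List.mem_range, Bool.and_eq_true,
    decide_eq_true_iff]
  omega

open Classical in
/-- the triple is a monochromatic triangle at the point -/
noncomputable def gd (y : List Bool) (t : ℕ × ℕ × ℕ) : Bool :=
  decide (Wl A (lt P inp (P.F^[min t.1 R] y)) (min (t.2.1 - t.1) R) =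
    Wl A (lt P inp (P.F^[min t.2.1 R] y)) (min (t.2.2 - t.2.1) R)) &&
  decide (Wl A (lt P inp (P.F^[min t.1 R] y)) (min (t.2.2 - t.1) R) =
    Wl A (lt P inp (P.F^[min t.1 R] y)) (min (t.2.1 - t.1) R))

/-- the first triangle -/
noncomputable def tr (y : List Bool) : ℕ × ℕ × ℕ :=
  (((trl R).filter (gd A P inp R y)).head?).getD (0, 0, 0)

theorem tr_spec (hR : ∀ χ : ℕ → ℕ → Rel k, ∃ i j l, i < j ∧ j < l ∧ l ≤ R ∧ χ i j = χ j l ∧
    χ i l = χ i j) (y : List Bool) :
    (tr A P inp R y).1 < (tr A P inp R y).2.1 ∧ (tr A P inp R y).2.1 < (tr A P inp R y).2.2 ∧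
    (tr A P inp R y).2.2 ≤ R ∧
    Tw A (wd P inp (P.F^[(tr A P inp R y).1] y) ((tr A P inp R y).2.1 - (tr A P inp R y).1)) =
      Tw A (wd P inp (P.F^[(tr A P inp R y).2.1] y)
        ((tr A P inp R y).2.2 - (tr A P inp R y).2.1)) ∧
    Tw A (wd P inp (P.F^[(tr A P inp R y).1] y) ((tr A P inp R y).2.2 - (tr A P inp R y).1)) =
      Tw A (wd P inp (P.F^[(tr A P inp R y).1] y)
        ((tr A P inp R y).2.1 - (tr A P inp R y).1)) := by
  have key : tr A P inp R y ∈ trl R ∧ gd A P inp R y (tr A P inp R y) = true := by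
    obtain ⟨i, j, l, h1, h2, h3, h4, h5⟩ := hR fun i j => Tw A (wd P inp (P.F^[i] y) (j - i))
    have h6 : (i, j, l) ∈ (trl R).filter (gd A P inp R y) := by
      rw [List.mem_filter]
      refine ⟨(mem_trl R).2 ⟨h1, h2, h3⟩, ?_⟩
      unfold gd
      simp only
      rw [Bool.and_eq_true, decide_eq_true_iff, decide_eq_true_iff, min_eq_left (by omega),
        min_eq_left (by omega), min_eq_left (by omega), min_eq_left (by omega),
        min_eq_left (by omega)]
      exact ⟨h4, h5⟩
    obtain ⟨a, l', hal⟩ := List.exists_cons_of_ne_nil (List.ne_nil_of_mem h6)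
    have h7 : tr A P inp R y = a := by
      unfold tr
      rw [hal]
      rfl
    have h8 : a ∈ (trl R).filter (gd A P inp R y) := by rw [hal]; simp
    rw [h7]
    exact List.mem_filter.1 h8
  obtain ⟨h1, h2⟩ := key
  generalize tr A P inp R y = t at h1 h2 ⊢
  obtain ⟨a1, a2, a3⟩ := (mem_trl R).1 h1
  unfold gd at h2
  rw [Bool.and_eq_true, decide_eq_true_iff, decide_eq_true_iff, min_eq_left (by omega),
    min_eq_left (by omega), min_eq_left (by omega), min_eq_left (by omega),
    min_eq_left (by omega)] at h2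
  exact ⟨a1, a2, a3, h2⟩

/-- the offset of the separator of an anchor -/
noncomputable def off (y : List Bool) : ℕ := (tr A P inp R y).2.1

/-- the point is the separator of the anchor `j` steps back -/
noncomputable def isep (x : List Bool) (j : ℕ) : Bool :=
  anch P (3 * R) (P.G^[min j R] x) && decide (off A P inp R (P.G^[min j R] x) = j)

/-- the marked points: on short cycles the least points, on long cycles the separators -/
noncomputable def msep (x : List Bool) : Bool :=
  bif shrt P (3 * R) x then anch P (3 * R) x else (List.range (R + 1)).any (isep A P inp R x)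

theorem msep_long {x : List Bool} (hs : shrt P (3 * R) x = false) :
    msep A P inp R x = true ↔ ∃ j ≤ R, anch P (3 * R) (P.G^[j] x) = true ∧
      off A P inp R (P.G^[j] x) = j := by
  unfold msep isep
  rw [hs, cond_false, List.any_eq_true]
  constructor
  · rintro ⟨j, hj, h⟩
    rw [List.mem_range] at hj
    rw [Bool.and_eq_true, decide_eq_true_iff, min_eq_left (by omega)] at h
    exact ⟨j, by omega, h⟩
  · rintro ⟨j, hj, h⟩
    refine ⟨j, List.mem_range.2 (by omega), ?_⟩
    rw [Bool.and_eq_true, decide_eq_true_iff, min_eq_left hj]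
    exact h

variable {A P inp R}

theorem off_le (hR : ∀ χ : ℕ → ℕ → Rel k, ∃ i j l, i < j ∧ j < l ∧ l ≤ R ∧ χ i j = χ j l ∧
    χ i l = χ i j) (y : List Bool) : off A P inp R y ≤ R := by
  obtain ⟨h1, h2, h3, _⟩ := tr_spec A P inp R hR y
  unfold off
  omega

theorem poly_tr (hinp : NPC.Poly inp) : NPC.Poly (tr A P inp R) := by
  have h1 : NPC.Poly (fun q : List Bool × (ℕ × ℕ × ℕ) => q.1) := NPC.Poly.fst NPC.Poly.id
  have h2 : NPC.Poly (fun q : List Bool × (ℕ × ℕ × ℕ) => q.2.1) :=
    NPC.Poly.fst (NPC.Poly.snd NPC.Poly.id)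
  have h3 : NPC.Poly (fun q : List Bool × (ℕ × ℕ × ℕ) => q.2.2.1) :=
    NPC.Poly.fst (NPC.Poly.snd (NPC.Poly.snd NPC.Poly.id))
  have h4 : NPC.Poly (fun q : List Bool × (ℕ × ℕ × ℕ) => q.2.2.2) :=
    NPC.Poly.snd (NPC.Poly.snd (NPC.Poly.snd NPC.Poly.id))
  have hm : ∀ {f : List Bool × (ℕ × ℕ × ℕ) → ℕ}, NPC.Poly f → UPoly (fun q => min (f q) R) :=
    fun hf => UPoly.of_le (NPC.Poly.min hf (NPC.Poly.const R)) (UPoly.const R)
      fun q => min_le_right _ _
  have hF : ∀ {f : List Bool × (ℕ × ℕ × ℕ) → ℕ}, NPC.Poly f →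
      NPC.Poly (fun q => P.F^[min (f q) R] q.1) :=
    fun hf => poly_iter P.poly_F P.length_F h1 hf (UPoly.const R)
  have hW : ∀ {f g : List Bool × (ℕ × ℕ × ℕ) → ℕ}, NPC.Poly f → NPC.Poly g →
      NPC.Poly (fun q => Wl A (lt P inp (P.F^[min (f q) R] q.1)) (min (g q) R)) :=
    fun hf hg => poly_wl A P hinp (hF hf) (hm hg)
  have hgd : NPC.Poly (fun q : List Bool × (ℕ × ℕ × ℕ) => gd A P inp R q.1 q.2) := by
    classical
    refine (NPC.Poly.and (NPC.Poly.decide_eq (hW h2 (NPC.Poly.sub h3 h2))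
      (hW h3 (NPC.Poly.sub h4 h3))) (NPC.Poly.decide_eq (hW h2 (NPC.Poly.sub h4 h2))
      (hW h2 (NPC.Poly.sub h3 h2)))).congr fun q => ?_
    unfold gd
    congr 1
  exact NPC.Poly.head?_getD (NPC.Poly.filter (p := fun y t => gd A P inp R y t)
    (NPC.Poly.const (trl R)) hgd) _

theorem poly_off (hinp : NPC.Poly inp) : NPC.Poly (off A P inp R) :=
  NPC.Poly.fst (NPC.Poly.snd (poly_tr hinp))

theorem poly_isep (hinp : NPC.Poly inp) :
    NPC.Poly (fun q : List Bool × ℕ => isep A P inp R q.1 q.2) := by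
  have h : NPC.Poly (fun q : List Bool × ℕ => P.G^[min q.2 R] q.1) :=
    poly_iter P.poly_G P.length_G (NPC.Poly.fst NPC.Poly.id) (NPC.Poly.snd NPC.Poly.id)
      (UPoly.const R)
  exact NPC.Poly.and ((poly_anch P (3 * R)).comp h)
    (NPC.Poly.decide_eq ((poly_off hinp).comp h) (NPC.Poly.snd NPC.Poly.id))

theorem poly_msep (hinp : NPC.Poly inp) : NPC.Poly (msep A P inp R) :=
  NPC.Poly.cond (poly_shrt P _) (poly_anch P _)
    (NPC.Poly.any (p := fun x j => isep A P inp R x j) (NPC.Poly.const _) (poly_isep hinp))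

theorem G_zpow (j : ℕ) (m : ℤ) (x : List Bool) :
    P.G^[j] ((P.e ^ m) x) = (P.e ^ (m - j)) x := by
  rw [P.iterG_eq_zpow, ← Equiv.Perm.mul_apply, ← zpow_add]
  congr 2
  ring

/-- two different long anchors are far apart -/
theorem anch_far {r : ℕ} {y : List Bool} {d : ℤ} (hs : shrt P r y = false)
    (h1 : anch P r y = true) (h2 : anch P r ((P.e ^ d) y) = true) (h0 : d ≠ 0) : r < |d| := by
  by_contra hc
  push Not at hc
  have key : ∀ (n : ℕ) (y : List Bool), shrt P r y = false → anch P r y = true →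
      anch P r (P.F^[n] y) = true → 0 < n → n ≤ r → False := by
    intro n y hs h1 h2 h0 hn
    have hs' : shrt P r (P.F^[n] y) = false := by rw [P.iter_eq_zpow, shrt_zpow]; exact hs
    have h3 := (anch_long P hs).1 h1 n h0 hn
    have h4 := (anch_long P hs').1 h2 n h0 hn
    have h5 : P.G^[n] (P.F^[n] y) = y := by
      rw [P.iterG_eq_zpow, P.iter_eq_zpow, ← Equiv.Perm.mul_apply, ← zpow_add]
      simp
    rw [h5] at h4
    omega
  obtain ⟨n, rfl | rfl⟩ := Int.eq_nat_or_neg d
  · rw [← P.iter_eq_zpow] at h2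
    rw [Nat.abs_cast] at hc
    exact key n y hs h1 h2 (by omega) (by exact_mod_cast hc)
  · rw [abs_neg, Nat.abs_cast] at hc
    refine key n ((P.e ^ (-(n : ℤ))) y) (by rw [shrt_zpow]; exact hs) h2 ?_ (by omega)
      (by exact_mod_cast hc)
    rw [P.iter_eq_zpow, ← Equiv.Perm.mul_apply, ← zpow_add]
    simpa using h1

/-- two different separators are far apart -/
theorem sep_far {x : List Bool} {g : ℕ} (hs : shrt P (3 * R) x = false) (hg : 0 < g)
    (h1 : msep A P inp R x = true) (h2 : msep A P inp R (P.F^[g] x) = true) : 2 * R < g := by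
  by_contra hc
  push Not at hc
  have hs' : shrt P (3 * R) (P.F^[g] x) = false := by rw [P.iter_eq_zpow, shrt_zpow]; exact hs
  obtain ⟨j, hj, a1, a2⟩ := (msep_long A P inp R hs).1 h1
  obtain ⟨j', hj', b1, b2⟩ := (msep_long A P inp R hs').1 h2
  have e1 : P.G^[j'] (P.F^[g] x) = (P.e ^ ((g : ℤ) + j - j')) (P.G^[j] x) := by
    rw [P.iter_eq_zpow, G_zpow, P.iterG_eq_zpow, ← Equiv.Perm.mul_apply, ← zpow_add]
    congr 2
    ring
  by_cases h0 : (g : ℤ) + j - j' = 0
  · rw [h0, zpow_zero, Equiv.Perm.one_apply] at e1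
    rw [e1, a2] at b2
    omega
  · rw [e1] at b1
    have hs2 : shrt P (3 * R) (P.G^[j] x) = false := by rw [P.iterG_eq_zpow, shrt_zpow]; exact hs
    have h3 := anch_far hs2 a1 b1 h0
    have h4 : |(g : ℤ) + j - j'| ≤ 3 * R := by
      rw [abs_le]
      constructor <;> omega
    push_cast at h3
    omega

theorem sep_ex (hR : ∀ χ : ℕ → ℕ → Rel k, ∃ i j l, i < j ∧ j < l ∧ l ≤ R ∧ χ i j = χ j l ∧
    χ i l = χ i j) (x : List Bool) :
    ∃ m : ℤ, |m| ≤ (B0 (3 * R) x + R : ℕ) ∧ msep A P inp R ((P.e ^ m) x) = true := by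
  obtain ⟨m, h1, h2⟩ := exists_anch P (r := 3 * R) x
  cases hs : shrt P (3 * R) x with
  | true =>
    refine ⟨m, by push_cast; omega, ?_⟩
    unfold msep
    rw [shrt_zpow, hs, cond_true]
    exact h2
  | false =>
    have ho := off_le (A := A) (P := P) (inp := inp) hR ((P.e ^ m) x)
    set o := off A P inp R ((P.e ^ m) x) with hod
    refine ⟨m + o, ?_, ?_⟩
    · rw [abs_le] at h1 ⊢
      push_cast
      constructor <;> omega
    · rw [msep_long A P inp R (by rw [shrt_zpow]; exact hs)]
      refine ⟨o, ho, ?_⟩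
      have e1 : P.G^[o] ((P.e ^ (m + o)) x) = (P.e ^ m) x := by
        rw [G_zpow]
        congr 2
        ring
      rw [e1]
      exact ⟨h2, hod.symm⟩

/-- the set of marked points -/
noncomputable def sepMark (hinp : NPC.Poly inp) (hR : ∀ χ : ℕ → ℕ → Rel k,
    ∃ i j l, i < j ∧ j < l ∧ l ≤ R ∧ χ i j = χ j l ∧ χ i l = χ i j) : Mark P where
  m := msep A P inp R
  B := fun x => B0 (3 * R) x + R
  poly_m := poly_msep hinp
  upoly_B := by
    have h := UPoly.eval (UPoly.length (NPC.Poly.id (α := List Bool)))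
      (Polynomial.C (3 * R) * (Polynomial.C 2 * Polynomial.X + 1) ^ (3 * R) +
        Polynomial.C (3 * R) + Polynomial.C R)
    refine NPC.Poly.congr h fun x => ?_
    congr 1
    simp [B0]
  B_inv := fun k x => by simp only [B0, length_zpow]
  ex := sep_ex hR

variable (A P inp R)

/-- the number of steps back to the anchor of a separator -/
noncomputable def jj (x : List Bool) : ℕ := lst (R + 1) (isep A P inp R x)

/-- the relation of a separator -/
noncomputable def er (x : List Bool) : Rel k :=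
  Wl A (lt P inp x) (min ((tr A P inp R (P.G^[min (jj A P inp R x) R] x)).2.2 -
    (tr A P inp R (P.G^[min (jj A P inp R x) R] x)).2.1) R)

variable {A P inp R}

theorem poly_er (hinp : NPC.Poly inp) : NPC.Poly (er A P inp R) := by
  have h1 : NPC.Poly (jj A P inp R) := poly_lst (p := fun x j => isep A P inp R x j)
    (UPoly.const (R + 1)) (poly_isep hinp)
  have h2 : NPC.Poly (fun x => P.G^[min (jj A P inp R x) R] x) :=
    poly_iter P.poly_G P.length_G NPC.Poly.id h1 (UPoly.const R)
  have h3 := (poly_tr (A := A) (P := P) (R := R) hinp).comp h2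
  exact poly_wl A P hinp NPC.Poly.id (UPoly.of_le (NPC.Poly.min (NPC.Poly.sub
    (NPC.Poly.snd (NPC.Poly.snd h3)) (NPC.Poly.fst (NPC.Poly.snd h3))) (NPC.Poly.const R))
    (UPoly.const R) fun q => min_le_right _ _)

/-- the words around a separator -/
theorem sep_words (hR : ∀ χ : ℕ → ℕ → Rel k, ∃ i j l, i < j ∧ j < l ∧ l ≤ R ∧ χ i j = χ j l ∧
    χ i l = χ i j) {x : List Bool} (hs : shrt P (3 * R) x = false)
    (hm : msep A P inp R x = true) : ∃ p q, 0 < p ∧ p ≤ R ∧ 0 < q ∧ q ≤ R ∧
      Tw A (wd P inp x q) = er A P inp R x ∧ Tw A (wd P inp (P.G^[p] x) p) = er A P inp R x ∧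
      Tw A (wd P inp (P.G^[p] x) p ++ wd P inp x q) = er A P inp R x := by
  have hex : ∃ j < R + 1, isep A P inp R x j = true := by
    unfold msep at hm
    rw [hs, cond_false, List.any_eq_true] at hm
    obtain ⟨j, hj, h⟩ := hm
    exact ⟨j, List.mem_range.1 hj, h⟩
  obtain ⟨h1, h2, _⟩ := lst_spec hex
  change isep A P inp R x (jj A P inp R x) = true at h1
  change jj A P inp R x < R + 1 at h2
  unfold er
  generalize jj A P inp R x = j at h1 h2 ⊢
  unfold isep at h1
  have e0 : min j R = j := by omega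
  rw [e0] at h1 ⊢
  rw [Bool.and_eq_true, decide_eq_true_iff] at h1
  obtain ⟨_, h3⟩ := h1
  obtain ⟨t1, t2, t3, t4, t5⟩ := tr_spec A P inp R hR (P.G^[j] x)
  unfold off at h3
  generalize tr A P inp R (P.G^[j] x) = t at h3 t1 t2 t3 t4 t5 ⊢
  obtain ⟨i, j', l⟩ := t
  simp only at h3 t1 t2 t3 t4 t5 ⊢
  subst h3
  have e1 : P.F^[j'] (P.G^[j'] x) = x := by
    rw [P.iterG_eq_zpow, P.iter_eq_zpow, ← Equiv.Perm.mul_apply, ← zpow_add]
    simp
  have e2 : P.F^[i] (P.G^[j'] x) = P.G^[j' - i] x := by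
    rw [P.iterG_eq_zpow, P.iter_eq_zpow, P.iterG_eq_zpow, ← Equiv.Perm.mul_apply, ← zpow_add]
    congr 2
    omega
  rw [e1] at t4
  rw [e2] at t4 t5
  have e3 : min (l - j') R = l - j' := by omega
  rw [e3]
  refine ⟨j' - i, l - j', by omega, by omega, by omega, by omega, rfl, t4, ?_⟩
  have e4 : wd P inp (P.G^[j' - i] x) (l - i) =
      wd P inp (P.G^[j' - i] x) (j' - i) ++ wd P inp x (l - j') := by
    rw [show l - i = (j' - i) + (l - j') by omega, wd_add]
    congr 2
    rw [P.iterG_eq_zpow, P.iter_eq_zpow, ← Equiv.Perm.mul_apply, ← zpow_add]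
    simp
  rw [← e4, t5]
  exact t4

/-- **Local problems.** If the local condition holds, every polynomial-time permutation with input
labels that has a solution has one whose classes are in `P`. -/
theorem easy (hA : LocB A) (hinp : NPC.Poly inp) (h : ∃ c, Sol A P inp c) :
    ∃ c : List Bool → Fin k, NPC.Poly c ∧ Sol A P inp c := by
  classical
  obtain ⟨c0, hc0⟩ := h
  obtain ⟨lam, hlam⟩ := hA
  obtain ⟨R, hR⟩ := triangle (Rel k)
  let M := sepMark (A := A) (P := P) hinp hR
  let μ : List Bool → Fin k := fun x => bif shrt P (3 * R) x then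
    sl {v | Wl A (lt P inp x) (M.gap x) v v} (c0 []) else lam (er A P inp R x)
  have hμ : NPC.Poly μ := by
    refine NPC.Poly.cond (poly_shrt P _) ?_ ?_
    · exact NPC.Poly.comp (g := fun e : Rel k => sl {v | e v v} (c0 []))
        (f := fun x => Wl A (lt P inp x) (M.gap x)) (poly_finite _)
        (poly_wl A P hinp NPC.Poly.id M.upoly_gap)
    · exact NPC.Poly.comp (g := lam) (f := er A P inp R) (poly_finite _) (poly_er hinp)
  refine ⟨M.lab A inp μ, M.poly_lab hinp hμ, M.lab_sol fun y hy hm => ?_⟩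
  have hg0 : 0 < M.gap y := by unfold Mark.gap; omega
  have hm' : M.m (P.F^[M.gap y] y) = true := by
    have h1 := M.next_mark y
    rwa [(M.st_of_mark hm).2] at h1
  have hc := sol_word hc0 hy (M.gap y)
  cases hs : shrt P (3 * R) y with
  | true =>
    have hs' : shrt P (3 * R) (P.F^[M.gap y] y) = true := by
      rw [P.iter_eq_zpow, shrt_zpow]; exact hs
    have a1 : anch P (3 * R) y = true := by
      have : msep A P inp R y = true := hm
      unfold msep at this
      rwa [hs] at this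
    have a2 : anch P (3 * R) (P.F^[M.gap y] y) = true := by
      have : msep A P inp R (P.F^[M.gap y] y) = true := hm'
      unfold msep at this
      rwa [hs'] at this
    have e1 : P.F^[M.gap y] y = y := by
      apply valB_inj (P.length_iter _ _)
      apply le_antisymm _ (anch_min P hs a1 _)
      obtain ⟨n, hn, hn'⟩ := P.exists_period y
      have h5 : P.F^[n * M.gap y - M.gap y] (P.F^[M.gap y] y) = y := by
        rw [← Function.iterate_add_apply, Nat.sub_add_cancel (Nat.le_mul_of_pos_left _ hn)]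
        exact Function.IsPeriodicPt.mul_const (f := P.F) (m := n) hn' _
      have h6 := anch_min P hs' a2 (n * M.gap y - M.gap y)
      rwa [h5] at h6
    rw [e1] at hc
    have e2 : μ (P.F^[M.gap y] y) = μ y := by rw [e1]
    rw [e2]
    have e3 : μ y = sl {v | Wl A (lt P inp y) (M.gap y) v v} (c0 []) := by
      simp only [μ, hs, cond_true]
    rw [e3]
    exact sl_mem (U := {v | Wl A (lt P inp y) (M.gap y) v v}) ⟨c0 y, hc⟩ _
  | false =>
    have hs' : shrt P (3 * R) (P.F^[M.gap y] y) = false := by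
      rw [P.iter_eq_zpow, shrt_zpow]; exact hs
    have hfar := sep_far hs hg0 hm hm'
    obtain ⟨_, q, _, _, hq0, hqR, hq, hp1, hpq⟩ := sep_words hR hs hm
    obtain ⟨p, q', hp0, hpR, _, _, hq', hp', hpq'⟩ := sep_words hR hs' hm'
    have e1 : μ y = lam (er A P inp R y) := by simp only [μ, hs, cond_false]
    have e2 : μ (P.F^[M.gap y] y) = lam (er A P inp R (P.F^[M.gap y] y)) := by
      simp only [μ, hs', cond_false]
    rw [e1, e2]
    change Tw A (wd P inp y (M.gap y)) _ _
    have e3 : P.G^[p] (P.F^[M.gap y] y) = P.F^[M.gap y - p] y := by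
      rw [P.iterG_eq_zpow, P.iter_eq_zpow, P.iter_eq_zpow, ← Equiv.Perm.mul_apply, ← zpow_add]
      congr 2
      omega
    rw [e3] at hp' hpq'
    have e4 : wd P inp y (M.gap y) = wd P inp y q ++
        wd P inp (P.F^[q] y) (M.gap y - q - p) ++ wd P inp (P.F^[M.gap y - p] y) p := by
      conv_lhs => rw [show M.gap y = (q + (M.gap y - q - p)) + p by omega]
      rw [wd_add, wd_add, show q + (M.gap y - q - p) = M.gap y - p by omega]
    have hne : ∀ (z : List Bool) (n : ℕ), 0 < n → wd P inp z n ≠ [] := by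
      intro z n hn h0
      have := congrArg List.length h0
      rw [wd_length, List.length_nil] at this
      omega
    have h1 := hlam (wd P inp y q) (wd P inp (P.F^[q] y) (M.gap y - q - p))
      (wd P inp (P.F^[M.gap y - p] y) p) (hne _ _ hq0) (hne _ _ hp0)
      (by rw [tw_congr (hq.trans hp1.symm) rfl, hpq, hq])
      (by
        rw [tw_congr rfl (hp'.trans hq'.symm), hpq', hp'])
      ⟨c0 y, c0 (P.F^[M.gap y] y), by rw [← e4]; exact hc⟩
    rw [← e4, hq, hp'] at h1
    exact h1

end Sep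

end Pool.Agent.V7H67.LI
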