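import Pool.Agent.V7H67.LI.Orc

/-!
# Polynomial time with an oracle, in terms of functions on strings
-/

namespace Pool.Agent.V7H67.LI

open Pool.Agent.NPC Pool.Agent.NPC.PIso Pool.Agent.V7H67.LL

/-- One round of a computation that may query the labels `c`: in the state `z` the label of the
string `Q z` is queried and, if it is `a`, the new state is `S a z`. -/
def oround {k : ℕ} (c : List Bool → Fin k) (Q : List Bool → List Bool)
    (S : Fin k → List Bool → List Bool) (z : List Bool) : List Bool := S (c (Q z)) z

/-- The language `L` is decided in polynomial time with the oracle `c`: for some functions `I`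
(initial state), `Q` (query), `S a` (new state if the answer is `a`) and `O` (output) that are
computable in polynomial time, and a polynomial `p`, the computation on the input `x` makes
`p |x|` rounds, all its states have length at most `p |x|`, and the output is `[true]` if and only
if `x ∈ L`. -/
def InPGiven {k : ℕ} (c : List Bool → Fin k) (L : Set (List Bool)) : Prop :=
  ∃ (I Q O : List Bool → List Bool) (S : Fin k → List Bool → List Bool) (p : Polynomial ℕ),
    PolyTime I ∧ PolyTime Q ∧ PolyTime O ∧ (∀ a, PolyTime (S a)) ∧ ∀ x : List Bool,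
      (∀ i ≤ p.eval x.length, ((oround c Q S)^[i] (I x)).length ≤ p.eval x.length) ∧
        (x ∈ L ↔ O ((oround c Q S)^[p.eval x.length] (I x)) = [true])

/-- applying a fixed finite list of polynomial-time functions -/
theorem poly_fixed {α β W : Type} [TEnc α] [TEnc β] {f : W → α → β} (hf : ∀ w, NPC.Poly (f w))
    (l : List W) : NPC.Poly (fun a => l.map fun w => f w a) := by
  induction l with
  | nil => exact NPC.Poly.const []
  | cons w l ih => exact NPC.Poly.cons (hf w) ih

instance tdecFin (n : ℕ) : TDec (Fin n) where
  dec t := match (TDec.dec t : Option ℕ) with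
    | none => none
    | some m => ((List.finRange n).map some).getD m none
  dec_toT a := by
    have h : (TDec.dec (toT a) : Option ℕ) = some a.val := TDec.dec_toT a.val
    rw [h]
    simp
  toT_dec t a h := by
    cases h1 : (TDec.dec t : Option ℕ) with
    | none =>
      rw [h1] at h
      exact absurd h (by simp)
    | some m =>
      rw [h1] at h
      have h2 : a.val = m := by
        simp only at h
        rcases Nat.lt_or_ge m n with hm | hm
        · rw [List.getD_eq_getElem _ _ (by simpa using hm)] at h
          simp only [List.getElem_map, List.getElem_finRange, Option.some.injEq] at h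
          rw [← h]
          rfl
        · rw [List.getD_eq_default _ _ (by simpa using hm)] at h
          exact absurd h (by simp)
      have h3 := TDec.toT_dec _ _ h1
      rw [← h2] at h3
      exact h3
  poly_dec := by
    exact (NPC.Poly.optCases (o := fun t : T => (TDec.dec t : Option ℕ)) (g := fun _ => none)
      (h := fun _ m => ((List.finRange n).map some).getD m none) TDec.poly_dec (NPC.Poly.const _)
      (NPC.Poly.getD (NPC.Poly.const _) (NPC.Poly.snd NPC.Poly.id) (NPC.Poly.const _))).congr
      fun t => by cases (TDec.dec t : Option ℕ) <;> rfl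

section Serial

variable {k : ℕ} (c : List Bool → Fin k) (Q : List Bool → List (List Bool))
  (S : List Bool × List (Fin k) → List Bool) (O : List Bool → Option Bool)

/-- the states: the state, the queries to be made, the answers received -/
abbrev Ss (k : ℕ) := List Bool × List (List Bool) × List (Fin k)

/-- the new state after the answer `a` -/
def snx (a : Fin k) (w : Ss k) : Ss k :=
  bif (O w.1).isSome then w else
  bif w.2.1.isEmpty then (S (w.1, w.2.2), Q (S (w.1, w.2.2)), [])
  else (w.1, w.2.1.tail, w.2.2 ++ [a])

/-- the query -/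
def sqy (w : Ss k) : List Bool := w.2.1.headD []

variable {Q S O} in
theorem poly_snx (hQ : NPC.Poly Q) (hS : NPC.Poly S) (hO : NPC.Poly O) (a : Fin k) :
    NPC.Poly (snx Q S O a) := by
  have w1 : NPC.Poly (fun w : Ss k => w.1) := NPC.Poly.fst NPC.Poly.id
  have w2 : NPC.Poly (fun w : Ss k => w.2.1) := NPC.Poly.fst (NPC.Poly.snd NPC.Poly.id)
  have w3 : NPC.Poly (fun w : Ss k => w.2.2) := NPC.Poly.snd (NPC.Poly.snd NPC.Poly.id)
  have w4 : NPC.Poly (fun w : Ss k => S (w.1, w.2.2)) := hS.comp (w1.pair w3)
  exact NPC.Poly.cond (NPC.Poly.isSome (hO.comp w1)) NPC.Poly.id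
    (NPC.Poly.cond (NPC.Poly.isEmpty w2) (w4.pair ((hQ.comp w4).pair (NPC.Poly.const [])))
      (w1.pair ((NPC.Poly.tail w2).pair (NPC.Poly.append w3 (NPC.Poly.const [a])))))

theorem poly_sqy : NPC.Poly (sqy : Ss k → List Bool) :=
  (NPC.Poly.head?_getD (NPC.Poly.fst (NPC.Poly.snd NPC.Poly.id)) []).congr fun w => by
    unfold sqy
    cases w.2.1 <;> rfl

/-- the round -/
def srd (w : Ss k) : Ss k := snx Q S O (c (sqy w)) w

theorem srd_stop {w : Ss k} (h : (O w.1).isSome = true) : srd c Q S O w = w := by
  unfold srd snx
  rw [h, cond_true]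

theorem srd_query {z : List Bool} (h : O z = none) {j : ℕ} (hj : j < (Q z).length) :
    srd c Q S O (z, (Q z).drop j, ((Q z).take j).map c) =
      (z, (Q z).drop (j + 1), ((Q z).take (j + 1)).map c) := by
  unfold srd snx sqy
  rw [List.drop_eq_getElem_cons hj]
  simp only [h, Option.isSome_none, cond_false, List.isEmpty_cons, List.headD_cons,
    List.tail_cons, Prod.mk.injEq, true_and]
  rw [List.take_add_one, List.map_append, List.getElem?_eq_getElem hj]
  rfl

theorem srd_next {z : List Bool} (h : O z = none) :
    srd c Q S O (z, (Q z).drop (Q z).length, ((Q z).take (Q z).length).map c) =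
      (rnd c Q S z, Q (rnd c Q S z), []) := by
  unfold srd snx rnd
  simp [h]

theorem srd_all {z : List Bool} (h : O z = none) :
    (srd c Q S O)^[(Q z).length + 1] (z, Q z, []) = (rnd c Q S z, Q (rnd c Q S z), []) := by
  have key : ∀ j ≤ (Q z).length, (srd c Q S O)^[j] (z, Q z, []) =
      (z, (Q z).drop j, ((Q z).take j).map c) := by
    intro j
    induction j with
    | zero => intro _; simp
    | succ j ih =>
      intro hj
      rw [Function.iterate_succ_apply', ih (by omega), srd_query c Q S O h (by omega)]
  rw [Function.iterate_succ_apply', key _ le_rfl, srd_next c Q S O h]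

end Serial

/-- From computations with lists of queries to computations with single queries. -/
theorem InPRel.given {k : ℕ} {c : List Bool → Fin k} {L : Set (List Bool)} (h : InPRel c L) :
    InPGiven c L := by
  obtain ⟨I, Q, S, O, p, hI, hQ, hS, hO, h5⟩ := h
  choose n a1 a2 a3 b a4 a5 using h5
  obtain ⟨C, hC⟩ := exists_sz_le (Fin k)
  obtain ⟨r, hr⟩ := hQ.sz_le
  -- the bounds
  let r' : Polynomial ℕ := r.comp (4 * p + 1)
  have hQl : ∀ x, ∀ i ≤ n x, sz (Q ((rnd c Q S)^[i] (I x))) ≤ r'.eval x.length := by
    intro x i hi
    refine (hr _).trans ?_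
    simp only [r', Polynomial.eval_comp]
    refine eval_mono r ?_
    have b1 := sz_listBool_le ((rnd c Q S)^[i] (I x))
    have b2 := a2 x i hi
    simp only [Polynomial.eval_add, Polynomial.eval_mul, Polynomial.eval_one,
      Polynomial.eval_ofNat]
    omega
  let P : Polynomial ℕ := p * (r' + 1) + (4 * p + 1) + r' + (r' * Polynomial.C (C + 1) + 1) + 4
  -- the invariant
  let inv : List Bool → Ss k → Prop := fun x w => ∃ i ≤ n x, ∃ j ≤ (Q ((rnd c Q S)^[i] (I x))).length,
    w = ((rnd c Q S)^[i] (I x), (Q ((rnd c Q S)^[i] (I x))).drop j,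
      ((Q ((rnd c Q S)^[i] (I x))).take j).map c)
  have hinv0 : ∀ x, inv x (I x, Q (I x), []) := fun x => ⟨0, Nat.zero_le _, 0, Nat.zero_le _, by simp⟩
  have hinv1 : ∀ x w, inv x w → inv x (srd c Q S O w) := by
    rintro x w ⟨i, hi, j, hj, rfl⟩
    rcases Nat.lt_or_ge i (n x) with hin | hin
    · rcases Nat.lt_or_ge j (Q ((rnd c Q S)^[i] (I x))).length with hjn | hjn
      · rw [srd_query c Q S O (a3 x i hin) hjn]
        exact ⟨i, hi, j + 1, by omega, rfl⟩
      · have : j = (Q ((rnd c Q S)^[i] (I x))).length := by omega
        subst this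
        rw [srd_next c Q S O (a3 x i hin), ← Function.iterate_succ_apply' (rnd c Q S)]
        exact ⟨i + 1, by omega, 0, Nat.zero_le _, by simp⟩
    · have : i = n x := by omega
      subst this
      rw [srd_stop c Q S O (by simp only [a4 x, Option.isSome_some])]
      exact ⟨n x, le_rfl, j, hj, rfl⟩
  have hinv : ∀ x i, inv x ((srd c Q S O)^[i] (I x, Q (I x), [])) := by
    intro x i
    induction i with
    | zero => exact hinv0 x
    | succ i ih =>
      rw [Function.iterate_succ_apply']
      exact hinv1 x _ ih
  have hsz : ∀ x w, inv x w → sz w ≤ P.eval x.length := by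
    rintro x w ⟨i, hi, j, hj, rfl⟩
    have b1 := sz_listBool_le ((rnd c Q S)^[i] (I x))
    have b2 := a2 x i hi
    have b3 := hQl x i hi
    have b4 := NPC.Poly.sz_drop_le (Q ((rnd c Q S)^[i] (I x))) j
    have b5 := sz_le_length_mul (((Q ((rnd c Q S)^[i] (I x))).take j).map c) C (fun a _ => hC a)
    have b6 := length_lt_sz (Q ((rnd c Q S)^[i] (I x)))
    rw [List.length_map, List.length_take] at b5
    have b7 : min j (Q ((rnd c Q S)^[i] (I x))).length * (C + 1) ≤ r'.eval x.length * (C + 1) :=
      Nat.mul_le_mul_right _ (by omega)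
    simp only [P, sz_pair, Polynomial.eval_add, Polynomial.eval_mul, Polynomial.eval_one,
      Polynomial.eval_ofNat, Polynomial.eval_C]
    omega
  -- the number of rounds
  have hreach : ∀ x, ∀ i ≤ n x, ∃ T ≤ i * (r'.eval x.length + 1), (srd c Q S O)^[T]
      (I x, Q (I x), []) = ((rnd c Q S)^[i] (I x), Q ((rnd c Q S)^[i] (I x)), []) := by
    intro x i
    induction i with
    | zero => exact fun _ => ⟨0, Nat.zero_le _, rfl⟩
    | succ i ih =>
      intro hi
      obtain ⟨T, hT, he⟩ := ih (by omega)
      refine ⟨((Q ((rnd c Q S)^[i] (I x))).length + 1) + T, ?_, ?_⟩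
      · have b3 := hQl x i (by omega)
        have b6 := length_lt_sz (Q ((rnd c Q S)^[i] (I x)))
        rw [Nat.add_mul, Nat.one_mul]
        omega
      · rw [Function.iterate_add_apply, he, srd_all c Q S O (a3 x i (by omega)),
          Function.iterate_succ_apply']
  have hfin : ∀ x, (srd c Q S O)^[P.eval x.length] (I x, Q (I x), []) =
      ((rnd c Q S)^[n x] (I x), Q ((rnd c Q S)^[n x] (I x)), []) := by
    intro x
    obtain ⟨T, hT, he⟩ := hreach x (n x) le_rfl
    have hle : T ≤ P.eval x.length := by
      have b1 : n x * (r'.eval x.length + 1) ≤ p.eval x.length * (r'.eval x.length + 1) :=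
        Nat.mul_le_mul_right _ (a1 x)
      simp only [P, Polynomial.eval_add, Polynomial.eval_mul, Polynomial.eval_one,
        Polynomial.eval_ofNat, Polynomial.eval_C]
      omega
    obtain ⟨m, hm⟩ := Nat.exists_eq_add_of_le hle
    have hst : ∀ m, (srd c Q S O)^[m] ((rnd c Q S)^[n x] (I x), Q ((rnd c Q S)^[n x] (I x)), []) =
        ((rnd c Q S)^[n x] (I x), Q ((rnd c Q S)^[n x] (I x)), []) := by
      intro m
      induction m with
      | zero => rfl
      | succ m ih =>
        rw [Function.iterate_succ_apply', ih, srd_stop c Q S O (by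
          simp only [a4 x, Option.isSome_some])]
    rw [hm, add_comm, Function.iterate_add_apply, he, hst]
  -- strings
  have hu : NPC.Poly (unbits (Ss k)) := poly_unbits
  let S' : Fin k → List Bool → List Bool := fun a w => match unbits (Ss k) w with
    | none => []
    | some w => bits (snx Q S O a w)
  let Q' : List Bool → List Bool := fun w => match unbits (Ss k) w with
    | none => []
    | some w => sqy w
  let O' : List Bool → List Bool := fun w => match unbits (Ss k) w with
    | none => []
    | some w => [(O w.1).getD false]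
  have hS' : ∀ a, NPC.Poly (S' a) := fun a =>
    (NPC.Poly.optCases (o := fun w => unbits (Ss k) w) (g := fun _ => [])
      (h := fun _ w => bits (snx Q S O a w)) hu (NPC.Poly.const _)
      (poly_bits.comp ((poly_snx hQ hS hO a).comp (NPC.Poly.snd NPC.Poly.id)))).congr
      fun w => by simp only [S']; cases unbits (Ss k) w <;> rfl
  have hQ' : NPC.Poly Q' :=
    (NPC.Poly.optCases (o := fun w => unbits (Ss k) w) (g := fun _ => [])
      (h := fun _ w => sqy w) hu (NPC.Poly.const _)
      (poly_sqy.comp (NPC.Poly.snd NPC.Poly.id))).congr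
      fun w => by simp only [Q']; cases unbits (Ss k) w <;> rfl
  have hO' : NPC.Poly O' := by
    have h1 : NPC.Poly (fun w : Ss k => (O w.1).getD false) :=
      (NPC.Poly.optCases (o := fun w : Ss k => O w.1) (g := fun _ => false) (h := fun _ b => b)
        (hO.comp (NPC.Poly.fst NPC.Poly.id)) (NPC.Poly.const _)
        (NPC.Poly.snd NPC.Poly.id)).congr fun w => by cases O w.1 <;> rfl
    exact (NPC.Poly.optCases (o := fun w => unbits (Ss k) w) (g := fun _ => [])
      (h := fun _ w => [(O w.1).getD false]) hu (NPC.Poly.const _)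
      (NPC.Poly.cons (h1.comp (NPC.Poly.snd NPC.Poly.id)) (NPC.Poly.const []))).congr
      fun w => by simp only [O']; cases unbits (Ss k) w <;> rfl
  have hI' : NPC.Poly (fun x => bits ((I x, Q (I x), []) : Ss k)) :=
    poly_bits.comp (hI.pair ((hQ.comp hI).pair (NPC.Poly.const [])))
  have hit : ∀ x i, (oround c Q' S')^[i] (bits ((I x, Q (I x), []) : Ss k)) =
      bits ((srd c Q S O)^[i] (I x, Q (I x), [])) := by
    intro x i
    induction i with
    | zero => rfl
    | succ i ih =>
      rw [Function.iterate_succ_apply', Function.iterate_succ_apply', ih]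
      unfold oround
      simp only [S', Q', unbits_bits]
      rfl
  refine ⟨_, Q', O', S', P, poly_iff.1 hI', poly_iff.1 hQ', poly_iff.1 hO',
    fun a => poly_iff.1 (hS' a), fun x => ⟨fun i _ => ?_, ?_⟩⟩
  · rw [hit, bits_length]
    exact hsz x _ (hinv x i)
  · rw [hit, hfin]
    simp only [O', unbits_bits, a4 x, Option.getD_some, List.cons.injEq, and_true]
    exact (a5 x).symm

/-- With a polynomial-time oracle only languages in `P` are decided. -/
theorem InPGiven.inP {k : ℕ} {c : List Bool → Fin k} (hc : NPC.Poly c) {L : Set (List Bool)}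
    (h : InPGiven c L) : InP L := by
  obtain ⟨I, Q, O, S, p, hI, hQ, hO, hS, h5⟩ := h
  rcases isEmpty_or_nonempty (Fin k) with he | ⟨⟨a0⟩⟩
  · exact (he.false (c [])).elim
  have hSp : NPC.Poly (fun w : Fin k × List Bool => S w.1 w.2) := by
    have h1 := poly_fixed (f := fun (a : Fin k) (w : List Bool) => S a w)
      (fun a => poly_iff.2 (hS a)) (List.finRange k)
    exact (NPC.Poly.getD (h1.comp (NPC.Poly.snd NPC.Poly.id)) (NPC.Poly.comp (g := fun a : Fin k => a.val)
      (f := fun w : Fin k × List Bool => w.1) (poly_finite _) (NPC.Poly.fst NPC.Poly.id))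
      (NPC.Poly.const [])).congr fun w => by simp
  have hr : NPC.Poly (oround c Q S) :=
    NPC.Poly.comp (g := fun w : Fin k × List Bool => S w.1 w.2)
      (f := fun z => (c (Q z), z)) hSp ((hc.comp (poly_iff.2 hQ)).pair NPC.Poly.id)
  have hU : NPC.Poly (fun x : List Bool => List.replicate (p.eval x.length) ()) :=
    UPoly.eval (UPoly.length NPC.Poly.id) p
  obtain ⟨q, hq⟩ := hU.sz_le
  have hiter : NPC.Poly (fun x => (oround c Q S)^[p.eval x.length] (I x)) := by
    have hG' : NPC.Poly (fun q : List Bool × List Bool => oround c Q S q.2) :=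
      hr.comp (NPC.Poly.snd NPC.Poly.id)
    have hb : ∀ x m, m ≤ (List.replicate (p.eval x.length) ()).length →
        sz ((fun z => oround c Q S z)^[m] (I x)) ≤ (4 * q + 1).eval (sz x) := by
      intro x m hm
      rw [List.length_replicate] at hm
      have b1 := sz_listBool_le ((oround c Q S)^[m] (I x))
      have b2 := (h5 x).1 m hm
      have b3 := hq x
      have b4 := length_lt_sz (List.replicate (p.eval x.length) ())
      rw [List.length_replicate] at b4
      simp only [Polynomial.eval_add, Polynomial.eval_mul, Polynomial.eval_one,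
        Polynomial.eval_ofNat]
      change sz ((oround c Q S)^[m] (I x)) ≤ _
      omega
    have h := NPC.Poly.iterLen (F := fun (_ : List Bool) z => oround c Q S z)
      (l := fun x => List.replicate (p.eval x.length) ()) hU (poly_iff.2 hI) hG' (4 * q + 1) hb
    exact h.congr fun x => by rw [List.length_replicate]
  exact ⟨fun x => O ((oround c Q S)^[p.eval x.length] (I x)), poly_iff.1 ((poly_iff.2 hO).comp hiter),
    fun x => (h5 x).2⟩

end Pool.Agent.V7H67.LI
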