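import Pool.Agent.V7H67.LL.Perm

/-!
# Relations of words
-/

namespace Pool.Agent.V7H67.LI

open Pool.Agent.NPC Pool.Agent.NPC.PIso Pool.Agent.V7H67.LL

/-- relations between labels -/
abbrev Rel (k : ℕ) := Fin k → Fin k → Prop

variable {s k : ℕ}

/-- The relation of a word of input labels: there is a walk from `a` to `b` whose successive steps
are allowed for the letters of the word. -/
def Tw {Γ Λ : Type} (A : Γ → Λ → Λ → Prop) : List Γ → Λ → Λ → Prop
  | [] => fun a b => a = b
  | σ :: w => fun a b => ∃ c, A σ a c ∧ Tw A w c b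

/-- The steps that lie on a closed walk. -/
def trim {Γ Λ : Type} (A : Γ → Λ → Λ → Prop) (σ : Γ) (a b : Λ) : Prop :=
  A σ a b ∧ ∃ w, Tw A w b a

/-- To the relations of words one can attach labels such that, for all nonempty words `u`, `u'`
whose relations are equal to their squares, and every word `z`, the label of the relation of `u` is
joined to the label of the relation of `u'` by the relation of the word `u z u'`, if this relation
is not empty. -/
def LocB {Γ Λ : Type} (B : Γ → Λ → Λ → Prop) : Prop :=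
  ∃ lam : (Λ → Λ → Prop) → Λ, ∀ u z u' : List Γ, u ≠ [] → u' ≠ [] →
    Tw B (u ++ u) = Tw B u → Tw B (u' ++ u') = Tw B u' →
    (∃ a b, Tw B (u ++ z ++ u') a b) → Tw B (u ++ z ++ u') (lam (Tw B u)) (lam (Tw B u'))

variable (A : Fin s → Rel k)

theorem tw_append (u v : List (Fin s)) (a b : Fin k) :
    Tw A (u ++ v) a b ↔ ∃ c, Tw A u a c ∧ Tw A v c b := by
  induction u generalizing a with
  | nil => simp [Tw]
  | cons σ u ih =>
    simp only [List.cons_append, Tw, ih]
    constructor
    · rintro ⟨c, h1, d, h2, h3⟩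
      exact ⟨d, ⟨c, h1, h2⟩, h3⟩
    · rintro ⟨d, ⟨c, h1, h2⟩, h3⟩
      exact ⟨c, h1, d, h2, h3⟩

theorem tw_single (σ : Fin s) (a b : Fin k) : Tw A [σ] a b ↔ A σ a b := by
  simp [Tw]

variable {A} in
theorem tw_congr {u u' v v' : List (Fin s)} (h : Tw A u = Tw A u') (h' : Tw A v = Tw A v') :
    Tw A (u ++ v) = Tw A (u' ++ v') := by
  funext a b
  rw [eq_iff_iff, tw_append, tw_append, h, h']

theorem tw_trim (w : List (Fin s)) (a b : Fin k) :
    Tw (trim A) w a b ↔ Tw A w a b ∧ ∃ w', Tw A w' b a := by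
  induction w generalizing a with
  | nil =>
    constructor
    · rintro rfl
      exact ⟨rfl, [], rfl⟩
    · exact fun h => h.1
  | cons σ w ih =>
    constructor
    · rintro ⟨c, ⟨h1, w1, h2⟩, h3⟩
      obtain ⟨h4, w2, h5⟩ := (ih c).1 h3
      exact ⟨⟨c, h1, h4⟩, w2 ++ w1, (tw_append A _ _ _ _).2 ⟨c, h5, h2⟩⟩
    · rintro ⟨⟨c, h1, h2⟩, w', h3⟩
      exact ⟨c, ⟨h1, w ++ w', (tw_append A _ _ _ _).2 ⟨b, h2, h3⟩⟩,
        (ih c).2 ⟨h2, w' ++ [σ], (tw_append A _ _ _ _).2 ⟨a, h3, (tw_single A _ _ _).2 h1⟩⟩⟩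

theorem trim_return {w : List (Fin s)} {a b : Fin k} (h : Tw (trim A) w a b) :
    ∃ w', Tw (trim A) w' b a := by
  obtain ⟨h1, w', h2⟩ := (tw_trim A _ _ _).1 h
  exact ⟨w', (tw_trim A _ _ _).2 ⟨h2, w, h1⟩⟩

/-- in a relation equal to its square, every pair passes through a loop -/
theorem exists_loop {e : Rel k} (h : ∀ a b, e a b ↔ ∃ c, e a c ∧ e c b) {a b : Fin k}
    (hab : e a b) : ∃ c, e a c ∧ e c c ∧ e c b := by
  choose y hy using fun p : {x // e x b} => (h p.1 b).1 p.2
  let st : {x // e x b} → {x // e x b} := fun p => ⟨y p, (hy p).2⟩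
  let x : ℕ → {x // e x b} := fun n => st^[n] ⟨a, hab⟩
  have step : ∀ n, e (x n).1 (x (n + 1)).1 := by
    intro n
    have : x (n + 1) = st (x n) := Function.iterate_succ_apply' _ _ _
    rw [this]
    exact (hy (x n)).1
  have tr : ∀ n m, e (x n).1 (x (n + m + 1)).1 := by
    intro n m
    induction m with
    | zero => exact step n
    | succ m ih => exact (h _ _).2 ⟨_, ih, step _⟩
  obtain ⟨i, j, hij, he⟩ := Finite.exists_ne_map_eq_of_infinite (fun n => (x (n + 1)).1)
  wlog hlt : i < j generalizing i j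
  · exact this j i hij.symm he.symm (by omega)
  refine ⟨(x (i + 1)).1, ?_, ?_, (x (i + 1)).2⟩
  · have := tr 0 i
    rwa [Nat.zero_add] at this
  · have h1 := tr (i + 1) (j - i - 1)
    rw [show i + 1 + (j - i - 1) + 1 = j + 1 by omega] at h1
    have he' : (x (i + 1)).1 = (x (j + 1)).1 := he
    rwa [← he'] at h1

variable {A} in
theorem idem_iff {u : List (Fin s)} (h : Tw A (u ++ u) = Tw A u) (a b : Fin k) :
    Tw A u a b ↔ ∃ c, Tw A u a c ∧ Tw A u c b := by
  rw [← tw_append, h]

/-! ### Walks along sequences of letters -/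

/-- walks along the first letters of a sequence -/
def Wl (l : ℕ → Fin s) (n : ℕ) : Rel k := Tw A ((List.range n).map l)

theorem wl_zero {l : ℕ → Fin s} {a b : Fin k} : Wl A l 0 a b ↔ b = a := by
  unfold Wl
  simp only [List.range_zero, List.map_nil, Tw]
  exact eq_comm

theorem wl_succ {l : ℕ → Fin s} {n : ℕ} {a b : Fin k} :
    Wl A l (n + 1) a b ↔ ∃ z, A (l n) z b ∧ Wl A l n a z := by
  unfold Wl
  rw [List.range_succ, List.map_append, tw_append]
  simp only [List.map_cons, List.map_nil, tw_single]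
  exact exists_congr fun z => and_comm

/-! ### Solutions on a polynomial-time permutation with input labels -/

variable (P : PPerm) (inp : List Bool → Fin s)

/-- `c` is a solution: for every point `x` of the domain, the step from the label of `x` to the
label of its image is allowed for the input label of `x`. -/
def Sol (c : List Bool → Fin k) : Prop := ∀ x ∈ P.X, A (inp x) (c x) (c (P.f x))

/-- the word of the input labels from a point on -/
noncomputable def wd (x : List Bool) (n : ℕ) : List (Fin s) :=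
  (List.range n).map fun i => inp (P.F^[i] x)

theorem wd_length (x : List Bool) (n : ℕ) : (wd P inp x n).length = n := by simp [wd]

theorem wd_add (x : List Bool) (m n : ℕ) :
    wd P inp x (m + n) = wd P inp x m ++ wd P inp (P.F^[m] x) n := by
  unfold wd
  rw [List.range_add, List.map_append, List.map_map]
  congr 1
  apply List.map_congr_left
  intro i _
  simp only [Function.comp_apply]
  rw [add_comm, Function.iterate_add_apply]

variable {A P inp}

theorem sol_word {c : List Bool → Fin k} (hc : Sol A P inp c) {x : List Bool} (hx : x ∈ P.X)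
    (n : ℕ) : Tw A (wd P inp x n) (c x) (c (P.F^[n] x)) := by
  induction n with
  | zero => rfl
  | succ n ih =>
    rw [wd_add, tw_append]
    refine ⟨_, ih, ?_⟩
    have h1 := hc _ (P.mem_iter hx n)
    rw [← P.F_mem (P.mem_iter hx n)] at h1
    rw [Function.iterate_succ_apply']
    simpa [wd, tw_single] using h1

theorem sol_trim {c : List Bool → Fin k} (hc : Sol A P inp c) : Sol (trim A) P inp c := by
  intro x hx
  refine ⟨hc x hx, wd P inp (P.f x) (P.N x - 1), ?_⟩
  have h1 := sol_word hc (P.mem_f x hx) (P.N x - 1)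
  have h2 : P.F^[P.N x - 1] (P.f x) = x := by
    rw [← P.F_mem hx, ← Function.iterate_succ_apply, Nat.succ_eq_add_one,
      Nat.sub_add_cancel (P.N_pos x), P.iter_N]
  rwa [h2] at h1

theorem sol_of_trim {c : List Bool → Fin k} (hc : Sol (trim A) P inp c) : Sol A P inp c :=
  fun x hx => (hc x hx).1

/-- the word of a sequence -/
theorem wd_eq_wl (x : List Bool) (n : ℕ) (a b : Fin k) :
    Tw A (wd P inp x n) a b ↔ Wl A (fun i => inp (P.F^[i] x)) n a b := Iff.rfl

end Pool.Agent.V7H67.LI
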